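import Mathlib

/-!
# The quadratic polynomials `X ^ 2 - t X + q` over a finite field
-/

set_option autoImplicit false

open Polynomial

namespace Pool.Agent.Lib.MP_021685_agD

/-- The polynomial `X ^ 2 - t X + q`. -/
noncomputable def quad {R : Type*} [CommRing R] (q : ℕ) (t : R) : R[X] :=
  X ^ 2 - C t * X + C (q : R)

theorem quad_map {R R' : Type*} [CommRing R] [CommRing R'] (f : R →+* R') (q : ℕ) (t : R) :
    (quad q t).map f = quad q (f t) := by
  simp [quad]

theorem quad_eval {R : Type*} [CommRing R] (q : ℕ) (t x : R) :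
    (quad q t).eval x = x ^ 2 - t * x + q := by
  simp [quad]

theorem quad_monic {R : Type*} [CommRing R] [Nontrivial R] (q : ℕ) (t : R) : (quad q t).Monic := by
  have h : quad q t = X ^ 2 + (- C t * X + C (q : R)) := by rw [quad]; ring
  rw [h]
  apply monic_X_pow_add
  have h1 : (- C t * X + C (q : R)) = C (-t) * X + C (q : R) := by rw [C_neg]
  rw [h1]
  exact degree_linear_lt

theorem quad_natDegree {R : Type*} [CommRing R] [Nontrivial R] (q : ℕ) (t : R) :
    (quad q t).natDegree = 2 := by
  rw [quad]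
  compute_degree!

theorem quad_separable {k : Type*} [Field k] (q : ℕ) (t : k) (h : t ^ 2 - 4 * q ≠ 0) :
    (quad q t).Separable := by
  rw [separable_def']
  set D := t ^ 2 - 4 * (q : k) with hD
  refine ⟨C (-4 / D), C (1 / D) * (C 2 * X - C t), ?_⟩
  have h1 : derivative (quad q t) = C 2 * X - C t := by
    have e3 : (C (2 : k) : k[X]) = 2 := map_ofNat C 2
    rw [e3]
    simp [quad]
    try norm_num
  rw [h1]
  have h2 : C (-4 / D) * quad q t + C (1 / D) * (C 2 * X - C t) * (C 2 * X - C t) =
      C (1 / D) * C D := by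
    rw [hD, quad]
    have e1 : C (-4 / (t ^ 2 - 4 * (q : k))) = C (1 / (t ^ 2 - 4 * (q : k))) * C (-4) := by
      rw [← C_mul]; congr 1; ring
    rw [e1]
    simp only [C_sub, C_mul, C_pow, C_neg]
    have e2 : (C (4 : k) : k[X]) = 4 := map_ofNat C 4
    have e3 : (C (2 : k) : k[X]) = 2 := map_ofNat C 2
    rw [e2, e3]
    ring
  rw [h2, ← C_mul, one_div, inv_mul_cancel₀ h, C_1]

theorem quad_coprime {k : Type*} [Field k] (q : ℕ) (hq : (q : k) ≠ 0) {t u : k} (h : t ≠ u) :
    IsCoprime (quad q t) (quad q u) := by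
  have hut : u - t ≠ 0 := sub_ne_zero.2 h.symm
  refine ⟨C ((q : k)⁻¹) * (1 - C ((u - t)⁻¹) * (X - C t)),
    C ((q : k)⁻¹) * (C ((u - t)⁻¹) * (X - C t)), ?_⟩
  have h1 : quad q t - quad q u = C (u - t) * X := by
    simp only [quad, C_sub]; ring
  have h2 : C ((u - t)⁻¹) * C (u - t) = (1 : k[X]) := by
    rw [← C_mul, inv_mul_cancel₀ hut, C_1]
  have h3 : C ((q : k)⁻¹) * C (q : k) = (1 : k[X]) := by
    rw [← C_mul, inv_mul_cancel₀ hq, C_1]
  calc _ = C ((q : k)⁻¹) * (quad q t - C ((u - t)⁻¹) * (X - C t) * (quad q t - quad q u)) := by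
        ring
    _ = C ((q : k)⁻¹) * (quad q t - (C ((u - t)⁻¹) * C (u - t)) * (X * (X - C t))) := by
        rw [h1]; ring
    _ = C ((q : k)⁻¹) * C (q : k) := by
        rw [h2, quad]; ring
    _ = 1 := h3

theorem prod_quad_separable {k : Type*} [Field k] (q : ℕ) (hq : (q : k) ≠ 0) (T : Finset k)
    (hT : ∀ t ∈ T, t ^ 2 - 4 * (q : k) ≠ 0) : (∏ t ∈ T, quad q t).Separable := by
  apply separable_prod'
  · intro x _ y _ hxy
    exact quad_coprime q hq hxy
  · intro x hx
    exact quad_separable q x (hT x hx)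

/-- In characteristic `l`, an element fixed by Frobenius is in the prime field. -/
theorem mem_range_of_pow_eq {l : ℕ} [hl : Fact l.Prime] {k : Type*} [Field k] [CharP k l]
    {a : k} (ha : a ^ l = a) : ∃ b : ZMod l, ZMod.castHom (dvd_refl l) k b = a := by
  classical
  set f := ZMod.castHom (dvd_refl l) k with hf
  by_contra hcon
  push Not at hcon
  have hinj : Function.Injective f := f.injective
  have hne : (X ^ l - X : k[X]) ≠ 0 := by
    apply FiniteField.X_pow_card_sub_X_ne_zero k hl.out.one_lt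
  have h1 : (insert a (Finset.univ.image f)).card ≤ (X ^ l - X : k[X]).natDegree := by
    have h2 : insert a (Finset.univ.image f) ⊆ (X ^ l - X : k[X]).roots.toFinset := by
      intro x hx
      rw [Multiset.mem_toFinset, mem_roots hne, IsRoot.def, eval_sub, eval_pow, eval_X,
        sub_eq_zero]
      rcases Finset.mem_insert.1 hx with rfl | hx
      · exact ha
      · obtain ⟨b, -, rfl⟩ := Finset.mem_image.1 hx
        rw [← map_pow, ZMod.pow_card]
    refine (Finset.card_le_card h2).trans ((Multiset.toFinset_card_le _).trans ?_)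
    exact card_roots' _
  rw [Finset.card_insert_of_notMem, Finset.card_image_of_injective _ hinj, Finset.card_univ,
    ZMod.card, FiniteField.X_pow_card_sub_X_natDegree_eq k hl.out.one_lt] at h1
  · omega
  · intro h
    obtain ⟨b, -, hb⟩ := Finset.mem_image.1 h
    exact hcon b hb

/-- A root of `X ^ 2 - t X + q` with non-square discriminant is exchanged by Frobenius with the
other root. -/
theorem frob_root {l : ℕ} [hl : Fact l.Prime] {k : Type*} [Field k] [CharP k l] {q : ℕ}
    {t : ZMod l} (ht : ¬ IsSquare (t ^ 2 - 4 * (q : ZMod l))) {a : k}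
    (ha : a ^ 2 - ZMod.castHom (dvd_refl l) k t * a + q = 0) : a ^ l ≠ a ∧ a * a ^ l = q := by
  set f := ZMod.castHom (dvd_refl l) k with hf
  have h1 : a ^ l ≠ a := by
    intro h
    obtain ⟨b, hb⟩ := mem_range_of_pow_eq h
    apply ht
    refine ⟨2 * b - t, ?_⟩
    apply f.injective
    have hb' : f b = a := hb
    simp only [map_sub, map_mul, map_pow, map_natCast, hb', map_ofNat]
    linear_combination (-4 : k) * ha
  refine ⟨h1, ?_⟩
  have h2 : (a ^ l) ^ 2 - f t * a ^ l + q = 0 := by
    have h3 : (a ^ 2 - f t * a + q) ^ l = 0 ^ l := by rw [ha]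
    rw [zero_pow hl.out.ne_zero, add_pow_char, sub_pow_char, mul_pow, ← map_pow, ZMod.pow_card] at h3
    have h4 : (q : k) ^ l = q := by
      have : (f (q : ZMod l)) ^ l = f (q : ZMod l) := by rw [← map_pow, ZMod.pow_card]
      simpa using this
    rw [h4] at h3
    rw [← h3]
    ring
  have h3 : (a ^ l - a) * (a ^ l + a - f t) = 0 := by
    linear_combination h2 - ha
  rcases mul_eq_zero.1 h3 with h4 | h4
  · exact absurd (sub_eq_zero.1 h4) h1
  · linear_combination a * h4 - ha

/-- A root of `X ^ 2 - t X + q` with square discriminant is fixed by Frobenius. -/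
theorem frob_root' {l : ℕ} [hl : Fact l.Prime] (hl2 : l ≠ 2) {k : Type*} [Field k] [CharP k l]
    {q : ℕ} {t : ZMod l} (ht : IsSquare (t ^ 2 - 4 * (q : ZMod l))) {a : k}
    (ha : a ^ 2 - ZMod.castHom (dvd_refl l) k t * a + q = 0) : a ^ l = a := by
  set f := ZMod.castHom (dvd_refl l) k with hf
  obtain ⟨s, hs⟩ := ht
  have h2 : (2 : ZMod l) ≠ 0 := by
    intro h
    have h3 : ((2 : ℕ) : ZMod l) = 0 := by exact_mod_cast h
    rw [ZMod.natCast_eq_zero_iff] at h3
    exact hl2 ((Nat.prime_dvd_prime_iff_eq hl.out Nat.prime_two).1 h3)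
  have h2k : (2 : k) ≠ 0 := by
    intro h
    apply h2
    apply f.injective
    rw [map_ofNat, h, map_zero]
  have hs' : f t ^ 2 - 4 * (q : k) = f s * f s := by
    have := congrArg f hs
    simpa [map_ofNat] using this
  have h3 : (2 * a - f t - f s) * (2 * a - f t + f s) = 0 := by
    linear_combination (4 : k) * ha + hs'
  have hfix : ∀ b : ZMod l, f b ^ l = f b := fun b => by rw [← map_pow, ZMod.pow_card]
  have h4 : ∃ b : ZMod l, f b = a := by
    rcases mul_eq_zero.1 h3 with h | h
    · refine ⟨(t + s) / 2, ?_⟩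
      rw [map_div₀, map_add, map_ofNat, div_eq_iff h2k]
      linear_combination -h
    · refine ⟨(t - s) / 2, ?_⟩
      rw [map_div₀, map_sub, map_ofNat, div_eq_iff h2k]
      linear_combination -h
  obtain ⟨b, rfl⟩ := h4
  exact hfix b

end Pool.Agent.Lib.MP_021685_agD
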