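import Mathlib
import Pool.Agent.Lib.MP_021685_ag.Main

/-!
# Sign changes in the Galois group force all multiplicative relations to be trivial
-/

set_option autoImplicit false

open Polynomial Pool.Agent.Lib.MP_021685_ag

open scoped TensorProduct

namespace Pool.Agent.Lib.MP_021685_agD

/-- The same as `tate_of_relations`, for a separable polynomial over `ℚ`. -/
theorem tate_of_relations_sep {P : ℚ[X]} (hP : P.Separable) (q : ℕ)
    {S : Type*} [Field S] [Algebra ℚ S] [IsSplittingField ℚ S P]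
    (bar : P.rootSet S → P.rootSet S)
    (hbar : ∀ x, bar (bar x) = x) (hfix : ∀ x, bar x ≠ x)
    (hmul : ∀ x : P.rootSet S, (x : S) * (bar x : S) = q)
    (m j : ℕ)
    (hrel : ∀ d : P.rootSet S → ℕ, ∑ x, d x = 2 * j →
      (∏ x : P.rootSet S, (x : S) ^ (d x)) ^ m = (q : S) ^ (m * j) → ∀ x, d x = d (bar x))
    {K : Type*} [Field K] [CharZero K] {H : Type*} [AddCommGroup H] [Module K H]
    (F : Module.End K H) (hF : aeval F (P.map (algebraMap ℚ K)) = 0)
    (ω : ExteriorAlgebra K H) (hω : ω ∈ ⋀[K]^(2 * j) H)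
    (hω2 : ExteriorAlgebra.map (F ^ m) ω = (q : K) ^ (m * j) • ω) :
    ω ∈ Algebra.adjoin K {η | η ∈ ⋀[K]^2 H ∧ ExteriorAlgebra.map F η = (q : K) • η} := by
  classical
  obtain ⟨K', hK'1, hK'2, hK'3, hsplit⟩ : ∃ (K' : Type _) (_ : Field K') (_ : Algebra K K')
      (_ : FiniteDimensional K K'), ((P.map (algebraMap ℚ K)).map (algebraMap K K')).Splits :=
    ⟨(P.map (algebraMap ℚ K)).SplittingField, inferInstance, inferInstance, inferInstance,
      SplittingField.splits _⟩
  have hchar : CharZero K' := charZero_of_injective_algebraMap (algebraMap K K').injective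
  have hmap : P.map (algebraMap ℚ K') = (P.map (algebraMap ℚ K)).map (algebraMap K K') := by
    rw [Polynomial.map_map]
    congr 1
    exact Subsingleton.elim _ _
  rw [← hmap] at hsplit
  let i : S →ₐ[ℚ] K' := IsSplittingField.lift S P hsplit
  refine tate_of_balanced (K' := K') F q (i : S →+* K') ?_ bar hbar hfix hmul m j
    hrel ω hω hω2
  intro v
  have h2 := span_eigenvectors (F.baseChange K') (P.map (algebraMap ℚ K')) hsplit
    hP.map (by
      rw [hmap, aeval_baseChange, hF, LinearMap.baseChange_zero]) v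
  refine Submodule.span_mono ?_ h2
  rintro u ⟨x, hx, hu⟩
  have hx2 : x ∈ P.rootSet K' := by
    rw [rootSet, aroots, Finset.mem_coe, Multiset.mem_toFinset]
    exact hx
  rw [← (IsSplittingField.splits S P).image_rootSet i] at hx2
  obtain ⟨y, hy, rfl⟩ := hx2
  exact ⟨⟨y, hy⟩, hu⟩

/-- `σ` exchanges the root `x` with `q / x ≠ x` and fixes all the other roots of `P`. -/
def SignChange {S : Type*} [Field S] [Algebra ℚ S] (q : ℕ) (P : ℚ[X]) (x : S) (σ : S ≃ₐ[ℚ] S) :
    Prop :=
  x * σ x = q ∧ σ x ≠ x ∧ ∀ y ∈ P.rootSet S, y ≠ x → x * y ≠ q → σ y = y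

theorem SignChange.conj {S : Type*} [Field S] [Algebra ℚ S] {q : ℕ} {P : ℚ[X]} {x : S}
    {σ : S ≃ₐ[ℚ] S} (h : SignChange q P x σ) (τ : S ≃ₐ[ℚ] S) :
    SignChange q P (τ x) (τ * σ * τ⁻¹) := by
  have e1 : ∀ y, (τ * σ * τ⁻¹ : S ≃ₐ[ℚ] S) (τ y) = τ (σ y) := by
    intro y
    simp only [AlgEquiv.mul_apply]
    congr 2
    exact τ.symm_apply_apply y
  refine ⟨?_, ?_, ?_⟩
  · rw [e1, ← map_mul, h.1, map_natCast]
  · rw [e1]
    intro h'
    exact h.2.1 (τ.injective h')
  · intro y hy hyx hxy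
    obtain ⟨z, rfl⟩ := τ.surjective y
    rw [e1]
    congr 1
    refine h.2.2 z ?_ ?_ ?_
    · rw [mem_rootSet] at hy ⊢
      refine ⟨hy.1, τ.injective ?_⟩
      change (τ : S →ₐ[ℚ] S) _ = _
      rw [map_zero, ← aeval_algHom_apply]
      exact hy.2
    · rintro rfl; exact hyx rfl
    · intro h'
      apply hxy
      rw [← map_mul, h', map_natCast]

/-- If the Galois group contains all sign changes and no root is `√q` times a root of unity, all
Tate classes are generated in degree two. -/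
theorem tate_of_signChange {q : ℕ} {P : ℚ[X]} (hP : P.Separable) (hq : q ≠ 0)
    (hW : ∀ z : ℂ, aeval z P = 0 → ‖z‖ ^ 2 = q)
    {S : Type*} [Field S] [Algebra ℚ S] [IsSplittingField ℚ S P]
    (hT : ∀ x ∈ P.rootSet S, ∃ σ, SignChange q P x σ)
    (hNU : ∀ x ∈ P.rootSet S, ∀ n : ℕ, n ≠ 0 → x ^ (2 * n) ≠ (q : S) ^ n)
    {K : Type*} [Field K] [CharZero K] {H : Type*} [AddCommGroup H] [Module K H]
    (F : Module.End K H) (hF : aeval F (P.map (algebraMap ℚ K)) = 0)
    (m : ℕ) (hm : m ≠ 0) (j : ℕ) (ω : ExteriorAlgebra K H) (hω : ω ∈ ⋀[K]^(2 * j) H)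
    (hω2 : ExteriorAlgebra.map (F ^ m) ω = (q : K) ^ (m * j) • ω) :
    ω ∈ Algebra.adjoin K {η | η ∈ ⋀[K]^2 H ∧ ExteriorAlgebra.map F η = (q : K) • η} := by
  classical
  let i : S →ₐ[ℚ] ℂ := IsSplittingField.lift S P (IsAlgClosed.splits _)
  have hP0 : P ≠ 0 := hP.ne_zero
  have hne : ∀ x : P.rootSet S, (x : S) ≠ 0 := fun x => root_ne_zero hq hW i x.2
  obtain ⟨bar, hbar, hmul, hcomm⟩ := exists_bar hP0 hq hW i
  have hchar : CharZero S := charZero_of_injective_algebraMap (algebraMap ℚ S).injective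
  have hσ : ∀ x : P.rootSet S, ∃ σ : S ≃ₐ[ℚ] S, σ • x = bar x ∧ bar x ≠ x ∧
      ∀ y, y ≠ x → y ≠ bar x → σ • y = y := by
    intro x
    obtain ⟨σ, h1, h2, h3⟩ := hT x x.2
    have h4 : σ • x = bar x := by
      apply Subtype.ext
      change σ (x : S) = _
      apply mul_left_cancel₀ (hne x)
      rw [h1, hmul]
    refine ⟨σ, h4, ?_, ?_⟩
    · intro h5
      apply h2
      change ((σ • x : P.rootSet S) : S) = x
      rw [h4, h5]
    · intro y hy hy2
      apply Subtype.ext
      change σ (y : S) = y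
      apply h3 y y.2
      · intro h; exact hy (Subtype.ext h)
      · intro h
        apply hy2
        apply Subtype.ext
        apply mul_left_cancel₀ (hne x)
        rw [h, hmul]
  have hfix : ∀ x, bar x ≠ x := fun x => by
    obtain ⟨σ, _, h, _⟩ := hσ x
    exact h
  refine tate_of_relations_sep hP q bar hbar hfix hmul m j ?_ F hF ω hω hω2
  intro d hd hrel x
  obtain ⟨σ, h1, h2, h3⟩ := hσ x
  have h4 : σ • bar x = x := by rw [hcomm, h1, hbar]
  -- apply `σ` to the relation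
  have h5 : (∏ y : P.rootSet S, ((σ • y : P.rootSet S) : S) ^ (d y)) ^ m = (q : S) ^ (m * j) := by
    have h6 := congrArg (fun z => σ z) hrel
    simp only [map_pow, map_prod, map_natCast] at h6
    exact h6
  -- split off the two factors
  have hsplit : ∀ f : P.rootSet S → S, ∏ y, f y = f x * (f (bar x) *
      ∏ y ∈ (Finset.univ.erase x).erase (bar x), f y) := by
    intro f
    rw [Finset.mul_prod_erase (Finset.univ.erase x) f
      (Finset.mem_erase.2 ⟨h2, Finset.mem_univ _⟩), Finset.mul_prod_erase _ f (Finset.mem_univ x)]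
  set R : S := ∏ y ∈ (Finset.univ.erase x).erase (bar x), (y : S) ^ (d y) with hR
  have hR' : ∏ y ∈ (Finset.univ.erase x).erase (bar x), ((σ • y : P.rootSet S) : S) ^ (d y)
      = R := by
    refine Finset.prod_congr rfl fun y hy => ?_
    rw [Finset.mem_erase, Finset.mem_erase] at hy
    rw [h3 y hy.2.1 hy.1]
  have hR0 : R ≠ 0 := Finset.prod_ne_zero_iff.2 fun y _ => pow_ne_zero _ (hne y)
  rw [hsplit, hR', h1, h4] at h5
  rw [hsplit, ← hR, ← h5] at hrel
  -- `(x ^ a * y ^ b) ^ m = (y ^ a * x ^ b) ^ m`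
  have h7 : ((x : S) ^ (d x) * (bar x : S) ^ (d (bar x))) ^ m =
      ((bar x : S) ^ (d x) * (x : S) ^ (d (bar x))) ^ m := by
    have h8 : R ^ m ≠ 0 := pow_ne_zero _ hR0
    apply mul_right_cancel₀ h8
    rw [← mul_pow, ← mul_pow, mul_assoc, mul_assoc, hrel]
  -- multiply by powers of `x` to get a relation with `q`
  have hx0 := hne x
  have hq0 : (q : S) ≠ 0 := by exact_mod_cast hq
  have hb : (bar x : S) = q / x := by rw [eq_div_iff hx0, mul_comm, hmul]
  rcases lt_trichotomy (d x) (d (bar x)) with hlt | heq | hgt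
  · exfalso
    obtain ⟨n, hn⟩ := Nat.exists_eq_add_of_lt hlt
    apply hNU x x.2 (m * (n + 1)) (Nat.mul_ne_zero hm (Nat.succ_ne_zero n))
    rw [hb, hn] at h7
    have h9 : (x : S) ^ (d x) * ((q : S) / x) ^ (d x + n + 1) =
        ((q : S) ^ (d x)) * ((q : S) / x) ^ (n + 1) := by
      rw [add_assoc, pow_add _ (d x) (n + 1), ← mul_assoc, ← mul_pow, mul_div_cancel₀ _ hx0]
    have h10 : ((q : S) / x) ^ (d x) * (x : S) ^ (d x + n + 1) =
        ((q : S) ^ (d x)) * (x : S) ^ (n + 1) := by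
      rw [add_assoc, pow_add _ (d x) (n + 1), ← mul_assoc, ← mul_pow, div_mul_cancel₀ _ hx0]
    rw [h9, h10, mul_pow, mul_pow] at h7
    have h11 := mul_left_cancel₀ (pow_ne_zero m (pow_ne_zero _ hq0)) h7
    rw [← pow_mul, ← pow_mul, div_pow, div_eq_iff (pow_ne_zero _ hx0), ← pow_add] at h11
    rw [mul_comm m (n + 1), h11]
    congr 1
    ring
  · exact heq
  · exfalso
    obtain ⟨n, hn⟩ := Nat.exists_eq_add_of_lt hgt
    apply hNU x x.2 (m * (n + 1)) (Nat.mul_ne_zero hm (Nat.succ_ne_zero n))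
    rw [hb, hn] at h7
    have h9 : (x : S) ^ (d (bar x) + n + 1) * ((q : S) / x) ^ (d (bar x)) =
        ((q : S) ^ (d (bar x))) * (x : S) ^ (n + 1) := by
      rw [add_assoc, pow_add _ (d (bar x)) (n + 1), mul_right_comm, ← mul_pow,
        mul_div_cancel₀ _ hx0]
    have h10 : ((q : S) / x) ^ (d (bar x) + n + 1) * (x : S) ^ (d (bar x)) =
        ((q : S) ^ (d (bar x))) * ((q : S) / x) ^ (n + 1) := by
      rw [add_assoc, pow_add _ (d (bar x)) (n + 1), mul_right_comm, ← mul_pow,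
        div_mul_cancel₀ _ hx0]
    rw [h9, h10, mul_pow, mul_pow] at h7
    have h11 := (mul_left_cancel₀ (pow_ne_zero m (pow_ne_zero _ hq0)) h7).symm
    rw [← pow_mul, ← pow_mul, div_pow, div_eq_iff (pow_ne_zero _ hx0), ← pow_add] at h11
    rw [mul_comm m (n + 1), h11]
    congr 1
    ring

end Pool.Agent.Lib.MP_021685_agD
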