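import Mathlib
import Pool.Agent.Lib.MP_021685_agD.Rel

/-!
# Roots of unity and several irreducible factors
-/

set_option autoImplicit false

open Polynomial Pool.Agent.Lib.MP_021685_ag

open scoped TensorProduct

namespace Pool.Agent.Lib.MP_021685_agD

/-- A root with a sign change and a conjugate in another pair is not `√q` times a root of
unity. -/
theorem notUnity_of_signChange {S : Type*} [Field S] [Algebra ℚ S] {q : ℕ} (hq : q ≠ 0)
    {P : ℚ[X]} {x y : S} (hx : x ≠ 0) {σ τ : S ≃ₐ[ℚ] S} (hσ : SignChange q P x σ)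
    (hy : y ∈ P.rootSet S) (hyx : y ≠ x) (hxy : x * y ≠ q) (hτ : τ x = y)
    (n : ℕ) (hn : n ≠ 0) : x ^ (2 * n) ≠ (q : S) ^ n := by
  intro h
  have hchar : CharZero S := charZero_of_injective_algebraMap (algebraMap ℚ S).injective
  have hq0 : (q : S) ≠ 0 := by exact_mod_cast hq
  set ζ : S := x ^ 2 / q with hζ
  have hζn : ζ ^ n = 1 := by
    rw [hζ, div_pow, ← pow_mul, h, div_self (pow_ne_zero _ hq0)]
  have hpos : 0 < orderOf ζ := orderOf_pos_iff.2 (isOfFinOrder_iff_pow_eq_one.2 ⟨n, hn.bot_lt, hζn⟩)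
  have hprim : IsPrimitiveRoot ζ (orderOf ζ) := IsPrimitiveRoot.orderOf ζ
  have hprim' : IsPrimitiveRoot (τ ζ) (orderOf ζ) := hprim.map_of_injective τ.injective
  have : NeZero (orderOf ζ) := ⟨hpos.ne'⟩
  obtain ⟨i, -, hi⟩ := hprim'.eq_pow_of_pow_eq_one (pow_orderOf_eq_one ζ)
  have h1 : τ ζ = y ^ 2 / q := by
    rw [hζ, map_div₀, map_pow, hτ, map_natCast]
  have h2 : σ (τ ζ) = τ ζ := by
    rw [h1, map_div₀, map_pow, map_natCast, hσ.2.2 y hy hyx hxy]
  have h3 : σ ζ = ζ := by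
    rw [← hi, map_pow, h2]
  have h4 : ζ * σ ζ = 1 := by
    rw [hζ, map_div₀, map_pow, map_natCast, div_mul_div_comm, ← mul_pow, hσ.1, pow_two,
      div_self (mul_ne_zero hq0 hq0)]
  rw [h3] at h4
  rcases mul_self_eq_one_iff.1 h4 with h5 | h5
  · rw [hζ, div_eq_one_iff_eq hq0] at h5
    apply hσ.2.1
    apply mul_left_cancel₀ hx
    rw [hσ.1, ← h5, pow_two]
  · have h6 : x ^ 2 = - q := by
      rw [hζ, div_eq_iff hq0] at h5
      rw [h5, neg_one_mul]
    have h7 : y ^ 2 = - q := by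
      rw [← hτ, ← map_pow, h6, map_neg, map_natCast]
    rcases sq_eq_sq_iff_eq_or_eq_neg.1 (h7.trans h6.symm) with h8 | h8
    · exact hyx h8
    · apply hxy
      rw [h8, mul_neg, ← pow_two, h6, neg_neg]

/-- The quadratic case. -/
theorem notUnity_quadratic {S : Type*} [Field S] [Algebra ℚ S] {q : ℕ} (hq : q ≠ 0) {x : S}
    (hx : x ≠ 0) {a : ℤ} (ha : x ^ 2 - a * x + q = 0) (ha4 : a ^ 2 ≤ 4 * q)
    (hk : ∀ k : ℕ, k ≤ 4 → a ^ 2 ≠ k * q)
    (n : ℕ) (hn : n ≠ 0) : x ^ (2 * n) ≠ (q : S) ^ n := by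
  intro h
  have hchar : CharZero S := charZero_of_injective_algebraMap (algebraMap ℚ S).injective
  have hq0 : (q : S) ≠ 0 := by exact_mod_cast hq
  set ζ : S := x ^ 2 / q with hζ
  have hζn : ζ ^ n = 1 := by
    rw [hζ, div_pow, ← pow_mul, h, div_self (pow_ne_zero _ hq0)]
  have hζ0 : ζ ≠ 0 := by
    intro h0
    rw [h0, zero_pow hn] at hζn
    exact zero_ne_one hζn
  have h1 : IsIntegral ℤ ζ := IsIntegral.of_pow hn.bot_lt (by rw [hζn]; exact isIntegral_one)
  have h2 : IsIntegral ℤ ζ⁻¹ := IsIntegral.of_pow hn.bot_lt (by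
    rw [inv_pow, hζn, inv_one]; exact isIntegral_one)
  have h3 : (a : S) ^ 2 / q = ζ + 2 + ζ⁻¹ := by
    have h4 : (a : S) = x + q / x := by
      field_simp
      linear_combination (-1 : S) * ha
    rw [hζ, h4]
    field_simp
    ring
  have h5 : IsIntegral ℤ (algebraMap ℚ S ((a : ℚ) ^ 2 / q)) := by
    rw [map_div₀, map_pow, map_intCast, map_natCast, h3]
    exact (h1.add (by simpa using (isIntegral_natCast (R := ℤ) (B := S) (a := 2)))).add h2
  rw [isIntegral_algebraMap_iff (algebraMap ℚ S).injective, IsIntegrallyClosed.isIntegral_iff] at h5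
  obtain ⟨k, hk'⟩ := h5
  have hqQ : (q : ℚ) ≠ 0 := by exact_mod_cast hq
  rw [eq_div_iff hqQ] at hk'
  have h6 : k * q = a ^ 2 := by
    have : ((k * q : ℤ) : ℚ) = ((a ^ 2 : ℤ) : ℚ) := by
      push_cast
      rw [← hk']; rfl
    exact_mod_cast this
  have hqZ : (0 : ℤ) < q := by exact_mod_cast hq.bot_lt
  have h7 : 0 ≤ k := by
    by_contra hcon
    push Not at hcon
    have := mul_neg_of_neg_of_pos hcon hqZ
    rw [h6] at this
    exact absurd this (not_lt.2 (sq_nonneg a))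
  have h8 : k ≤ 4 := by
    by_contra hcon
    push Not at hcon
    have : (4 : ℤ) * q < k * q := mul_lt_mul_of_pos_right hcon hqZ
    rw [h6] at this
    omega
  lift k to ℕ using h7
  exact hk k (by exact_mod_cast h8) h6.symm

end Pool.Agent.Lib.MP_021685_agD
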