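import Mathlib
import Pool.Agent.Lib.MP_021685_agD.Rel2
import Pool.Agent.Lib.MP_021685_agD.Quad

/-!
# A sign change from the factorisation modulo a prime
-/

set_option autoImplicit false

open Polynomial NumberField Pool.Agent.Lib.MP_021685_ag

namespace Pool.Agent.Lib.MP_021685_agD

/-- Existence of a Frobenius automorphism. -/
theorem exists_frob.{u} (S : Type u) [Field S] [NumberField S] [IsGalois ℚ S] (l : ℕ)
    [hl : Fact l.Prime] : ∃ (k : Type u) (_ : Field k) (_ : CharP k l) (φ : 𝓞 S →+* k)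
      (σ : S ≃ₐ[ℚ] S), ∀ x : 𝓞 S, φ (σ • x) = φ x ^ l := by
  classical
  have hmax : (Ideal.span {(l : ℤ)}).IsMaximal := by
    have h1 : Prime (l : ℤ) := Nat.prime_iff_prime_int.1 hl.out
    exact PrincipalIdealRing.isMaximal_of_irreducible h1.irreducible
  obtain ⟨Q, hQ, hQl⟩ := Ideal.exists_maximal_ideal_liesOver_of_isIntegral (S := 𝓞 S)
    (Ideal.span {(l : ℤ)})
  obtain ⟨σ, hσ⟩ := IsArithFrobAt.exists_of_isInvariant ℤ (S ≃ₐ[ℚ] S) Q
  have hcard : Nat.card (ℤ ⧸ Q.under ℤ) = l := by
    rw [← hQl.over, Nat.card_congr (Int.quotientSpanNatEquivZMod l).toEquiv, Nat.card_zmod]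
  refine ⟨𝓞 S ⧸ Q, Ideal.Quotient.field Q, ?_, Ideal.Quotient.mk Q, σ, ?_⟩
  · have h2 : ((l : ℕ) : 𝓞 S ⧸ Q) = 0 := by
      have h3 : (l : 𝓞 S) ∈ Q := by
        have h4 : (l : ℤ) ∈ Q.under ℤ := by
          rw [← hQl.over]
          exact Ideal.mem_span_singleton_self _
        simpa [Ideal.under] using h4
      have h5 := Ideal.Quotient.eq_zero_iff_mem.2 h3
      simpa using h5
    have : Nontrivial (𝓞 S ⧸ Q) := Ideal.Quotient.nontrivial_iff.2 hQ.ne_top
    exact (CharP.charP_iff_prime_eq_zero hl.out).2 h2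
  · intro x
    have h1 := hσ x
    rw [hcard] at h1
    rw [← map_pow, Ideal.Quotient.eq]
    exact h1

theorem eq_of_map_eq {R k : Type*} [CommRing R] [IsDomain R] [Field k] (φ : R →+* k) (P : R[X])
    (hsq : Squarefree (P.map φ)) {x y : R} (hx : P.eval x = 0) (hy : P.eval y = 0)
    (h : φ x = φ y) : x = y := by
  by_contra hxy
  obtain ⟨Q, rfl⟩ := dvd_iff_isRoot.2 hx
  rw [eval_mul, eval_sub, eval_X, eval_C] at hy
  have h1 : Q.eval y = 0 := (mul_eq_zero.1 hy).resolve_left (sub_ne_zero.2 (Ne.symm hxy))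
  obtain ⟨Q', rfl⟩ := dvd_iff_isRoot.2 h1
  have h2 := hsq (X - C (φ x)) ⟨Q'.map φ, by
    simp only [Polynomial.map_mul, Polynomial.map_sub, map_X, map_C, h]
    ring⟩
  exact not_isUnit_X_sub_C (φ x) h2

/-- The product of the reductions. -/
theorem prod_map_eq {ι : Type*} [Fintype ι] [DecidableEq ι] {q : ℕ} (P : ι → ℤ[X]) {l : ℕ}
    (T : ι → Finset (ZMod l))
    (hPT : ∀ i, (P i).map (Int.castRingHom (ZMod l)) = ∏ t ∈ T i, quad q t)
    (hdisj : ∀ i j, i ≠ j → Disjoint (T i) (T j)) :
    (∏ i, P i).map (Int.castRingHom (ZMod l)) = ∏ t ∈ Finset.univ.biUnion T, quad q t := by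
  rw [Polynomial.map_prod, Finset.prod_biUnion]
  · exact Finset.prod_congr rfl fun i _ => hPT i
  · intro i _ j _ hij
    exact hdisj i j hij

theorem map_prod_squarefree {ι : Type*} [Fintype ι] [DecidableEq ι] {q : ℕ} (P : ι → ℤ[X])
    {l : ℕ} [hl : Fact l.Prime] (hql : ¬ l ∣ q)
    (T : ι → Finset (ZMod l))
    (hPT : ∀ i, (P i).map (Int.castRingHom (ZMod l)) = ∏ t ∈ T i, quad q t)
    (hdisj : ∀ i j, i ≠ j → Disjoint (T i) (T j))
    (hT : ∀ i, ∀ t ∈ T i, t ^ 2 - 4 * (q : ZMod l) ≠ 0)
    {k : Type*} [Field k] (f : ZMod l →+* k) :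
    Squarefree ((∏ i, P i).map (Int.castRingHom k)) := by
  have h1 : (∏ i, P i).map (Int.castRingHom k) =
      ((∏ i, P i).map (Int.castRingHom (ZMod l))).map f := by
    rw [Polynomial.map_map]
    congr 1
    exact Subsingleton.elim _ _
  rw [h1]
  apply Separable.squarefree
  apply Separable.map
  rw [prod_map_eq P T hPT hdisj]
  apply prod_quad_separable
  · rwa [Ne, ZMod.natCast_eq_zero_iff]
  · intro t ht
    obtain ⟨i, -, hi⟩ := Finset.mem_biUnion.1 ht
    exact hT i t hi

/-- A monic integer polynomial with squarefree reduction is separable. -/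
theorem separable_of_squarefree_map {R : ℤ[X]} (hRmon : R.Monic) {k : Type*} [Field k]
    (hsq : Squarefree (R.map (Int.castRingHom k))) : (R.map (Int.castRingHom ℚ)).Separable := by
  have hne : R.map (Int.castRingHom ℚ) ≠ 0 := (hRmon.map _).ne_zero
  rw [PerfectField.separable_iff_squarefree, squarefree_iff_no_irreducibles hne]
  intro p hp hpp
  obtain ⟨g, hg⟩ := IsIntegrallyClosed.eq_map_mul_C_of_dvd ℚ hRmon
    (dvd_trans (dvd_mul_right p p) hpp)
  have hlc : p.leadingCoeff ≠ 0 := leadingCoeff_ne_zero.2 hp.ne_zero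
  have hinj : Function.Injective (Int.castRingHom ℚ) := Int.cast_injective
  have hg' : g.map (Int.castRingHom ℚ) = p * C (p.leadingCoeff)⁻¹ := by
    have h1 : g.map (Int.castRingHom ℚ) * C (p.leadingCoeff) = p := hg
    calc g.map (Int.castRingHom ℚ) = g.map (Int.castRingHom ℚ) *
          (C (p.leadingCoeff) * C (p.leadingCoeff)⁻¹) := by
            rw [← C_mul, mul_inv_cancel₀ hlc, C_1, mul_one]
      _ = p * C (p.leadingCoeff)⁻¹ := by rw [← mul_assoc, h1]
  have hgmon : g.Monic := by
    apply monic_of_injective hinj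
    rw [hg', Monic, leadingCoeff_mul, leadingCoeff_C, mul_inv_cancel₀ hlc]
  have hgg : g * g ∣ R := by
    rw [← map_dvd_map (Int.castRingHom ℚ) hinj (hgmon.mul hgmon), Polynomial.map_mul, hg']
    refine dvd_trans ?_ hpp
    have hu : IsUnit (C (p.leadingCoeff)⁻¹ : ℚ[X]) := isUnit_C.2 (inv_ne_zero hlc).isUnit
    rw [mul_mul_mul_comm]
    exact (hu.mul hu).mul_right_dvd.2 dvd_rfl
  have h2 : IsUnit (g.map (Int.castRingHom k)) := by
    apply hsq
    rw [← Polynomial.map_mul]
    exact Polynomial.map_dvd _ hgg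
  have h3 : g = 1 := by
    have h4 := (hgmon.map (Int.castRingHom k)).isUnit_iff.1 h2
    have h5 : (g.map (Int.castRingHom k)).natDegree = g.natDegree := hgmon.natDegree_map _
    rw [h4, natDegree_one] at h5
    exact hgmon.natDegree_eq_zero.1 h5.symm
  apply hp.not_isUnit
  have h1 : g.map (Int.castRingHom ℚ) * C (p.leadingCoeff) = p := hg
  rw [← h1, h3, Polynomial.map_one, one_mul]
  exact isUnit_C.2 hlc.isUnit

/-- A prime at which the reduction has exactly one irreducible quadratic factor, and otherwise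
splits, gives a sign change in the Galois group. -/
theorem exists_signChange {ι : Type*} [Fintype ι] [DecidableEq ι] {q : ℕ} (hq : q ≠ 0)
    (P : ι → ℤ[X]) (hmon : ∀ i, (P i).Monic)
    {l : ℕ} [hl : Fact l.Prime] (hl2 : l ≠ 2) (hql : ¬ l ∣ q)
    (T : ι → Finset (ZMod l))
    (hPT : ∀ i, (P i).map (Int.castRingHom (ZMod l)) = ∏ t ∈ T i, quad q t)
    (hdisj : ∀ i j, i ≠ j → Disjoint (T i) (T j))
    (hT : ∀ i, ∀ t ∈ T i, t ^ 2 - 4 * (q : ZMod l) ≠ 0)
    (i₀ : ι) (t₀ : ZMod l) (ht₀ : t₀ ∈ T i₀) (hns : ¬ IsSquare (t₀ ^ 2 - 4 * (q : ZMod l)))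
    (hS : ∀ i, ∀ t ∈ T i, t ≠ t₀ → IsSquare (t ^ 2 - 4 * (q : ZMod l)))
    (S : Type*) [Field S] [NumberField S] [IsGalois ℚ S]
    (hsplit : ((P i₀).map (Int.castRingHom S)).Splits)
    (hbar : ∀ x : S, (∃ i, aeval x (P i) = 0) → ∃ i, aeval ((q : S) / x) (P i) = 0) :
    ∃ x : S, aeval x (P i₀) = 0 ∧ ∃ σ : S ≃ₐ[ℚ] S, x * σ x = q ∧ σ x ≠ x ∧
      ∀ y : S, (∃ i, aeval y (P i) = 0) → y ≠ x → x * y ≠ q → σ y = y := by
  classical
  obtain ⟨k, _, _, φ, σ, hσ⟩ := exists_frob S l
  set f := ZMod.castHom (dvd_refl l) k with hf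
  have hqS : (q : S) ≠ 0 := by exact_mod_cast hq
  have hqk : (q : k) ≠ 0 := by
    intro h
    apply hql
    rw [← ZMod.natCast_eq_zero_iff]
    apply f.injective
    rw [map_natCast, h, map_zero]
  set R := ∏ i, P i with hR
  have hsq : Squarefree (R.map (Int.castRingHom k)) :=
    map_prod_squarefree P hql T hPT hdisj hT f
  have hRO : (R.map (Int.castRingHom (𝓞 S))).map φ = R.map (Int.castRingHom k) := by
    rw [Polynomial.map_map]
    congr 1
    exact Subsingleton.elim _ _
  -- the roots of `R` are integral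
  have hint : ∀ x : S, (∃ i, aeval x (P i) = 0) → ∃ x' : 𝓞 S, (x' : S) = x ∧
      (R.map (Int.castRingHom (𝓞 S))).eval x' = 0 := by
    rintro x ⟨i, hi⟩
    have h1 : IsIntegral ℤ x := ⟨P i, hmon i, hi⟩
    obtain ⟨x', rfl⟩ : ∃ x' : 𝓞 S, (x' : S) = x := ⟨⟨x, h1⟩, rfl⟩
    refine ⟨x', rfl, ?_⟩
    apply RingOfIntegers.coe_injective
    rw [map_zero, eval_map, hom_eval₂]
    have h2 : (algebraMap (𝓞 S) S).comp (Int.castRingHom (𝓞 S)) = algebraMap ℤ S :=
      Subsingleton.elim _ _
    rw [h2]
    change aeval (x' : S) R = 0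
    rw [hR, map_prod]
    exact Finset.prod_eq_zero (Finset.mem_univ i) hi
  have hinj : ∀ x y : 𝓞 S, (R.map (Int.castRingHom (𝓞 S))).eval x = 0 →
      (R.map (Int.castRingHom (𝓞 S))).eval y = 0 → φ x = φ y → x = y := by
    intro x y hx hy h
    exact eq_of_map_eq φ _ (by rw [hRO]; exact hsq) hx hy h
  -- the reduction of a root is a root of one of the quadratic polynomials
  have hred : ∀ x : 𝓞 S, (R.map (Int.castRingHom (𝓞 S))).eval x = 0 →
      ∃ i, ∃ t ∈ T i, (φ x) ^ 2 - f t * φ x + q = 0 := by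
    intro x hx
    have h1 : (R.map (Int.castRingHom k)).eval (φ x) = 0 := by
      rw [← hRO, eval_map, eval₂_at_apply, hx, map_zero]
    have h2 : R.map (Int.castRingHom k) = ∏ t ∈ Finset.univ.biUnion T, quad q (f t) := by
      have h3 : R.map (Int.castRingHom k) = (R.map (Int.castRingHom (ZMod l))).map f := by
        rw [Polynomial.map_map]
        congr 1
        exact Subsingleton.elim _ _
      rw [h3, hR, prod_map_eq P T hPT hdisj, Polynomial.map_prod]
      exact Finset.prod_congr rfl fun t _ => quad_map f q t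
    rw [h2, eval_prod, Finset.prod_eq_zero_iff] at h1
    obtain ⟨t, ht, h3⟩ := h1
    obtain ⟨i, -, hi⟩ := Finset.mem_biUnion.1 ht
    exact ⟨i, t, hi, by rw [quad_eval] at h3; exact h3⟩
  -- a root of `P i₀` reducing to a root of the irreducible quadratic polynomial
  obtain ⟨x, hx, hx0⟩ : ∃ x : 𝓞 S, aeval (x : S) (P i₀) = 0 ∧
      (φ x) ^ 2 - f t₀ * φ x + q = 0 := by
    by_contra hcon
    push Not at hcon
    have hmonO : ((P i₀).map (Int.castRingHom (𝓞 S))).Monic := (hmon i₀).map _
    have hmonS : ((P i₀).map (Int.castRingHom S)).Monic := (hmon i₀).map _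
    -- the factorisation over the ring of integers
    have h1 : ∃ s : Multiset (𝓞 S), (P i₀).map (Int.castRingHom (𝓞 S)) =
        (s.map fun a => X - C a).prod := by
      have h2 : ∀ a ∈ ((P i₀).map (Int.castRingHom S)).roots, IsIntegral ℤ a := by
        intro a ha
        refine ⟨P i₀, hmon i₀, ?_⟩
        have h3 := (mem_roots (hmonS.ne_zero)).1 ha
        rw [IsRoot.def, eval_map] at h3
        exact h3
      let g : {a // a ∈ ((P i₀).map (Int.castRingHom S)).roots} → 𝓞 S :=
        fun a => ⟨a.1, h2 a.1 a.2⟩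
      refine ⟨((P i₀).map (Int.castRingHom S)).roots.attach.map g, ?_⟩
      apply map_injective (algebraMap (𝓞 S) S) RingOfIntegers.coe_injective
      rw [Polynomial.map_map, Polynomial.map_multiset_prod, Multiset.map_map]
      have h4 : (algebraMap (𝓞 S) S).comp (Int.castRingHom (𝓞 S)) = Int.castRingHom S :=
        Subsingleton.elim _ _
      rw [h4, Multiset.map_map]
      have h5 : (Multiset.map ((map (algebraMap (𝓞 S) S) ∘ fun a => X - C a) ∘ g)
          ((P i₀).map (Int.castRingHom S)).roots.attach) =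
          ((P i₀).map (Int.castRingHom S)).roots.map fun a => X - C a := by
        conv_rhs => rw [← Multiset.attach_map_val ((P i₀).map (Int.castRingHom S)).roots]
        rw [Multiset.map_map]
        apply Multiset.map_congr rfl
        intro a _
        simp only [Function.comp_apply, Polynomial.map_sub, map_X, map_C]
        rfl
      rw [h5]
      have h6 := hsplit.eq_prod_roots
      rw [hmonS.leadingCoeff, C_1, one_mul] at h6
      exact h6
    obtain ⟨s, hs⟩ := h1
    have hs2 : ∀ a ∈ s, aeval (a : S) (P i₀) = 0 := by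
      intro a ha
      have h2 : ((P i₀).map (Int.castRingHom (𝓞 S))).eval a = 0 := by
        rw [hs, eval_multiset_prod, Multiset.map_map]
        apply Multiset.prod_eq_zero
        rw [Multiset.mem_map]
        exact ⟨a, ha, by simp⟩
      have h3 := congrArg (algebraMap (𝓞 S) S) h2
      rw [map_zero, eval_map, hom_eval₂] at h3
      have h4 : (algebraMap (𝓞 S) S).comp (Int.castRingHom (𝓞 S)) = algebraMap ℤ S :=
        Subsingleton.elim _ _
      rw [h4] at h3
      exact h3
    -- reduce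
    have h2 : (P i₀).map (Int.castRingHom k) = (s.map fun a => X - C (φ a)).prod := by
      have h3 : (P i₀).map (Int.castRingHom k) =
          ((P i₀).map (Int.castRingHom (𝓞 S))).map φ := by
        rw [Polynomial.map_map]
        congr 1
        exact Subsingleton.elim _ _
      rw [h3, hs, Polynomial.map_multiset_prod, Multiset.map_map]
      congr 1
      apply Multiset.map_congr rfl
      intro a _
      simp
    have h3 : quad q (f t₀) ∣ (P i₀).map (Int.castRingHom k) := by
      have h4 : (P i₀).map (Int.castRingHom k) = ((P i₀).map (Int.castRingHom (ZMod l))).map f := by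
        rw [Polynomial.map_map]
        congr 1
        exact Subsingleton.elim _ _
      rw [h4, hPT i₀, Polynomial.map_prod]
      have h5 := Finset.dvd_prod_of_mem (fun t => (quad q t).map f) ht₀
      rw [quad_map] at h5
      exact h5
    have h4 : ∀ s' : Multiset (𝓞 S), (∀ a ∈ s', aeval (a : S) (P i₀) = 0) →
        IsCoprime (quad q (f t₀)) (s'.map fun a => X - C (φ a)).prod := by
      intro s'
      induction s' using Multiset.induction_on with
      | empty => intro _; simpa using isCoprime_one_right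
      | cons a s' ih =>
        intro h
        rw [Multiset.map_cons, Multiset.prod_cons]
        apply IsCoprime.mul_right
        · rw [isCoprime_comm]
          apply (irreducible_X_sub_C (φ a)).coprime_iff_not_dvd.2 
          intro hdvd
          rw [dvd_iff_isRoot, IsRoot.def, quad_eval] at hdvd
          exact hcon a (h a (Multiset.mem_cons_self a s')) hdvd
        · exact ih fun b hb => h b (Multiset.mem_cons_of_mem hb)
    have h5 := h4 s hs2
    rw [← h2] at h5
    have h6 := h5.isUnit_of_dvd' dvd_rfl h3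
    have h7 := (quad_monic q (f t₀)).isUnit_iff.1 h6
    have h8 := quad_natDegree q (f t₀)
    rw [h7, natDegree_one] at h8
    exact absurd h8 (by norm_num)
  have hRx : (R.map (Int.castRingHom (𝓞 S))).eval x = 0 := by
    obtain ⟨x', hx', h⟩ := hint x ⟨i₀, hx⟩
    have : x' = x := RingOfIntegers.coe_injective hx'
    rwa [this] at h
  obtain ⟨hfr1, hfr2⟩ := frob_root hns hx0
  have hφx : φ x ≠ 0 := by
    intro h
    rw [h, zero_mul] at hfr2
    exact hqk hfr2.symm
  have hx0S : (x : S) ≠ 0 := by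
    intro h
    apply hφx
    have : x = 0 := RingOfIntegers.coe_injective (by rw [map_zero]; exact h)
    rw [this, map_zero]
  have hσcoe : ∀ y : 𝓞 S, ((σ • y : 𝓞 S) : S) = σ (y : S) := fun y => rfl
  have hRσ : ∀ y : S, (∃ i, aeval y (P i) = 0) → ∃ i, aeval (σ y) (P i) = 0 := by
    rintro y ⟨i, hi⟩
    refine ⟨i, ?_⟩
    have h1 : aeval (σ y) (P i) = σ (aeval y (P i)) := by
      rw [aeval_def, aeval_def, ← AlgEquiv.coe_toAlgHom, ← AlgHom.coe_toRingHom, hom_eval₂]
      congr 1
      exact Subsingleton.elim _ _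
    rw [h1, hi, map_zero]
  -- the value of `σ x`
  have hkey : ∀ a b : 𝓞 S, (∃ i, aeval (a : S) (P i) = 0) → (∃ i, aeval (b : S) (P i) = 0) →
      φ a = φ b → a = b := by
    intro a b ha hb h
    obtain ⟨a', ha', ha2⟩ := hint a ha
    obtain ⟨b', hb', hb2⟩ := hint b hb
    have e1 : a' = a := RingOfIntegers.coe_injective ha'
    have e2 : b' = b := RingOfIntegers.coe_injective hb'
    rw [e1] at ha2
    rw [e2] at hb2
    exact hinj a b ha2 hb2 h
  have hxσ : (x : S) * σ (x : S) = q := by
    obtain ⟨b, hb, -⟩ := hint ((q : S) / x) (hbar x ⟨i₀, hx⟩)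
    have h1 : x * b = (q : 𝓞 S) := by
      apply RingOfIntegers.coe_injective
      rw [map_mul, map_natCast]
      change (x : S) * (b : S) = q
      rw [hb, mul_div_cancel₀ _ hx0S]
    have h2 : φ b = φ (σ • x) := by
      apply mul_left_cancel₀ hφx
      rw [← map_mul, h1, map_natCast, hσ, hfr2]
    have h3 := hkey b (σ • x) (by rw [hb]; exact hbar x ⟨i₀, hx⟩)
      (by rw [hσcoe]; exact hRσ x ⟨i₀, hx⟩) h2
    rw [← hσcoe, ← h3, hb, mul_div_cancel₀ _ hx0S]
  refine ⟨x, hx, σ, hxσ, ?_, ?_⟩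
  · intro h
    apply hfr1
    rw [← hσ]
    congr 1
    exact RingOfIntegers.coe_injective h
  · intro y hy hyx hxy
    obtain ⟨y', hy', hy2⟩ := hint y hy
    obtain ⟨i, t, ht, h1⟩ := hred y' hy2
    by_cases htt : t = t₀
    · exfalso
      subst htt
      -- `φ y'` is `φ x` or its conjugate
      have h2 : (φ y' - φ x) * (φ y' + φ x - f t) = 0 := by
        linear_combination h1 - hx0
      rcases mul_eq_zero.1 h2 with h3 | h3
      · apply hyx
        have h4 := hkey y' x (by rw [hy']; exact hy) ⟨i₀, hx⟩ (sub_eq_zero.1 h3)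
        rw [← hy', h4]
      · apply hxy
        have h4 : φ x * φ y' = q := by
          linear_combination φ x * h3 - hx0
        have h5 : φ y' = φ (σ • x) := by
          apply mul_left_cancel₀ hφx
          rw [h4, hσ, hfr2]
        have h6 := hkey y' (σ • x) (by rw [hy']; exact hy)
          (by rw [hσcoe]; exact hRσ x ⟨i₀, hx⟩) h5
        rw [← hy', h6, hσcoe, hxσ]
    · have h2 := frob_root' hl2 (hS i t ht htt) h1
      rw [← hσ] at h2
      have h3 := hkey (σ • y') y' (by rw [hσcoe, hy']; exact hRσ y hy) (by rw [hy']; exact hy) h2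
      rw [← hy', ← hσcoe, h3]

end Pool.Agent.Lib.MP_021685_agD
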