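import Mathlib
import Pool.Agent.Lib.MP_021685_agD.Frob

/-!
# A cycle on the pairs of roots from the factorisation modulo a prime
-/

set_option autoImplicit false

open Polynomial NumberField

namespace Pool.Agent.Lib.MP_021685_agD

/-- `P` modulo `l` is the product of the quadratic polynomials attached to the conjugates of an
element of degree `g`. -/
def CycleAt (q g : ℕ) (P : ℤ[X]) (l : ℕ) : Prop :=
  ∃ (K' : Type) (_ : Field K') (_ : Finite K') (_ : Algebra (ZMod l) K') (t : K'),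
    P.map (Int.castRingHom K') = ∏ j ∈ Finset.range g, quad q (t ^ l ^ j) ∧
    t ^ l ^ g = t ∧
    (∀ i j, i < g → j < g → t ^ l ^ i = t ^ l ^ j → i = j) ∧
    (∀ j, j < g → (t ^ l ^ j) ^ 2 - 4 * (q : K') ≠ 0)

theorem exists_cycle {q : ℕ} (hq : q ≠ 0) {g : ℕ} (P : ℤ[X]) (hmon : P.Monic) {l : ℕ}
    [hl : Fact l.Prime] (hql : ¬ l ∣ q) (hc : CycleAt q g P l) (S : Type) [Field S]
    [NumberField S] [IsGalois ℚ S]
    (hbar : ∀ x : S, aeval x P = 0 → aeval ((q : S) / x) P = 0) :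
    ∃ τ : S ≃ₐ[ℚ] S, ∀ x y : S, aeval x P = 0 → aeval y P = 0 →
      ∃ n : ℕ, (τ ^ n) x = y ∨ (τ ^ n) x * y = q := by
  classical
  obtain ⟨K', _, _, _, t, hPt, htg, htinj, htdisc⟩ := hc
  obtain ⟨k, _, _, φ, σ, hσ⟩ := exists_frob S l
  let Ω := AlgebraicClosure k
  have hchar : CharP Ω l := charP_of_injective_algebraMap (algebraMap k Ω).injective l
  let _ : Algebra (ZMod l) Ω := ZMod.algebra Ω l
  have : Module.Finite (ZMod l) K' := Module.Finite.of_finite
  let f' : K' →ₐ[ZMod l] Ω := IsAlgClosed.lift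
  set T : Ω := f' t with hT
  let ψ : 𝓞 S →+* Ω := (algebraMap k Ω).comp φ
  have hψ : ∀ x : 𝓞 S, ψ (σ • x) = ψ x ^ l := by
    intro x
    simp only [ψ, RingHom.comp_apply, hσ, map_pow]
  have hψn : ∀ (n : ℕ) (x : 𝓞 S), ψ ((σ ^ n) • x) = ψ x ^ l ^ n := by
    intro n
    induction n with
    | zero => intro x; simp
    | succ n ih =>
      intro x
      rw [pow_succ', mul_smul, hψ, ih, ← pow_mul, pow_succ]
  have hqΩ : (q : Ω) ≠ 0 := by
    intro h
    exact hql ((CharP.cast_eq_zero_iff Ω l q).1 h)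
  have hqS : (q : S) ≠ 0 := by exact_mod_cast hq
  have hPΩ : P.map (Int.castRingHom Ω) = ∏ j ∈ Finset.range g, quad q (T ^ l ^ j) := by
    have h1 : P.map (Int.castRingHom Ω) = (P.map (Int.castRingHom K')).map (f' : K' →+* Ω) := by
      rw [Polynomial.map_map]
      congr 1
      exact Subsingleton.elim _ _
    rw [h1, hPt, Polynomial.map_prod]
    apply Finset.prod_congr rfl
    intro j _
    rw [quad_map]
    simp [hT]
  have hTg : T ^ l ^ g = T := by rw [hT, ← map_pow, htg]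
  have hTinj : ∀ i j, i < g → j < g → T ^ l ^ i = T ^ l ^ j → i = j := by
    intro i j hi hj h
    rw [hT, ← map_pow, ← map_pow] at h
    exact htinj i j hi hj (f'.injective h)
  have hsq : Squarefree (P.map (Int.castRingHom Ω)) := by
    apply Separable.squarefree
    have h1 : P.map (Int.castRingHom Ω) =
        ∏ u ∈ (Finset.range g).image fun j => T ^ l ^ j, quad q u := by
      rw [hPΩ, Finset.prod_image]
      intro i hi j hj h
      exact hTinj i j (Finset.mem_range.1 hi) (Finset.mem_range.1 hj) h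
    rw [h1]
    apply prod_quad_separable q hqΩ
    intro u hu
    obtain ⟨j, hj, rfl⟩ := Finset.mem_image.1 hu
    intro h
    apply htdisc j (Finset.mem_range.1 hj)
    apply f'.injective
    rw [map_zero, map_sub, map_pow, map_pow, map_mul, map_natCast]
    rw [← h, hT]
    congr 2
    exact map_ofNat f' 4
  have hPO : (P.map (Int.castRingHom (𝓞 S))).map ψ = P.map (Int.castRingHom Ω) := by
    rw [Polynomial.map_map]
    congr 1
    exact Subsingleton.elim _ _
  -- the roots of `P` are integral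
  have hint : ∀ x : S, aeval x P = 0 → ∃ x' : 𝓞 S, (x' : S) = x ∧
      (P.map (Int.castRingHom (𝓞 S))).eval x' = 0 := by
    intro x hi
    have h1 : IsIntegral ℤ x := ⟨P, hmon, hi⟩
    obtain ⟨x', rfl⟩ : ∃ x' : 𝓞 S, (x' : S) = x := ⟨⟨x, h1⟩, rfl⟩
    refine ⟨x', rfl, ?_⟩
    apply RingOfIntegers.coe_injective
    rw [map_zero, eval_map, hom_eval₂]
    have h2 : (algebraMap (𝓞 S) S).comp (Int.castRingHom (𝓞 S)) = algebraMap ℤ S :=
      Subsingleton.elim _ _
    rw [h2]
    exact hi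
  have hkey : ∀ a b : 𝓞 S, aeval (a : S) P = 0 → aeval (b : S) P = 0 → ψ a = ψ b → a = b := by
    intro a b ha hb h
    obtain ⟨a', ha', ha2⟩ := hint a ha
    obtain ⟨b', hb', hb2⟩ := hint b hb
    have e1 : a' = a := RingOfIntegers.coe_injective ha'
    have e2 : b' = b := RingOfIntegers.coe_injective hb'
    rw [e1] at ha2
    rw [e2] at hb2
    exact eq_of_map_eq ψ _ (by rw [hPO]; exact hsq) ha2 hb2 h
  have hred : ∀ x : 𝓞 S, aeval (x : S) P = 0 →
      ∃ j, j < g ∧ (ψ x) ^ 2 - T ^ l ^ j * ψ x + q = 0 := by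
    intro x hx
    obtain ⟨x', hx', hx2⟩ := hint x hx
    have e1 : x' = x := RingOfIntegers.coe_injective hx'
    rw [e1] at hx2
    have h1 : (P.map (Int.castRingHom Ω)).eval (ψ x) = 0 := by
      rw [← hPO, eval_map, eval₂_at_apply, hx2, map_zero]
    rw [hPΩ, eval_prod, Finset.prod_eq_zero_iff] at h1
    obtain ⟨j, hj, h3⟩ := h1
    exact ⟨j, Finset.mem_range.1 hj, by rw [quad_eval] at h3; exact h3⟩
  -- periodicity
  have hTper : ∀ j, T ^ l ^ (j + g) = T ^ l ^ j := by
    intro j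
    rw [pow_add, mul_comm, pow_mul, hTg]
  have hqpow : ∀ n : ℕ, (q : Ω) ^ l ^ n = q := by
    intro n
    induction n with
    | zero => simp
    | succ n ih =>
      rw [pow_succ, pow_mul, ih]
      have h := congrArg (algebraMap (ZMod l) Ω) (ZMod.pow_card (q : ZMod l))
      rwa [map_pow, map_natCast] at h
  have hpow : ∀ (x : Ω) (i n : ℕ), x ^ 2 - T ^ l ^ i * x + q = 0 →
      (x ^ l ^ n) ^ 2 - T ^ l ^ (i + n) * x ^ l ^ n + q = 0 := by
    intro x i n h
    have h1 := congrArg (iterateFrobenius Ω l n) h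
    simp only [map_add, map_sub, map_mul, map_pow, map_zero, iterateFrobenius_def, hqpow] at h1
    rw [add_comm i n, pow_add l n i, pow_mul]
    exact h1
  have hσcoe : ∀ (τ : S ≃ₐ[ℚ] S) (y : 𝓞 S), ((τ • y : 𝓞 S) : S) = τ (y : S) :=
    fun _ _ => rfl
  have hPσ : ∀ (τ : S ≃ₐ[ℚ] S) (y : S), aeval y P = 0 → aeval (τ y) P = 0 := by
    intro τ y hi
    have h1 : aeval (τ y) P = τ (aeval y P) := by
      rw [aeval_def, aeval_def, ← AlgEquiv.coe_toAlgHom, ← AlgHom.coe_toRingHom, hom_eval₂]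
      congr 1
      exact Subsingleton.elim _ _
    rw [h1, hi, map_zero]
  refine ⟨σ, fun x y hx hy => ?_⟩
  obtain ⟨x', rfl, -⟩ := hint x hx
  obtain ⟨y', rfl, -⟩ := hint y hy
  obtain ⟨i, hi, hxi⟩ := hred x' hx
  obtain ⟨j, hj, hyj⟩ := hred y' hy
  obtain ⟨n, hn⟩ : ∃ n, T ^ l ^ (i + n) = T ^ l ^ j := by
    by_cases hij : i ≤ j
    · exact ⟨j - i, by rw [Nat.add_sub_cancel' hij]⟩
    · refine ⟨j + g - i, ?_⟩
      have : i + (j + g - i) = j + g := by omega
      rw [this, hTper]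
  have hz := hpow (ψ x') i n hxi
  rw [hn, ← hψn] at hz
  have hprod : (ψ ((σ ^ n) • x') - ψ y') * (ψ ((σ ^ n) • x') + ψ y' - T ^ l ^ j) = 0 := by
    linear_combination hz - hyj
  refine ⟨n, ?_⟩
  rcases mul_eq_zero.1 hprod with h | h
  · left
    have h1 := hkey ((σ ^ n) • x') y' (by rw [hσcoe]; exact hPσ _ _ hx) hy (sub_eq_zero.1 h)
    rw [← hσcoe, h1]
  · right
    have hzw : ψ ((σ ^ n) • x') * ψ y' = q := by
      linear_combination ψ ((σ ^ n) • x') * h - hz
    have hw : ψ y' ≠ 0 := by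
      intro h0
      rw [h0, mul_zero] at hzw
      exact hqΩ hzw.symm
    have hy0 : (y' : S) ≠ 0 := by
      intro h0
      apply hw
      have : y' = 0 := RingOfIntegers.coe_injective (by rw [map_zero]; exact h0)
      rw [this, map_zero]
    obtain ⟨b, hb, -⟩ := hint ((q : S) / y') (hbar _ hy)
    have h1 : b * y' = (q : 𝓞 S) := by
      apply RingOfIntegers.coe_injective
      rw [map_mul, map_natCast]
      change (b : S) * (y' : S) = q
      rw [hb, div_mul_cancel₀ _ hy0]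
    have h2 : ψ ((σ ^ n) • x') = ψ b := by
      apply mul_right_cancel₀ hw
      rw [hzw, ← map_mul, h1, map_natCast]
    have h3 := hkey ((σ ^ n) • x') b (by rw [hσcoe]; exact hPσ _ _ hx)
      (by rw [hb]; exact hbar _ hy) h2
    rw [← hσcoe, h3, hb, div_mul_cancel₀ _ hy0]

end Pool.Agent.Lib.MP_021685_agD
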