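import Mathlib

/-!
# Weil polynomials and Tate classes on the exterior algebra
-/

set_option autoImplicit false

open Polynomial

namespace Pool.Agent.Lib.MP_021685_agD

/-- The `q`-Weil polynomials of degree `2 g`: monic integer polynomials of degree `2 g` with
constant term `q ^ g` all of whose complex roots have absolute value `√q`. The characteristic
polynomial of Frobenius of every abelian variety of dimension `g` over `𝔽_q` is one of them. -/
def weilPolys (g q : ℕ) : Set ℤ[X] :=
  {P | P.Monic ∧ P.natDegree = 2 * g ∧ P.coeff 0 = (q : ℤ) ^ g ∧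
    ∀ z : ℂ, aeval z P = 0 → ‖z‖ ^ 2 = q}

/-- The `q`-Weil polynomials `X ^ (2 g) + a 1 * X ^ (2 g - 1) + ... + q ^ g` such that
`p ^ E i` divides `a i` for `i = 1, ..., g` (here `E` is indexed by `k = i - 1`). -/
def closedStratum (p g q : ℕ) (E : Fin g → ℕ) : Set ℤ[X] :=
  {P | P ∈ weilPolys g q ∧ ∀ k : Fin g, (p : ℤ) ^ E k ∣ P.coeff (2 * g - (k + 1))}

/-- The `q`-Weil polynomials `X ^ (2 g) + a 1 * X ^ (2 g - 1) + ... + q ^ g` such that
`p ^ E i` exactly divides `a i` for `i = 1, ..., g` (here `E` is indexed by `k = i - 1`). -/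
def openStratum (p g q : ℕ) (E : Fin g → ℕ) : Set ℤ[X] :=
  {P | P ∈ weilPolys g q ∧ ∀ k : Fin g, (p : ℤ) ^ E k ∣ P.coeff (2 * g - (k + 1)) ∧
    ¬ (p : ℤ) ^ (E k + 1) ∣ P.coeff (2 * g - (k + 1))}

/-- The exponents `E` satisfy `p ^ E i k ≤ q ^ (k / 2 - δ)` for `k = 1, ..., g i` (here `E i` is
indexed by `k - 1`). -/
def Bounded {r : ℕ} (g : Fin r → ℕ) (δ : ℝ) (p q : ℕ) (E : (i : Fin r) → Fin (g i) → ℕ) : Prop :=
  ∀ i k, (p : ℝ) ^ E i k ≤ (q : ℝ) ^ ((((k : ℕ) : ℝ) + 1) / 2 - δ)

/-- The families of polynomials in the closed strata. -/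
def closedFamilies {r : ℕ} (g : Fin r → ℕ) (p q : ℕ) (E : (i : Fin r) → Fin (g i) → ℕ) :
    Set (Fin r → ℤ[X]) :=
  {P | ∀ i, P i ∈ closedStratum p (g i) q (E i)}

/-- The families of polynomials in the open strata. -/
def openFamilies {r : ℕ} (g : Fin r → ℕ) (p q : ℕ) (E : (i : Fin r) → Fin (g i) → ℕ) :
    Set (Fin r → ℤ[X]) :=
  {P | ∀ i, P i ∈ openStratum p (g i) q (E i)}

/-- The elements of the `2 j`-th exterior power of `H` which are multiplied by `q ^ (m j)` by
`F ^ m`. If `H` is the first cohomology of an abelian variety over `𝔽_q` and `F` is Frobenius,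
these are the Tate classes of codimension `j` over the extension of degree `m` of `𝔽_q`. -/
def tateClasses {K : Type} [Field K] {H : Type} [AddCommGroup H] [Module K H] (q : ℕ)
    (F : Module.End K H) (m j : ℕ) : Set (ExteriorAlgebra K H) :=
  {ω | ω ∈ ⋀[K]^(2 * j) H ∧ ExteriorAlgebra.map (F ^ m) ω = (q : K) ^ (m * j) • ω}

/-- The endomorphism `F` is killed by `P`. -/
def IsKilledBy {K : Type} [Field K] {H : Type} [AddCommGroup H] [Module K H]
    (F : Module.End K H) (P : ℤ[X]) : Prop :=
  aeval F (P.map (Int.castRingHom K)) = 0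

/-- For all `m ≠ 0` and `j`, every element of the `2 j`-th exterior power of `H` which is
multiplied by `q ^ (m j)` by `F ^ m` is a polynomial in elements of the exterior square which are
multiplied by `q` by `F`. -/
def GeneratedByDivisors {K : Type} [Field K] {H : Type} [AddCommGroup H] [Module K H] (q : ℕ)
    (F : Module.End K H) : Prop :=
  ∀ m j : ℕ, m ≠ 0 → ∀ ω ∈ tateClasses q F m j, ω ∈ Algebra.adjoin K (tateClasses q F 1 1)

/-- Every endomorphism killed by `P` of a vector space over a field of characteristic zero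
satisfies `GeneratedByDivisors`. -/
def TateGenerated (q : ℕ) (P : ℤ[X]) : Prop :=
  ∀ (K : Type) [Field K] [CharZero K] (H : Type) [AddCommGroup H] [Module K H]
    (F : Module.End K H), IsKilledBy F P → GeneratedByDivisors q F

/-- The families in the closed strata with product not `TateGenerated`. -/
def exceptionalFamilies {r : ℕ} (g : Fin r → ℕ) (p q : ℕ) (E : (i : Fin r) → Fin (g i) → ℕ) :
    Set (Fin r → ℤ[X]) :=
  {P | P ∈ closedFamilies g p q E ∧ ¬ TateGenerated q (∏ i, P i)}

end Pool.Agent.Lib.MP_021685_agD
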