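import Mathlib
import Pool.Agent.Lib.MP_021685_agD.Rel2

/-!
# Sign changes and transitivity on the pairs of roots
-/

set_option autoImplicit false

open Polynomial Pool.Agent.Lib.MP_021685_ag

open scoped TensorProduct

namespace Pool.Agent.Lib.MP_021685_agD

theorem SignChange.symm {S : Type*} [Field S] [Algebra ℚ S] {q : ℕ} (hq : q ≠ 0) {P : ℚ[X]}
    {x y : S} {σ : S ≃ₐ[ℚ] S} (h : SignChange q P x σ) (hxy : x * y = q) :
    SignChange q P y σ := by
  have hchar : CharZero S := charZero_of_injective_algebraMap (algebraMap ℚ S).injective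
  have hq0 : (q : S) ≠ 0 := by exact_mod_cast hq
  have hx : x ≠ 0 := by
    rintro rfl
    rw [zero_mul] at hxy
    exact hq0 hxy.symm
  have hy : y ≠ 0 := by
    rintro rfl
    rw [mul_zero] at hxy
    exact hq0 hxy.symm
  have h1 : σ x = y := mul_left_cancel₀ hx (by rw [h.1, hxy])
  have h2 : σ y = x := by
    have h3 : σ x * σ y = q := by rw [← map_mul, hxy, map_natCast]
    rw [h1] at h3
    exact mul_left_cancel₀ hy (by rw [h3, ← hxy, mul_comm])
  refine ⟨by rw [h2, mul_comm, hxy], ?_, ?_⟩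
  · rw [h2]
    intro h3
    apply h.2.1
    rw [h1, h3]
  · intro z hz hzy hyz
    apply h.2.2 z hz
    · rintro rfl
      apply hyz
      rw [mul_comm, hxy]
    · intro h3
      apply hzy
      exact mul_left_cancel₀ hx (by rw [h3, hxy])

/-- Several factors, one sign change for each of them, and an automorphism transitive on the
pairs of roots of each of them. -/
theorem tate_of_prod_cycle {ι : Type*} [Fintype ι] {q : ℕ} (hq : q ≠ 0) (P : ι → ℚ[X])
    (hsep : (∏ i, P i).Separable)
    (hW : ∀ i, ∀ z : ℂ, aeval z (P i) = 0 → ‖z‖ ^ 2 = q)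
    {S : Type*} [Field S] [Algebra ℚ S] [IsSplittingField ℚ S (∏ i, P i)]
    (hT : ∀ i, ∃ x ∈ (P i).rootSet S, ∃ σ, SignChange q (∏ i, P i) x σ)
    (hcyc : ∀ i, ∃ τ : S ≃ₐ[ℚ] S, ∀ x ∈ (P i).rootSet S, ∀ y ∈ (P i).rootSet S,
      ∃ n : ℕ, (τ ^ n) x = y ∨ (τ ^ n) x * y = q)
    (hU : ∀ i, 2 < (P i).natDegree ∨ ∀ x ∈ (P i).rootSet S, ∀ n : ℕ, n ≠ 0 →
      x ^ (2 * n) ≠ (q : S) ^ n)
    {K : Type*} [Field K] [CharZero K] {H : Type*} [AddCommGroup H] [Module K H]
    (F : Module.End K H) (hF : aeval F ((∏ i, P i).map (algebraMap ℚ K)) = 0)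
    (m : ℕ) (hm : m ≠ 0) (j : ℕ) (ω : ExteriorAlgebra K H) (hω : ω ∈ ⋀[K]^(2 * j) H)
    (hω2 : ExteriorAlgebra.map (F ^ m) ω = (q : K) ^ (m * j) • ω) :
    ω ∈ Algebra.adjoin K {η | η ∈ ⋀[K]^2 H ∧ ExteriorAlgebra.map F η = (q : K) • η} := by
  classical
  have hne : (∏ i, P i) ≠ 0 := hsep.ne_zero
  have hnei : ∀ i, P i ≠ 0 := fun i h => hne (Finset.prod_eq_zero (Finset.mem_univ i) h)
  have hfin : FiniteDimensional ℚ S := IsSplittingField.finiteDimensional S (∏ i, P i)
  have hnormal : Normal ℚ S := Normal.of_isSplittingField (∏ i, P i)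
  have hWP : ∀ z : ℂ, aeval z (∏ i, P i) = 0 → ‖z‖ ^ 2 = q := by
    intro z hz
    rw [map_prod, Finset.prod_eq_zero_iff] at hz
    obtain ⟨i, -, hi⟩ := hz
    exact hW i z hi
  let e : S →ₐ[ℚ] ℂ := IsSplittingField.lift S (∏ i, P i) (IsAlgClosed.splits _)
  have hroot : ∀ x ∈ (∏ i, P i).rootSet S, ∃ i, x ∈ (P i).rootSet S := by
    intro x hx
    rw [mem_rootSet, map_prod, Finset.prod_eq_zero_iff] at hx
    obtain ⟨-, i, -, hi⟩ := hx
    exact ⟨i, mem_rootSet.2 ⟨hnei i, hi⟩⟩
  have hroot' : ∀ i, ∀ x ∈ (P i).rootSet S, x ∈ (∏ i, P i).rootSet S := by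
    intro i x hx
    rw [mem_rootSet]
    refine ⟨hne, ?_⟩
    rw [map_prod]
    exact Finset.prod_eq_zero (Finset.mem_univ i) (mem_rootSet.1 hx).2
  have hmaps : ∀ i, ∀ τ : S ≃ₐ[ℚ] S, ∀ x ∈ (P i).rootSet S, τ x ∈ (P i).rootSet S := by
    intro i τ x hx
    rw [mem_rootSet] at hx ⊢
    refine ⟨hx.1, ?_⟩
    have h1 : aeval (τ x) (P i) = τ (aeval x (P i)) :=
      aeval_algHom_apply (τ : S →ₐ[ℚ] S) x (P i)
    rw [h1, hx.2, map_zero]
  have hTall : ∀ i, ∀ x ∈ (P i).rootSet S, ∃ σ, SignChange q (∏ i, P i) x σ := by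
    intro i x hx
    obtain ⟨x₀, hx₀, σ, hσ⟩ := hT i
    obtain ⟨τ, hτ⟩ := hcyc i
    obtain ⟨n, hn⟩ := hτ x₀ hx₀ x hx
    rcases hn with h | h
    · rw [← h]
      exact ⟨_, hσ.conj (τ ^ n)⟩
    · exact ⟨_, (hσ.conj (τ ^ n)).symm hq h⟩
  refine tate_of_signChange hsep hq hWP (S := S) ?_ ?_ F hF m hm j ω hω hω2
  · intro x hx
    obtain ⟨i, hi⟩ := hroot x hx
    exact hTall i x hi
  · intro x hx n hn
    obtain ⟨i, hi⟩ := hroot x hx
    rcases hU i with h | h
    · have hx0 : x ≠ 0 := root_ne_zero hq hWP e hx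
      -- a root in another pair
      obtain ⟨y, hy, hyx, hxy⟩ : ∃ y ∈ (P i).rootSet S, y ≠ x ∧ x * y ≠ q := by
        by_contra hcon
        push Not at hcon
        have h5 : ((P i).rootSet S).ncard ≤ ({x, (q : S) / x} : Set S).ncard := by
          apply Set.ncard_le_ncard _ (Set.toFinite _)
          intro y hy
          by_cases hyx : y = x
          · left; exact hyx
          · right
            rw [Set.mem_singleton_iff, eq_div_iff hx0, mul_comm]
            exact hcon y hy hyx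
        have h6 : ({x, (q : S) / x} : Set S).ncard ≤ 2 := by
          refine (Set.ncard_insert_le _ _).trans ?_
          rw [Set.ncard_singleton]
        have hsplit : ((P i).map (algebraMap ℚ S)).Splits := by
          refine Splits.of_dvd (IsSplittingField.splits S (∏ i, P i)) ?_ ?_
          · exact (Polynomial.map_ne_zero hne)
          · exact Polynomial.map_dvd _ (Finset.dvd_prod_of_mem P (Finset.mem_univ i))
        have hsepi : (P i).Separable :=
          hsep.of_dvd (Finset.dvd_prod_of_mem P (Finset.mem_univ i))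
        have h7 : ((P i).rootSet S).ncard = (P i).natDegree := by
          rw [← card_rootSet_eq_natDegree hsepi hsplit, ← Nat.card_eq_fintype_card,
            Nat.card_coe_set_eq]
        omega
      obtain ⟨σ, hσ⟩ := hTall i x hi
      obtain ⟨τ, hτ⟩ := hcyc i
      obtain ⟨N, hN⟩ := hτ x hi y hy
      have hchar : CharZero S := charZero_of_injective_algebraMap (algebraMap ℚ S).injective
      have hq0 : (q : S) ≠ 0 := by exact_mod_cast hq
      have hmem : (τ ^ N) x ∈ (P i).rootSet S := hmaps i _ x hi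
      refine notUnity_of_signChange hq hx0 hσ (hroot' i _ hmem) ?_ ?_ rfl n hn
      · rcases hN with h1 | h1
        · rw [h1]; exact hyx
        · intro h2
          rw [h2] at h1
          exact hxy h1
      · rcases hN with h1 | h1
        · rw [h1]; exact hxy
        · intro h2
          apply hyx
          rw [mul_comm] at h2
          have h3 : (τ ^ N) x ≠ 0 := by
            intro h4
            rw [h4, zero_mul] at h1
            exact hq0 h1.symm
          exact mul_left_cancel₀ h3 (by rw [h1, h2])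
    · exact h x hi n hn

end Pool.Agent.Lib.MP_021685_agD
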