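import Mathlib
import Pool.Agent.Lib.MP_021685_agD.Defs
import Pool.Agent.Lib.MP_021685_agD.Frob
import Pool.Agent.Lib.MP_021685_agD.Rel3
import Pool.Agent.Lib.MP_021685_agD.Cycle

/-!
# Tate classes from residues modulo primes
-/

set_option autoImplicit false

open Polynomial NumberField Pool.Agent.Lib.MP_021685_ag

namespace Pool.Agent.Lib.MP_021685_agD

theorem exists_nf (R : ℚ[X]) :
    ∃ (S : Type) (_ : Field S) (_ : NumberField S), IsSplittingField ℚ S R := by
  obtain ⟨S, hS1, hS2, hS3⟩ := exists_splittingField R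
  have hchar : CharZero S := charZero_of_injective_algebraMap (algebraMap ℚ S).injective
  have e : hS2 = DivisionRing.toRatAlgebra := Subsingleton.elim _ _
  subst e
  have hfin : FiniteDimensional ℚ S := IsSplittingField.finiteDimensional S R
  exact ⟨S, hS1, { to_charZero := hchar, to_finiteDimensional := hfin }, hS3⟩

/-- The residues of the family `P` modulo `l`: all the `P i` are products of quadratic polynomials
`X ^ 2 - t X + q` with pairwise distinct `t`, exactly one of which, a factor of `P i₀`, is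
irreducible. -/
def GoodAt {ι : Type} (q : ℕ) (P : ι → ℤ[X]) (i₀ : ι) (l : ℕ) : Prop :=
  ∃ T : ι → Finset (ZMod l),
    (∀ i, (P i).map (Int.castRingHom (ZMod l)) = ∏ t ∈ T i, quad q t) ∧
    (∀ i j, i ≠ j → Disjoint (T i) (T j)) ∧
    (∀ i, ∀ t ∈ T i, t ^ 2 - 4 * (q : ZMod l) ≠ 0) ∧
    ∃ t₀ ∈ T i₀, ¬ IsSquare (t₀ ^ 2 - 4 * (q : ZMod l)) ∧
      ∀ i, ∀ t ∈ T i, t ≠ t₀ → IsSquare (t ^ 2 - 4 * (q : ZMod l))

theorem tateGenerated_of_cycle {ι : Type} [Fintype ι] [DecidableEq ι] {q : ℕ} (hq : q ≠ 0)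
    (g : ι → ℕ) (hg : ∀ i, g i ≠ 0) (P : ι → ℤ[X]) (hP : ∀ i, P i ∈ weilPolys (g i) q)
    (hcyc : ∀ i, ∃ l : ℕ, l.Prime ∧ ¬ l ∣ q ∧ CycleAt q (g i) (P i) l)
    (h1 : ∀ i, g i = 1 → ∀ k : ℕ, k ≤ 4 → (P i).coeff 1 ^ 2 ≠ k * q)
    (hgood : ∀ i₀, ∃ l : ℕ, l.Prime ∧ l ≠ 2 ∧ ¬ l ∣ q ∧ GoodAt q P i₀ l) :
    TateGenerated q (∏ i, P i) := by
  classical
  have hmon : ∀ i, (P i).Monic := fun i => (hP i).1
  set R : ℤ[X] := ∏ i, P i with hR
  have hRmon : R.Monic := monic_prod_of_monic _ _ fun i _ => hmon i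
  -- separability
  have hsep : (R.map (Int.castRingHom ℚ)).Separable := by
    by_cases hι : IsEmpty ι
    · have : R = 1 := by rw [hR, Finset.univ_eq_empty, Finset.prod_empty]
      rw [this, Polynomial.map_one]
      exact separable_one
    · rw [not_isEmpty_iff] at hι
      obtain ⟨i₀⟩ := hι
      obtain ⟨l, hl, -, hql, T, hT1, hT2, hT3, -⟩ := hgood i₀
      have : Fact l.Prime := ⟨hl⟩
      exact separable_of_squarefree_map (k := ZMod l) hRmon
        (map_prod_squarefree P hql T hT1 hT2 hT3 (RingHom.id _))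
  obtain ⟨S, _, _, hS⟩ := exists_nf (R.map (Int.castRingHom ℚ))
  have hmapR : ∏ i, (P i).map (Int.castRingHom ℚ) = R.map (Int.castRingHom ℚ) := by
    rw [hR, Polynomial.map_prod]
  have hS' : IsSplittingField ℚ S (∏ i, (P i).map (Int.castRingHom ℚ)) := by
    rw [hmapR]; exact hS
  have hgal : IsGalois ℚ S := IsGalois.of_separable_splitting_field hsep
  have haev : ∀ (A : Type) [Ring A] [Algebra ℚ A] (x : A) (p : ℤ[X]),
      aeval x (p.map (Int.castRingHom ℚ)) = aeval x p := by
    intro A _ _ x p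
    exact aeval_map_algebraMap ℚ x p
  have hneQ : ∀ i, (P i).map (Int.castRingHom ℚ) ≠ 0 := fun i => ((hmon i).map _).ne_zero
  have hW : ∀ i, ∀ z : ℂ, aeval z ((P i).map (Int.castRingHom ℚ)) = 0 → ‖z‖ ^ 2 = q := by
    intro i z hz
    rw [haev] at hz
    exact (hP i).2.2.2 z hz
  have hWR : ∀ z : ℂ, aeval z (R.map (Int.castRingHom ℚ)) = 0 → ‖z‖ ^ 2 = q := by
    intro z hz
    rw [← hmapR, map_prod, Finset.prod_eq_zero_iff] at hz
    obtain ⟨i, -, hi⟩ := hz
    exact hW i z hi
  have hRne : R.map (Int.castRingHom ℚ) ≠ 0 := hsep.ne_zero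
  let e : S →ₐ[ℚ] ℂ := IsSplittingField.lift S (R.map (Int.castRingHom ℚ)) (IsAlgClosed.splits _)
  have hroot : ∀ x : S, x ∈ (R.map (Int.castRingHom ℚ)).rootSet S ↔ ∃ i, aeval x (P i) = 0 := by
    intro x
    rw [mem_rootSet, ← hmapR, map_prod, Finset.prod_eq_zero_iff]
    constructor
    · rintro ⟨-, i, -, hi⟩
      exact ⟨i, by rwa [haev] at hi⟩
    · rintro ⟨i, hi⟩
      refine ⟨by rw [hmapR]; exact hRne, i, Finset.mem_univ i, by rw [haev]; exact hi⟩
  have hbar : ∀ x : S, (∃ i, aeval x (P i) = 0) → ∃ i, aeval ((q : S) / x) (P i) = 0 := by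
    intro x hx
    rw [← hroot] at hx ⊢
    exact div_mem_rootSet hRne hq hWR e hx
  have hroot_i : ∀ i, ∀ x : S, x ∈ ((P i).map (Int.castRingHom ℚ)).rootSet S ↔
      aeval x (P i) = 0 := by
    intro i x
    rw [mem_rootSet, haev]
    exact ⟨fun h => h.2, fun h => ⟨hneQ i, h⟩⟩
  intro K _ _ H _ _ F hF m j hm ω hωT
  obtain ⟨hω, hω2⟩ := hωT
  have hset : tateClasses q F 1 1 =
      {η | η ∈ ⋀[K]^2 H ∧ ExteriorAlgebra.map F η = (q : K) • η} := by
    simp only [tateClasses, mul_one, pow_one]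
  rw [hset]
  have hFK : aeval F ((∏ i, (P i).map (Int.castRingHom ℚ)).map (algebraMap ℚ K)) = 0 := by
    rw [hmapR, Polynomial.map_map]
    have h2 : (algebraMap ℚ K).comp (Int.castRingHom ℚ) = Int.castRingHom K :=
      Subsingleton.elim _ _
    rw [h2]
    exact hF
  refine tate_of_prod_cycle hq (fun i => (P i).map (Int.castRingHom ℚ))
    (by rw [hmapR]; exact hsep) hW (S := S) ?_ ?_ ?_ F hFK m hm j ω hω hω2
  · intro i₀
    obtain ⟨l, hl, hl2, hql, T, hT1, hT2, hT3, t₀, ht₀, hns, hsq⟩ := hgood i₀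
    have : Fact l.Prime := ⟨hl⟩
    have hsplit : ((P i₀).map (Int.castRingHom S)).Splits := by
      have h3 : (R.map (Int.castRingHom S)).Splits := by
        have h4 := IsSplittingField.splits S (R.map (Int.castRingHom ℚ))
        rw [Polynomial.map_map] at h4
        have h5 : (algebraMap ℚ S).comp (Int.castRingHom ℚ) = Int.castRingHom S :=
          Subsingleton.elim _ _
        rwa [h5] at h4
      refine Splits.of_dvd h3 (hRmon.map _).ne_zero ?_
      exact Polynomial.map_dvd _ (Finset.dvd_prod_of_mem P (Finset.mem_univ i₀))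
    obtain ⟨x, hx, σ, hσ1, hσ2, hσ3⟩ := exists_signChange hq P hmon hl2 hql T hT1 hT2 hT3 i₀ t₀
      ht₀ hns hsq S hsplit hbar
    refine ⟨x, (hroot_i i₀ x).2 hx, σ, hσ1, hσ2, ?_⟩
    intro y hy hyx hxy
    rw [hmapR, hroot] at hy
    exact hσ3 y hy hyx hxy
  · intro i
    obtain ⟨l, hl, hql, hc⟩ := hcyc i
    have : Fact l.Prime := ⟨hl⟩
    obtain ⟨τ, hτ⟩ := exists_cycle hq (P i) (hmon i) hql hc S (by
      intro x hx
      rw [← hroot_i] at hx ⊢
      exact div_mem_rootSet (hneQ i) hq (hW i) e hx)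
    refine ⟨τ, fun x hx y hy => ?_⟩
    rw [hroot_i] at hx hy
    exact hτ x y hx hy
  · intro i
    rw [(hmon i).natDegree_map, (hP i).2.1]
    by_cases hgi : g i = 1
    · right
      intro x hx n hn
      rw [hroot_i] at hx
      have hx0 : x ≠ 0 := by
        apply root_ne_zero hq hWR e
        rw [hroot]
        exact ⟨i, hx⟩
      have hdeg : (P i).natDegree = 2 := by rw [(hP i).2.1, hgi]
      have hPi : P i = X ^ 2 + C ((P i).coeff 1) * X + C (q : ℤ) := by
        have h2 := (P i).as_sum_range_C_mul_X_pow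
        rw [hdeg] at h2
        simp only [Finset.sum_range_succ, Finset.sum_range_zero, zero_add, pow_zero, mul_one,
          pow_one] at h2
        have h3 : (P i).coeff 2 = 1 := by rw [← hdeg]; exact hmon i
        have h4 : (P i).coeff 0 = q := by rw [(hP i).2.2.1, hgi, pow_one]
        rw [h3, h4, C_1, one_mul] at h2
        conv_lhs => rw [h2]
        ring
      have hroot2 : ∀ (A : Type) [Field A] [Algebra ℚ A] (y : A), aeval y (P i) = 0 →
          y ^ 2 + ((P i).coeff 1 : A) * y + q = 0 := by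
        intro A _ _ y hy
        rw [hPi] at hy
        simpa using hy
      -- the bound on the trace
      have hbound : (-(P i).coeff 1) ^ 2 ≤ 4 * (q : ℤ) := by
        set a : ℤ := -(P i).coeff 1 with ha
        obtain ⟨z, hz⟩ : ∃ z : ℂ, aeval z (P i) = 0 :=
          ⟨e x, by
            have h2 : aeval (e x) (P i) = e (aeval x (P i)) := by
              rw [aeval_def, aeval_def, ← AlgHom.coe_toRingHom, hom_eval₂]
              congr 1
              exact Subsingleton.elim _ _
            rw [h2, hx, map_zero]⟩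
        have h2 := hroot2 ℂ z hz
        have h3 := (hP i).2.2.2 z hz
        have h4 : z * (starRingEnd ℂ) z = (q : ℂ) := by
          rw [Complex.mul_conj, Complex.normSq_eq_norm_sq, h3]
          norm_cast
        have hz0 : z ≠ 0 := by
          rintro rfl
          rw [zero_mul] at h4
          exact hq (by exact_mod_cast h4.symm)
        have h5 : z + (starRingEnd ℂ) z = (a : ℂ) := by
          apply mul_left_cancel₀ hz0
          rw [mul_add, h4, ha]
          push_cast
          linear_combination h2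
        have h6 : 2 * z.re = (a : ℝ) := by
          have := congrArg Complex.re h5
          simpa [two_mul] using this
        have h7 : z.re ^ 2 ≤ (q : ℝ) := by
          rw [← h3, ← Complex.normSq_eq_norm_sq, Complex.normSq_apply]
          nlinarith [sq_nonneg z.im]
        have h8 : (a : ℝ) ^ 2 ≤ 4 * q := by
          rw [← h6]
          nlinarith
        exact_mod_cast h8
      refine notUnity_quadratic hq hx0 (a := -(P i).coeff 1) ?_ hbound ?_ n hn
      · have h2 := hroot2 S x hx
        push_cast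
        linear_combination h2
      · intro k hk
        rw [neg_sq]
        exact h1 i hgi k hk
    · left
      have := hg i
      omega

end Pool.Agent.Lib.MP_021685_agD
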