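import Mathlib
import Pool.Agent.Lib.MP_021685_agD.Defs
import Pool.Agent.Lib.MP_021685_agD.Quad

/-!
# The functional equation of polynomials with all roots on a circle
-/

set_option autoImplicit false

open Polynomial

namespace Pool.Agent.Lib.MP_021685_agD

/-- Monic integer polynomials of degree `d` all of whose complex roots have absolute value
`√q`. -/
def circlePolys (d q : ℕ) : Set ℤ[X] :=
  {P | P.Monic ∧ P.natDegree = d ∧ ∀ z : ℂ, aeval z P = 0 → ‖z‖ ^ 2 = q}

theorem weil_subset_circle {g q : ℕ} {P : ℤ[X]} (hP : P ∈ weilPolys g q) :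
    P ∈ circlePolys (2 * g) q := ⟨hP.1, hP.2.1, hP.2.2.2⟩

/-- The functional equation `P (q X) = c * reverse P`. -/
def FunEq {R : Type*} [CommRing R] (q : ℕ) (c : R) (P : R[X]) : Prop :=
  P.comp (C (q : R) * X) = C c * P.reverse

theorem FunEq.coeff {R : Type*} [CommRing R] {q : ℕ} {c : R} {P : R[X]} (h : FunEq q c P)
    {k : ℕ} (hk : k ≤ P.natDegree) :
    P.coeff k * (q : R) ^ k = c * P.coeff (P.natDegree - k) := by
  have h1 := congrArg (fun f => Polynomial.coeff f k) h
  simp only [comp_C_mul_X_coeff, coeff_C_mul, coeff_reverse] at h1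
  rwa [revAt_le hk] at h1

theorem FunEq.one {R : Type*} [CommRing R] {q : ℕ} : FunEq q (1 : R) (1 : R[X]) := by
  have : (1 : R[X]).reverse = 1 := by rw [← C_1, reverse_C]
  simp [FunEq, this]

theorem FunEq.mul {R : Type*} [CommRing R] [IsDomain R] {q : ℕ} {c d : R} {P Q : R[X]}
    (h : FunEq q c P) (h' : FunEq q d Q) : FunEq q (c * d) (P * Q) := by
  unfold FunEq at *
  rw [mul_comp, h, h', reverse_mul_of_domain, C_mul]
  ring

theorem FunEq.prod {R : Type*} [CommRing R] [IsDomain R] {q : ℕ} {ι : Type*} (s : Finset ι)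
    (c : ι → R) (P : ι → R[X]) (h : ∀ i ∈ s, FunEq q (c i) (P i)) :
    FunEq q (∏ i ∈ s, c i) (∏ i ∈ s, P i) := by
  classical
  induction s using Finset.induction_on with
  | empty => simpa using FunEq.one
  | insert a s ha ih =>
    rw [Finset.prod_insert ha, Finset.prod_insert ha]
    exact (h a (Finset.mem_insert_self a s)).mul
      (ih fun i hi => h i (Finset.mem_insert_of_mem hi))

theorem funEq_quad {R : Type*} [CommRing R] [Nontrivial R] (q : ℕ) (t : R) :
    FunEq q (q : R) (quad q t) := by
  have hr : (quad q t).reverse = 1 - C t * X + C (q : R) * X ^ 2 := by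
    rw [reverse, quad_natDegree, quad, reflect_add, reflect_sub, reflect_C]
    have h1 : reflect 2 (X ^ 2 : R[X]) = 1 := by
      rw [reflect_monomial, revAt_le le_rfl]; simp
    have h2 : reflect 2 (C t * X : R[X]) = C t * X := by
      rw [reflect_C_mul]
      congr 1
      have := reflect_monomial (R := R) 2 1
      rw [revAt_le (by norm_num : 1 ≤ 2)] at this
      simpa using this
    rw [h1, h2]
  rw [FunEq, hr, quad]
  simp only [add_comp, sub_comp, mul_comp, pow_comp, X_comp, C_comp]
  ring

theorem reverse_X_sub_C {R : Type*} [CommRing R] [Nontrivial R] (w : R) :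
    (X - C w : R[X]).reverse = 1 - C w * X := by
  rw [reverse, natDegree_X_sub_C, reflect_sub, reflect_C, reflect_one_X, pow_one]

theorem circle_comp {q : ℕ} (s : Multiset ℂ) (hs : ∀ z ∈ s, ‖z‖ ^ 2 = q) :
    ((s.map fun z => X - C z).prod).comp (C (q : ℂ) * X) =
      C ((s.map fun z => -z).prod) *
        ((s.map fun z => X - C ((starRingEnd ℂ) z)).prod).reverse := by
  induction s using Multiset.induction_on with
  | empty =>
    have : (1 : ℂ[X]).reverse = 1 := by rw [← C_1, reverse_C]
    simp [this]
  | cons a s ih =>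
    have ha : a * (starRingEnd ℂ) a = (q : ℂ) := by
      rw [Complex.mul_conj, Complex.normSq_eq_norm_sq, hs a (Multiset.mem_cons_self a s)]
      norm_cast
    rw [Multiset.map_cons, Multiset.prod_cons, mul_comp, ih fun z hz =>
      hs z (Multiset.mem_cons_of_mem hz), Multiset.map_cons, Multiset.prod_cons, Multiset.map_cons,
      Multiset.prod_cons, reverse_mul_of_domain, reverse_X_sub_C, sub_comp, X_comp, C_comp, ← ha]
    simp only [C_mul, C_neg]
    ring

theorem circle_funEq {d q : ℕ} {P : ℤ[X]} (hP : P ∈ circlePolys d q) :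
    FunEq q (P.coeff 0) P := by
  obtain ⟨hmon, hdeg, hW⟩ := hP
  set B : ℂ[X] := P.map (Int.castRingHom ℂ) with hB
  have hBmon : B.Monic := hmon.map _
  have hinj : Function.Injective (Int.castRingHom ℂ) := (Int.castRingHom ℂ).injective_int
  have hsplit : B = (B.roots.map fun z => X - C z).prod := by
    have h1 := (IsAlgClosed.splits B).eq_prod_roots
    rwa [hBmon.leadingCoeff, C_1, one_mul] at h1
  have hroots : ∀ z ∈ B.roots, ‖z‖ ^ 2 = q := by
    intro z hz
    apply hW
    have h2 := (mem_roots hBmon.ne_zero).1 hz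
    rw [IsRoot.def, hB, eval_map] at h2
    exact h2
  have hconj : B = (B.roots.map fun z => X - C ((starRingEnd ℂ) z)).prod := by
    have h1 : B.map (starRingEnd ℂ) = B := by
      rw [hB, Polynomial.map_map]
      congr 1
      exact Subsingleton.elim _ _
    conv_lhs => rw [← h1, hsplit, Polynomial.map_multiset_prod, Multiset.map_map]
    congr 1
    apply Multiset.map_congr rfl
    intro z _
    simp
  have h1 : B.comp (C (q : ℂ) * X) = C (B.coeff 0) * B.reverse := by
    have h2 : B.coeff 0 = (B.roots.map fun z => -z).prod := by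
      conv_lhs => rw [hsplit]
      rw [coeff_zero_eq_eval_zero, eval_multiset_prod, Multiset.map_map]
      congr 1
      apply Multiset.map_congr rfl
      intro z _
      simp
    conv_lhs => rw [hsplit]
    rw [circle_comp _ hroots, h2]
    congr 2
    exact hconj.symm
  unfold FunEq
  apply map_injective _ hinj
  rw [Polynomial.map_comp, Polynomial.map_mul, Polynomial.map_mul, map_C, map_X, map_C]
  have h3 : (P.reverse).map (Int.castRingHom ℂ) = B.reverse := by
    rw [reverse, reverse, reflect_map, hB, hmon.natDegree_map]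
  rw [h3, ← hB]
  have h4 : (Int.castRingHom ℂ) (P.coeff 0) = B.coeff 0 := by rw [hB, coeff_map]
  rw [h4, ← h1]
  simp

theorem coeff_bound {d q : ℕ} {P : ℤ[X]} (hP : P ∈ circlePolys d q) (k : ℕ) :
    (|P.coeff k| : ℝ) ≤ Real.sqrt q ^ (d - k) * d.choose k := by
  obtain ⟨hmon, hdeg, hW⟩ := hP
  have h1 := coeff_le_of_roots_le (p := P) (f := Int.castRingHom ℂ) (B := Real.sqrt q) k hmon
    (IsAlgClosed.splits _) (by
      intro z hz
      have h2 := (mem_roots (hmon.map (Int.castRingHom ℂ)).ne_zero).1 hz
      rw [IsRoot.def, eval_map] at h2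
      have h3 := hW z h2
      rw [← h3, Real.sqrt_sq (norm_nonneg z)])
  rw [hdeg, coeff_map] at h1
  simpa using h1

theorem coeff_zero_sq {d q : ℕ} {P : ℤ[X]} (hP : P ∈ circlePolys d q) :
    P.coeff 0 ^ 2 = (q : ℤ) ^ d := by
  have h1 := (circle_funEq hP).coeff (k := P.natDegree) le_rfl
  rw [Nat.sub_self, hP.2.1] at h1
  have h2 : P.coeff d = 1 := by
    have := hP.1
    rw [Monic, leadingCoeff, hP.2.1] at this
    exact this
  rw [h2, one_mul] at h1
  rw [pow_two, ← h1]

/-- Polynomials satisfying the same functional equation with the same upper half of coefficients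
coincide. -/
theorem eq_of_upper {R : Type*} [CommRing R] [IsDomain R] {q : ℕ} (hq : (q : R) ≠ 0) {c : R}
    {P Q : R[X]} {d : ℕ} (hPd : P.natDegree = d) (hQd : Q.natDegree = d) (hPm : P.Monic)
    (hQm : Q.Monic) (hP : FunEq q c P) (hQ : FunEq q c Q)
    (h : ∀ i < d / 2, P.coeff (d - 1 - i) = Q.coeff (d - 1 - i)) : P = Q := by
  -- the coefficients of index at least `d - d / 2`
  have h1 : ∀ k, d - d / 2 ≤ k → P.coeff k = Q.coeff k := by
    intro k hk
    rcases lt_trichotomy k d with hlt | heq | hgt
    · have h2 := h (d - 1 - k) (by omega)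
      have h3 : d - 1 - (d - 1 - k) = k := by omega
      rwa [h3] at h2
    · rw [heq]
      have e1 : P.coeff d = 1 := by rw [← hPd]; exact hPm
      have e2 : Q.coeff d = 1 := by rw [← hQd]; exact hQm
      rw [e1, e2]
    · rw [coeff_eq_zero_of_natDegree_lt (by omega), coeff_eq_zero_of_natDegree_lt (by omega)]
  ext k
  by_cases hk : d - d / 2 ≤ k
  · exact h1 k hk
  · push Not at hk
    apply mul_right_cancel₀ (pow_ne_zero k hq)
    rw [hP.coeff (by omega), hQ.coeff (by omega), hPd, hQd, h1 (d - k) (by omega)]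

end Pool.Agent.Lib.MP_021685_agD
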