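import Mathlib
import Pool.Agent.Lib.MP_021685_agD.Sym

/-!
# Counting integer polynomials with all roots on a circle
-/

set_option autoImplicit false

open Polynomial

namespace Pool.Agent.Lib.MP_021685_agD

/-- The half side of the box for the coefficient of index `d - 1 - i`. -/
noncomputable def side (d q i : ℕ) : ℕ := ⌊(2 : ℝ) ^ d * Real.sqrt q ^ (i + 1)⌋₊

theorem upper_mem {d q : ℕ} {P : ℤ[X]} (hP : P ∈ circlePolys d q) {i : ℕ} (hi : i + 1 ≤ d) :
    P.coeff (d - 1 - i) ∈ Finset.Icc (-(side d q i : ℤ)) (side d q i) := by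
  have h1 := coeff_bound hP (d - 1 - i)
  have h2 : d - (d - 1 - i) = i + 1 := by omega
  rw [h2] at h1
  have h3 : (d.choose (d - 1 - i) : ℝ) ≤ 2 ^ d := by
    have : d.choose (d - 1 - i) ≤ 2 ^ d := by
      rw [← Nat.sum_range_choose]
      exact Finset.single_le_sum (fun _ _ => Nat.zero_le _) (Finset.mem_range.2 (by omega))
    exact_mod_cast this
  have h4 : (|P.coeff (d - 1 - i)| : ℝ) ≤ (2 : ℝ) ^ d * Real.sqrt q ^ (i + 1) := by
    refine h1.trans ?_
    rw [mul_comm]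
    exact mul_le_mul_of_nonneg_right h3 (by positivity)
  have h5 : (P.coeff (d - 1 - i)).natAbs ≤ side d q i := by
    apply Nat.le_floor
    rw [Nat.cast_natAbs]
    exact_mod_cast h4
  rw [Finset.mem_Icc]
  omega

theorem circle_finite_card (d : ℕ) {q : ℕ} (hq : q ≠ 0) : (circlePolys d q).Finite ∧
    (circlePolys d q).ncard ≤ 2 * ∏ i : Fin (d / 2), (2 * side d q i + 1) := by
  classical
  by_cases hne : (circlePolys d q).Nonempty
  · obtain ⟨P₀, hP₀⟩ := hne
    set r := P₀.coeff 0 with hr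
    let A : Finset ℤ := {r, -r}
    let B : Finset (Fin (d / 2) → ℤ) :=
      Fintype.piFinset fun i => Finset.Icc (-(side d q i : ℤ)) (side d q i)
    let Φ : ℤ[X] → ℤ × (Fin (d / 2) → ℤ) := fun P => (P.coeff 0, fun i => P.coeff (d - 1 - i))
    have hmaps : Set.MapsTo Φ (circlePolys d q) ((A ×ˢ B : Finset _) : Set _) := by
      intro P hP
      rw [Finset.mem_coe, Finset.mem_product]
      constructor
      · have h1 : P.coeff 0 ^ 2 = r ^ 2 := by
          rw [coeff_zero_sq hP, hr, coeff_zero_sq hP₀]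
        rcases sq_eq_sq_iff_eq_or_eq_neg.1 h1 with h | h
        · exact Finset.mem_insert.2 (Or.inl h)
        · exact Finset.mem_insert.2 (Or.inr (Finset.mem_singleton.2 h))
      · rw [Fintype.mem_piFinset]
        intro i
        exact upper_mem hP (by have := i.2; omega)
    have hinj : Set.InjOn Φ (circlePolys d q) := by
      intro P hP Q hQ h
      have h1 : P.coeff 0 = Q.coeff 0 := congrArg Prod.fst h
      have h2 : (fun i : Fin (d / 2) => P.coeff (d - 1 - i)) =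
          fun i : Fin (d / 2) => Q.coeff (d - 1 - i) := congrArg Prod.snd h
      have hq' : ((q : ℕ) : ℤ) ≠ 0 := by exact_mod_cast hq
      refine eq_of_upper hq' hP.2.1 hQ.2.1 hP.1 hQ.1 (circle_funEq hP)
        (by rw [h1]; exact circle_funEq hQ) ?_
      intro i hi
      exact congrFun h2 ⟨i, hi⟩
    refine ⟨Set.Finite.of_injOn hmaps hinj (Finset.finite_toSet _), ?_⟩
    refine (Set.ncard_le_ncard_of_injOn Φ hmaps hinj (Finset.finite_toSet _)).trans ?_
    rw [Set.ncard_coe_finset, Finset.card_product, Fintype.card_piFinset]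
    apply Nat.mul_le_mul
    · exact Finset.card_le_two
    · apply le_of_eq
      apply Finset.prod_congr rfl
      intro i _
      rw [Int.card_Icc]
      omega
  · rw [Set.not_nonempty_iff_eq_empty] at hne
    rw [hne]
    exact ⟨Set.finite_empty, by simp⟩

/-- The exponent `m (m + 1) / 2`. -/
def ex (m : ℕ) : ℕ := m * (m + 1) / 2

theorem ex_two (m : ℕ) : ex m * 2 = m * (m + 1) :=
  Nat.div_mul_cancel (Nat.even_mul_succ_self m).two_dvd

theorem sum_succ (m : ℕ) : ∑ i : Fin m, ((i : ℕ) + 1) = ex m := by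
  have h1 : ∑ i : Fin m, ((i : ℕ) + 1) = ∑ i ∈ Finset.range m, (i + 1) :=
    Fin.sum_univ_eq_sum_range (fun i => i + 1) m
  have h2 : (∑ i ∈ Finset.range m, (i + 1)) * 2 = m * (m + 1) := by
    induction m with
    | zero => simp
    | succ m ih =>
      rw [Finset.sum_range_succ, add_mul, ih (Fin.sum_univ_eq_sum_range (fun i => i + 1) m)]
      ring
  rw [h1]
  have := ex_two m
  omega

theorem side_le {d q i : ℕ} : (side d q i : ℝ) ≤ (2 : ℝ) ^ d * Real.sqrt q ^ (i + 1) :=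
  Nat.floor_le (by positivity)

theorem one_le_sqrt {q : ℕ} (hq : q ≠ 0) : 1 ≤ Real.sqrt q := by
  rw [Real.one_le_sqrt]
  exact_mod_cast Nat.one_le_iff_ne_zero.2 hq

theorem two_side_le {d q i : ℕ} (hq : q ≠ 0) :
    ((2 * side d q i + 1 : ℕ) : ℝ) ≤ 3 * (2 : ℝ) ^ d * Real.sqrt q ^ (i + 1) := by
  have h1 := side_le (d := d) (q := q) (i := i)
  have h2 : (1 : ℝ) ≤ (2 : ℝ) ^ d * Real.sqrt q ^ (i + 1) :=
    one_le_mul_of_one_le_of_one_le (one_le_pow₀ (by norm_num)) (one_le_pow₀ (one_le_sqrt hq))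
  push_cast
  linarith

theorem prod_side_le (d m q : ℕ) (hq : q ≠ 0) :
    ((∏ i : Fin m, (2 * side d q i + 1) : ℕ) : ℝ) ≤ (3 * (2 : ℝ) ^ d) ^ m * Real.sqrt q ^ ex m := by
  rw [Nat.cast_prod]
  calc ∏ i : Fin m, ((2 * side d q i + 1 : ℕ) : ℝ)
      ≤ ∏ i : Fin m, (3 * (2 : ℝ) ^ d * Real.sqrt q ^ ((i : ℕ) + 1)) :=
        Finset.prod_le_prod (fun _ _ => Nat.cast_nonneg _) fun i _ => two_side_le hq
    _ = (3 * (2 : ℝ) ^ d) ^ m * Real.sqrt q ^ ex m := by
        rw [Finset.prod_mul_distrib, Finset.prod_const, Finset.card_univ, Fintype.card_fin,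
          Finset.prod_pow_eq_pow_sum, sum_succ]

theorem circle_card_le (d : ℕ) {q : ℕ} (hq : q ≠ 0) :
    ((circlePolys d q).ncard : ℝ) ≤ 2 * (3 * (2 : ℝ) ^ d) ^ (d / 2) * Real.sqrt q ^ ex (d / 2) := by
  have h1 := (circle_finite_card d hq).2
  have h2 : ((circlePolys d q).ncard : ℝ) ≤
      ((2 * ∏ i : Fin (d / 2), (2 * side d q i + 1) : ℕ) : ℝ) := by exact_mod_cast h1
  refine h2.trans ?_
  rw [Nat.cast_mul, mul_assoc]
  have h3 := prod_side_le d (d / 2) q hq
  push_cast at h3 ⊢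
  exact mul_le_mul_of_nonneg_left h3 (by norm_num)

theorem weil_finite (g : ℕ) {q : ℕ} (hq : q ≠ 0) : (weilPolys g q).Finite :=
  (circle_finite_card (2 * g) hq).1.subset fun _ hP => weil_subset_circle hP

theorem weil_card_le (g : ℕ) {q : ℕ} (hq : q ≠ 0) :
    ((weilPolys g q).ncard : ℝ) ≤ 2 * (3 * (2 : ℝ) ^ (2 * g)) ^ g * Real.sqrt q ^ ex g := by
  have h1 := circle_card_le (2 * g) hq
  rw [Nat.mul_div_cancel_left g (by norm_num : 0 < 2)] at h1
  refine le_trans ?_ h1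
  exact_mod_cast Set.ncard_le_ncard (fun _ hP => weil_subset_circle hP)
    (circle_finite_card (2 * g) hq).1

/-- There are few Weil polynomials `X ^ 2 - a X + q` with `a ^ 2 ∈ {0, q, 2 q, 3 q, 4 q}`. -/
theorem special_card_le {q : ℕ} :
    {P | P ∈ weilPolys 1 q ∧ ∃ k : ℕ, k ≤ 4 ∧ P.coeff 1 ^ 2 = (k : ℤ) * q}.ncard ≤ 10 := by
  classical
  -- at most two values of the coefficient for each `k`
  have h1 : ∀ k : ℕ, ∃ A : Finset ℤ, A.card ≤ 2 ∧ ∀ a : ℤ, a ^ 2 = (k : ℤ) * q → a ∈ A := by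
    intro k
    by_cases h : ∃ r : ℤ, r ^ 2 = (k : ℤ) * q
    · obtain ⟨r, hr⟩ := h
      refine ⟨{r, -r}, Finset.card_le_two, fun a ha => ?_⟩
      rw [← hr] at ha
      rcases sq_eq_sq_iff_eq_or_eq_neg.1 ha with h | h
      · exact Finset.mem_insert.2 (Or.inl h)
      · exact Finset.mem_insert.2 (Or.inr (Finset.mem_singleton.2 h))
    · exact ⟨∅, by simp, fun a ha => (h ⟨a, ha⟩).elim⟩
  choose A hA1 hA2 using h1
  have hmaps : Set.MapsTo (fun P : ℤ[X] => P.coeff 1)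
      {P | P ∈ weilPolys 1 q ∧ ∃ k : ℕ, k ≤ 4 ∧ P.coeff 1 ^ 2 = (k : ℤ) * q}
      (((Finset.range 5).biUnion A : Finset ℤ) : Set ℤ) := by
    rintro P ⟨-, k, hk, hP⟩
    rw [Finset.mem_coe, Finset.mem_biUnion]
    exact ⟨k, Finset.mem_range.2 (by omega), hA2 k _ hP⟩
  have hinj : Set.InjOn (fun P : ℤ[X] => P.coeff 1)
      {P | P ∈ weilPolys 1 q ∧ ∃ k : ℕ, k ≤ 4 ∧ P.coeff 1 ^ 2 = (k : ℤ) * q} := by
    rintro P ⟨hP, -⟩ Q ⟨hQ, -⟩ h
    ext n
    have hPd : P.natDegree = 2 := hP.2.1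
    have hQd : Q.natDegree = 2 := hQ.2.1
    match n with
    | 0 => rw [hP.2.2.1, hQ.2.2.1]
    | 1 => exact h
    | 2 =>
      have e1 : P.coeff 2 = 1 := by rw [← hPd]; exact hP.1
      have e2 : Q.coeff 2 = 1 := by rw [← hQd]; exact hQ.1
      rw [e1, e2]
    | (n + 3) =>
      rw [coeff_eq_zero_of_natDegree_lt (by omega), coeff_eq_zero_of_natDegree_lt (by omega)]
  refine (Set.ncard_le_ncard_of_injOn _ hmaps hinj (Finset.finite_toSet _)).trans ?_
  rw [Set.ncard_coe_finset]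
  refine Finset.card_biUnion_le.trans ?_
  refine (Finset.sum_le_sum fun k _ => hA1 k).trans ?_
  simp

end Pool.Agent.Lib.MP_021685_agD
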