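import Mathlib
import Pool.Agent.Lib.MP_021685_agD.Cycle
import Pool.Agent.Lib.MP_021685_agD.Sym

/-!
# Residue classes forcing a cycle on the pairs
-/

set_option autoImplicit false

open Polynomial

namespace Pool.Agent.Lib.MP_021685_agD

theorem FunEq.map {R R' : Type*} [CommRing R] [Nontrivial R'] [CommRing R'] {q : ℕ} {c : R}
    {P : R[X]} (hP : P.Monic) (h : FunEq q c P) (f : R →+* R') : FunEq q (f c) (P.map f) := by
  unfold FunEq at h ⊢
  have h2 := congrArg (Polynomial.map f) h
  rw [Polynomial.map_comp, Polynomial.map_mul, Polynomial.map_mul, map_C, map_X, map_C] at h2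
  have h3 : (P.reverse).map f = (P.map f).reverse := by
    rw [reverse, reverse, reflect_map, hP.natDegree_map]
  rw [h3, map_natCast] at h2
  exact h2

/-- The product of the quadratic polynomials of the conjugates. -/
noncomputable def prodQ {K' : Type*} [CommRing K'] (q l g : ℕ) (t : K') : K'[X] :=
  ∏ j ∈ Finset.range g, quad q (t ^ l ^ j)

section

variable {K' : Type*} [Field K']

theorem prodQ_monic (q l g : ℕ) (t : K') : (prodQ q l g t).Monic :=
  monic_prod_of_monic _ _ fun _ _ => quad_monic _ _

theorem prodQ_natDegree (q l g : ℕ) (t : K') : (prodQ q l g t).natDegree = 2 * g := by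
  rw [prodQ, natDegree_prod_of_monic _ _ fun _ _ => quad_monic _ _]
  simp [quad_natDegree, mul_comm]

theorem prodQ_funEq (q l g : ℕ) (t : K') : FunEq q ((q : K') ^ g) (prodQ q l g t) := by
  have h1 := FunEq.prod (Finset.range g) (fun _ => (q : K'))
    (fun j => quad q (t ^ l ^ j)) (fun k _ => funEq_quad q _)
  rw [Finset.prod_const, Finset.card_range] at h1
  exact h1

theorem prodQ_frob {l : ℕ} [hl : Fact l.Prime] [CharP K' l] (q g : ℕ) {t : K'}
    (ht : t ^ l ^ g = t) : (prodQ q l g t).map (frobenius K' l) = prodQ q l g t := by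
  have h1 : (prodQ q l g t).map (frobenius K' l) =
      ∏ j ∈ Finset.range g, quad q (t ^ l ^ (j + 1)) := by
    rw [prodQ, Polynomial.map_prod]
    apply Finset.prod_congr rfl
    intro j _
    rw [quad_map, frobenius_def, ← pow_mul, pow_succ]
  have h2 := Finset.prod_range_succ (fun j => quad q (t ^ l ^ j)) g
  rw [Finset.prod_range_succ', ht, pow_zero, pow_one] at h2
  rw [h1, prodQ]
  exact mul_right_cancel₀ (quad_monic q t).ne_zero h2

theorem prodQ_coeff_mem {l : ℕ} [hl : Fact l.Prime] [CharP K' l] (q g : ℕ) {t : K'}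
    (ht : t ^ l ^ g = t) (n : ℕ) : ∃ b : ZMod l, ZMod.castHom (dvd_refl l) K' b =
      (prodQ q l g t).coeff n := by
  apply mem_range_of_pow_eq
  have h := congrArg (fun p => coeff p n) (prodQ_frob q g ht)
  simp only [coeff_map, frobenius_def] at h
  exact h

theorem sum_pow_le {l : ℕ} (hl : 5 ≤ l) {g : ℕ} (hg : g ≠ 0) :
    4 * ∑ d ∈ Finset.Ico 1 g, l ^ d + 5 ≤ l ^ g := by
  obtain ⟨g, rfl⟩ := Nat.exists_eq_succ_of_ne_zero hg
  clear hg
  induction g with
  | zero => simpa using hl
  | succ g ih =>
    rw [Nat.succ_eq_add_one] at ih ⊢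
    rw [Finset.sum_Ico_succ_top (by omega), mul_add]
    calc 4 * ∑ d ∈ Finset.Ico 1 (g + 1), l ^ d + 4 * l ^ (g + 1) + 5
        = (4 * ∑ d ∈ Finset.Ico 1 (g + 1), l ^ d + 5) + 4 * l ^ (g + 1) := by ring
      _ ≤ l ^ (g + 1) + 4 * l ^ (g + 1) := Nat.add_le_add_right ih _
      _ = 5 * l ^ (g + 1) := by ring
      _ ≤ l * l ^ (g + 1) := Nat.mul_le_mul_right _ hl
      _ = l ^ (g + 1 + 1) := by ring

end

/-- There are many residue classes forcing a cycle on the pairs. -/
theorem exists_omega_cycle {l : ℕ} [hl : Fact l.Prime] (hl5 : 5 ≤ l) {q : ℕ} (hql : ¬ l ∣ q)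
    {g : ℕ} (hg : g ≠ 0) :
    ∃ Ω : Finset (Fin g → ZMod l), l ^ g ≤ 2 * g * Ω.card ∧
      ∀ P ∈ weilPolys g q,
        (fun k : Fin g => (P.map (Int.castRingHom (ZMod l))).coeff (2 * g - 1 - k)) ∈ Ω →
        CycleAt q g P l := by
  classical
  let K' := GaloisField l g
  let _ : Fintype K' := Fintype.ofFinite K'
  have hcard : Fintype.card K' = l ^ g := by
    rw [← Nat.card_eq_fintype_card]
    exact GaloisField.card l g hg
  have hpow : ∀ t : K', t ^ l ^ g = t := by
    intro t
    rw [← hcard]
    exact FiniteField.pow_card t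
  have hqK : (q : K') ≠ 0 := by
    intro h
    exact hql ((CharP.cast_eq_zero_iff K' l q).1 h)
  set 𝒯 : Finset K' := Finset.univ.filter fun t =>
    (∀ d, 0 < d → d < g → t ^ l ^ d ≠ t) ∧ t ^ 2 - 4 * (q : K') ≠ 0 with h𝒯
  -- the size of `𝒯`
  have h𝒯card : l ^ g ≤ 2 * 𝒯.card := by
    have h1 : (Finset.univ : Finset K') ⊆ 𝒯 ∪ ((Finset.Ico 1 g).biUnion
        (fun d => Finset.univ.filter fun t : K' => t ^ l ^ d = t) ∪
        Finset.univ.filter fun t : K' => t ^ 2 - 4 * (q : K') = 0) := by
      intro t _
      rw [Finset.mem_union, Finset.mem_union, Finset.mem_biUnion, h𝒯, Finset.mem_filter,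
        Finset.mem_filter]
      by_cases h2 : t ^ 2 - 4 * (q : K') = 0
      · right; right; exact ⟨Finset.mem_univ _, h2⟩
      · by_cases h3 : ∀ d, 0 < d → d < g → t ^ l ^ d ≠ t
        · left; exact ⟨Finset.mem_univ _, h3, h2⟩
        · push Not at h3
          obtain ⟨d, hd1, hd2, hd3⟩ := h3
          right; left
          exact ⟨d, Finset.mem_Ico.2 ⟨hd1, hd2⟩, Finset.mem_filter.2 ⟨Finset.mem_univ _, hd3⟩⟩
    have h2 := (Finset.card_le_card h1).trans (Finset.card_union_le _ _)
    have h3 := Finset.card_union_le ((Finset.Ico 1 g).biUnion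
        (fun d => Finset.univ.filter fun t : K' => t ^ l ^ d = t))
        (Finset.univ.filter fun t : K' => t ^ 2 - 4 * (q : K') = 0)
    have h4 : ((Finset.Ico 1 g).biUnion
        (fun d => Finset.univ.filter fun t : K' => t ^ l ^ d = t)).card ≤
        ∑ d ∈ Finset.Ico 1 g, l ^ d := by
      refine Finset.card_biUnion_le.trans (Finset.sum_le_sum fun d hd => ?_)
      have hd1 : d ≠ 0 := by
        have := (Finset.mem_Ico.1 hd).1
        omega
      have hne : (X ^ l ^ d - X : K'[X]) ≠ 0 :=
        FiniteField.X_pow_card_pow_sub_X_ne_zero K' hd1 hl.out.one_lt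
      have h5 : (Finset.univ.filter fun t : K' => t ^ l ^ d = t) ⊆
          (X ^ l ^ d - X : K'[X]).roots.toFinset := by
        intro t ht
        rw [Multiset.mem_toFinset, mem_roots hne, IsRoot.def, eval_sub, eval_pow, eval_X,
          sub_eq_zero]
        exact (Finset.mem_filter.1 ht).2
      refine (Finset.card_le_card h5).trans ((Multiset.toFinset_card_le _).trans ?_)
      refine (card_roots' _).trans ?_
      rw [FiniteField.X_pow_card_pow_sub_X_natDegree_eq K' hd1 hl.out.one_lt]
    have h6 : (Finset.univ.filter fun t : K' => t ^ 2 - 4 * (q : K') = 0).card ≤ 2 := by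
      have hmon : (X ^ 2 - C (4 * (q : K')) : K'[X]).Monic := monic_X_pow_sub_C _ (by norm_num)
      have h5 : (Finset.univ.filter fun t : K' => t ^ 2 - 4 * (q : K') = 0) ⊆
          (X ^ 2 - C (4 * (q : K')) : K'[X]).roots.toFinset := by
        intro t ht
        rw [Multiset.mem_toFinset, mem_roots hmon.ne_zero, IsRoot.def, eval_sub, eval_pow,
          eval_X, eval_C]
        exact (Finset.mem_filter.1 ht).2
      refine (Finset.card_le_card h5).trans ((Multiset.toFinset_card_le _).trans ?_)
      refine (card_roots' _).trans ?_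
      rw [natDegree_X_pow_sub_C]
    have h7 := sum_pow_le hl5 hg
    rw [Finset.card_univ, hcard] at h2
    omega
  -- the coefficients
  have hex : ∀ t : K', ∃ v : Fin g → ZMod l, ∀ k, ZMod.castHom (dvd_refl l) K' (v k) =
      (prodQ q l g t).coeff (2 * g - 1 - k) := by
    intro t
    have h1 := fun k : Fin g => prodQ_coeff_mem q g (hpow t) (2 * g - 1 - k)
    choose v hv using h1
    exact ⟨v, hv⟩
  choose Ψ hΨ using hex
  have hmain : ∀ (t : K') (B : K'[X]), B.natDegree = 2 * g → B.Monic →
      FunEq q ((q : K') ^ g) B →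
      (∀ k : Fin g, B.coeff (2 * g - 1 - k) = ZMod.castHom (dvd_refl l) K' (Ψ t k)) →
      B = prodQ q l g t := by
    intro t B hB1 hB2 hB3 hB4
    refine eq_of_upper (d := 2 * g) hqK hB1 (prodQ_natDegree q l g t) hB2 (prodQ_monic q l g t)
      hB3 (prodQ_funEq q l g t) ?_
    intro i hi
    rw [Nat.mul_div_cancel_left _ (by norm_num : 0 < 2)] at hi
    have h1 := hB4 ⟨i, hi⟩
    rw [hΨ t ⟨i, hi⟩] at h1
    exact h1
  refine ⟨𝒯.image Ψ, ?_, ?_⟩
  · have h1 : 𝒯.card ≤ g * (𝒯.image Ψ).card := by
      apply Finset.card_le_mul_card_image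
      intro b hb
      obtain ⟨t₀, ht₀, rfl⟩ := Finset.mem_image.1 hb
      have h2 : 𝒯.filter (fun a => Ψ a = Ψ t₀) ⊆
          (Finset.range g).image fun j => t₀ ^ l ^ j := by
        intro t ht
        have h3 := (Finset.mem_filter.1 ht).2
        have h4 : prodQ q l g t = prodQ q l g t₀ := by
          apply hmain t₀ _ (prodQ_natDegree q l g t) (prodQ_monic q l g t)
            (prodQ_funEq q l g t)
          intro k
          rw [← h3, hΨ]
        by_contra hcon
        have h5 : quad q t ∣ prodQ q l g t₀ := by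
          rw [← h4, prodQ]
          have h6 := Finset.dvd_prod_of_mem (fun j => quad q (t ^ l ^ j))
            (Finset.mem_range.2 (Nat.pos_of_ne_zero hg))
          simpa using h6
        have h6 : IsCoprime (quad q t) (prodQ q l g t₀) := by
          rw [prodQ]
          apply IsCoprime.prod_right
          intro j hj
          apply quad_coprime q hqK
          intro h7
          apply hcon
          rw [Finset.mem_image]
          exact ⟨j, hj, h7.symm⟩
        have h7 := h6.isUnit_of_dvd' dvd_rfl h5
        have h8 := (quad_monic q t).isUnit_iff.1 h7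
        have h9 := quad_natDegree q t
        rw [h8, natDegree_one] at h9
        exact absurd h9 (by norm_num)
      refine (Finset.card_le_card h2).trans (Finset.card_image_le.trans ?_)
      rw [Finset.card_range]
    calc l ^ g ≤ 2 * 𝒯.card := h𝒯card
      _ ≤ 2 * (g * (𝒯.image Ψ).card) := Nat.mul_le_mul_left 2 h1
      _ = 2 * g * (𝒯.image Ψ).card := by ring
  · intro P hP hmem
    obtain ⟨t, ht, hPt⟩ := Finset.mem_image.1 hmem
    obtain ⟨-, ht1, ht2⟩ := Finset.mem_filter.1 ht
    have h1 : P.map (Int.castRingHom K') = prodQ q l g t := by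
      apply hmain t _ _ (hP.1.map _)
      · have h2 := circle_funEq (weil_subset_circle hP)
        have h3 := h2.map hP.1 (Int.castRingHom K')
        rw [hP.2.2.1] at h3
        simpa using h3
      · intro k
        rw [hPt]
        simp
      · rw [hP.1.natDegree_map, hP.2.1]
    have hinj : ∀ n : ℕ, Function.Injective fun x : K' => x ^ l ^ n := by
      intro n x y h
      have h2 := (iterateFrobenius K' l n).injective
      exact h2 (by simpa [iterateFrobenius_def] using h)
    refine ⟨K', inferInstance, inferInstance, inferInstance, t, h1, hpow t, ?_, ?_⟩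
    · have key : ∀ i j, i < j → j < g → t ^ l ^ i ≠ t ^ l ^ j := by
        intro i j hij hj h
        apply ht1 (j - i) (by omega) (by omega)
        apply hinj i
        simp only
        rw [← pow_mul, ← pow_add, Nat.sub_add_cancel hij.le, h]
      intro i j hi hj h
      rcases lt_trichotomy i j with h2 | h2 | h2
      · exact absurd h (key i j h2 hj)
      · exact h2
      · exact absurd h.symm (key j i h2 hi)
    · intro j _ h
      apply ht2
      apply hinj j
      simp only
      rw [zero_pow (pow_pos hl.out.pos j).ne']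
      have h2 : iterateFrobenius K' l j (t ^ 2 - 4 * (q : K')) =
          (t ^ l ^ j) ^ 2 - 4 * (q : K') := by
        rw [map_sub, map_mul, map_pow, map_natCast, map_ofNat, iterateFrobenius_def]
      rw [← iterateFrobenius_def, h2, h]

end Pool.Agent.Lib.MP_021685_agD
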