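import Mathlib
import Pool.Agent.Lib.MP_021685_agD.Count

/-!
# Many ordinary Weil polynomials
-/

set_option autoImplicit false

open Polynomial

namespace Pool.Agent.Lib.MP_021685_agD

/-- The symmetric polynomials. -/
noncomputable def sym (g q k : ℕ) : ℤ[X] :=
  if k = 0 then X ^ g else X ^ (g + k) + C ((q : ℤ) ^ k) * X ^ (g - k)

theorem sym_coeff {g q k j : ℕ} (hk : k ≤ g) :
    (sym g q k).coeff (g + j) = if j = k then 1 else 0 := by
  unfold sym
  by_cases h0 : k = 0
  · rw [if_pos h0, coeff_X_pow, h0]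
    by_cases hj : j = 0
    · simp [hj]
    · rw [if_neg (by omega), if_neg hj]
  · rw [if_neg h0, coeff_add, coeff_X_pow, coeff_C_mul, coeff_X_pow]
    rw [if_neg (show ¬ g + j = g - k by omega), mul_zero, add_zero]
    by_cases hj : j = k
    · rw [if_pos (by omega), if_pos hj]
    · rw [if_neg (by omega), if_neg hj]

theorem sym_coeff_zero {g q k : ℕ} (hk : k < g) : (sym g q k).coeff 0 = 0 := by
  unfold sym
  by_cases h0 : k = 0
  · rw [if_pos h0, coeff_X_pow, if_neg (by omega)]
  · rw [if_neg h0, coeff_add, coeff_X_pow, coeff_C_mul, coeff_X_pow,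
      if_neg (by omega), if_neg (by omega)]
    simp

theorem sym_coeff_zero' {g q : ℕ} (hg : g ≠ 0) : (sym g q g).coeff 0 = (q : ℤ) ^ g := by
  unfold sym
  rw [if_neg hg, coeff_add, coeff_X_pow, coeff_C_mul, coeff_X_pow,
      if_neg (by omega), if_pos (by omega)]
  simp

theorem sym_natDegree_le {g q k : ℕ} (hk : k ≤ g) : (sym g q k).natDegree ≤ 2 * g := by
  unfold sym
  by_cases h0 : k = 0
  · rw [if_pos h0]
    exact (natDegree_X_pow_le _).trans (by omega)
  · rw [if_neg h0]
    refine (natDegree_add_le _ _).trans (max_le ?_ ?_)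
    · exact (natDegree_X_pow_le _).trans (by omega)
    · exact (natDegree_C_mul_X_pow_le _ _).trans (by omega)

/-- The polynomials used for the lower bound. -/
noncomputable def lowPoly (g q : ℕ) (b : Fin g → ℤ) : ℤ[X] :=
  sym g q g + ∑ k : Fin g, C (b k) * sym g q k

theorem lowPoly_coeff {g q : ℕ} (b : Fin g → ℤ) (j : Fin g) :
    (lowPoly g q b).coeff (g + j) = b j := by
  unfold lowPoly
  rw [coeff_add, sym_coeff le_rfl, if_neg (by have := j.2; omega), zero_add, finsetSum_coeff]
  rw [Finset.sum_eq_single j]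
  · rw [coeff_C_mul, sym_coeff (by have := j.2; omega), if_pos rfl, mul_one]
  · intro k _ hk
    rw [coeff_C_mul, sym_coeff (by have := k.2; omega), if_neg (fun h => hk (Fin.ext h.symm)),
      mul_zero]
  · intro h
    exact (h (Finset.mem_univ _)).elim

theorem lowPoly_coeff_top {g q : ℕ} (b : Fin g → ℤ) :
    (lowPoly g q b).coeff (2 * g) = 1 := by
  unfold lowPoly
  rw [two_mul, coeff_add, sym_coeff le_rfl, if_pos rfl, finsetSum_coeff, Finset.sum_eq_zero,
    add_zero]
  intro k _
  rw [coeff_C_mul, sym_coeff (by have := k.2; omega), if_neg (by have := k.2; omega), mul_zero]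

theorem lowPoly_coeff_zero {g q : ℕ} (hg : g ≠ 0) (b : Fin g → ℤ) :
    (lowPoly g q b).coeff 0 = (q : ℤ) ^ g := by
  unfold lowPoly
  rw [coeff_add, sym_coeff_zero' hg, finsetSum_coeff, Finset.sum_eq_zero, add_zero]
  intro k _
  rw [coeff_C_mul, sym_coeff_zero k.2, mul_zero]

theorem lowPoly_natDegree_le {g q : ℕ} (b : Fin g → ℤ) :
    (lowPoly g q b).natDegree ≤ 2 * g := by
  unfold lowPoly
  refine (natDegree_add_le _ _).trans (max_le (sym_natDegree_le le_rfl) ?_)
  apply natDegree_sum_le_of_forall_le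
  intro k _
  exact (natDegree_C_mul_le _ _).trans (sym_natDegree_le (by have := k.2; omega))

theorem lowPoly_natDegree {g q : ℕ} (b : Fin g → ℤ) : (lowPoly g q b).natDegree = 2 * g := by
  refine le_antisymm (lowPoly_natDegree_le b) (le_natDegree_of_ne_zero ?_)
  rw [lowPoly_coeff_top]
  exact one_ne_zero

theorem lowPoly_monic {g q : ℕ} (b : Fin g → ℤ) : (lowPoly g q b).Monic := by
  rw [Monic, leadingCoeff, lowPoly_natDegree, lowPoly_coeff_top]

/-- The factor `1` or `2 cos (k θ)`. -/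
noncomputable def ck (k : ℕ) (θ : ℝ) : ℝ := if k = 0 then 1 else 2 * Real.cos (k * θ)

theorem ck_abs (k : ℕ) (θ : ℝ) : |ck k θ| ≤ 2 := by
  unfold ck
  by_cases h0 : k = 0
  · rw [if_pos h0]; norm_num
  · rw [if_neg h0, abs_mul]
    have := Real.abs_cos_le_one (k * θ)
    rw [abs_of_pos (by norm_num : (0 : ℝ) < 2)]
    linarith

theorem ck_continuous (k : ℕ) : Continuous (ck k) := by
  unfold ck
  by_cases h0 : k = 0
  · simp only [if_pos h0]; exact continuous_const
  · simp only [if_neg h0]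
    fun_prop

theorem sym_eval {g q k : ℕ} (hq : q ≠ 0) (hk : k ≤ g) (θ : ℝ) :
    aeval ((Real.sqrt q : ℂ) * Complex.exp (θ * Complex.I)) (sym g q k) =
      ((Real.sqrt q : ℂ) * Complex.exp (θ * Complex.I)) ^ g *
        ((Real.sqrt q ^ k * ck k θ : ℝ) : ℂ) := by
  set s : ℝ := Real.sqrt q with hs
  have hs1 := one_le_sqrt hq
  have hs0 : (s : ℂ) ≠ 0 := by
    rw [Ne, Complex.ofReal_eq_zero]
    intro h
    rw [← hs, h] at hs1
    norm_num at hs1
  have hsq : (s : ℂ) ^ 2 = q := by
    rw [← Complex.ofReal_pow, hs, Real.sq_sqrt (Nat.cast_nonneg _)]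
    simp
  set E : ℂ := Complex.exp (θ * Complex.I) with hE
  have hE0 : E ≠ 0 := Complex.exp_ne_zero _
  unfold sym ck
  by_cases h0 : k = 0
  · rw [if_pos h0, if_pos h0, h0]
    simp
  · rw [if_neg h0, if_neg h0]
    have h1 : ((2 * Real.cos (k * θ) : ℝ) : ℂ) = E ^ k + (E ^ k)⁻¹ := by
      push_cast
      rw [Complex.two_cos, hE, ← Complex.exp_nat_mul, ← Complex.exp_neg]
      congr 2 <;> ring
    have h2 : (s : ℂ) ^ (2 * k) = (q : ℂ) ^ k := by rw [pow_mul, hsq]
    rw [Complex.ofReal_mul, h1]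
    simp only [map_add, map_mul, map_pow, aeval_X]
    have h3 : ((s : ℂ) * E) ^ (g - k) = ((s : ℂ) * E) ^ g * (((s : ℂ) * E) ^ k)⁻¹ :=
      pow_sub₀ _ (mul_ne_zero hs0 hE0) hk
    have h4 : (algebraMap ℤ ℂ) (q : ℤ) = (q : ℂ) := by simp
    have h5 : aeval ((s : ℂ) * E) (C (q : ℤ) : ℤ[X]) = (q : ℂ) := by
      rw [aeval_C, h4]
    rw [h3, h5, ← h2, pow_add, mul_pow (s : ℂ) E k]
    push_cast
    have hsk : (s : ℂ) ^ k ≠ 0 := pow_ne_zero _ hs0
    have hEk : E ^ k ≠ 0 := pow_ne_zero _ hE0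
    field_simp
    ring

theorem lowPoly_mem {g q : ℕ} (hg : g ≠ 0) (hq : q ≠ 0) (b : Fin g → ℤ)
    (hb : ∀ k : Fin g, 2 * g * |(b k : ℝ)| ≤ Real.sqrt q ^ (g - k)) :
    lowPoly g q b ∈ weilPolys g q := by
  classical
  refine ⟨lowPoly_monic b, lowPoly_natDegree b, lowPoly_coeff_zero hg b, ?_⟩
  set s : ℝ := Real.sqrt q with hs
  have hs1 : 1 ≤ s := one_le_sqrt hq
  have hs0 : 0 < s := by linarith
  have hg0 : (0 : ℝ) < g := by exact_mod_cast Nat.pos_of_ne_zero hg
  set P := lowPoly g q b with hP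
  let R : ℝ → ℝ := fun θ => ∑ k : Fin g, (b k : ℝ) * (s ^ (k : ℕ) * ck k θ)
  let Φ : ℝ → ℝ := fun θ => s ^ g * ck g θ + R θ
  have heval : ∀ θ : ℝ, aeval ((s : ℂ) * Complex.exp (θ * Complex.I)) P =
      ((s : ℂ) * Complex.exp (θ * Complex.I)) ^ g * (Φ θ : ℂ) := by
    intro θ
    rw [hP, lowPoly, map_add, sym_eval hq le_rfl, map_sum]
    have h1 : ∀ k : Fin g, aeval ((s : ℂ) * Complex.exp (θ * Complex.I))
        (C (b k) * sym g q k) = ((s : ℂ) * Complex.exp (θ * Complex.I)) ^ g *
          (((b k : ℝ) * (s ^ (k : ℕ) * ck k θ) : ℝ) : ℂ) := by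
      intro k
      rw [map_mul, aeval_C, sym_eval hq (by have := k.2; omega)]
      rw [Complex.ofReal_mul (b k : ℝ)]
      simp only [eq_intCast, Complex.ofReal_intCast]
      ring
    rw [Finset.sum_congr rfl fun k _ => h1 k, ← Finset.mul_sum, ← mul_add]
    simp only [Φ, R]
    rw [Complex.ofReal_add, Complex.ofReal_sum]
  have hR : ∀ θ, |R θ| ≤ s ^ g := by
    intro θ
    calc |R θ| ≤ ∑ k : Fin g, |(b k : ℝ) * (s ^ (k : ℕ) * ck k θ)| :=
          Finset.abs_sum_le_sum_abs _ _
      _ ≤ ∑ _k : Fin g, s ^ g / g := by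
          apply Finset.sum_le_sum
          intro k _
          rw [abs_mul, abs_mul, abs_of_pos (pow_pos hs0 _), le_div_iff₀ hg0]
          have h1 := ck_abs k θ
          have h2 := hb k
          have h3 : s ^ g = s ^ (g - (k : ℕ)) * s ^ (k : ℕ) := by
            rw [← pow_add]
            congr 1
            have := k.2
            omega
          rw [h3]
          calc |(b k : ℝ)| * (s ^ (k : ℕ) * |ck k θ|) * g
              ≤ |(b k : ℝ)| * (s ^ (k : ℕ) * 2) * g := by gcongr
            _ = (2 * g * |(b k : ℝ)|) * s ^ (k : ℕ) := by ring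
            _ ≤ s ^ (g - (k : ℕ)) * s ^ (k : ℕ) := by gcongr
      _ = s ^ g := by
          rw [Finset.sum_const, Finset.card_univ, Fintype.card_fin, nsmul_eq_mul]
          field_simp
  have hΦc : Continuous Φ := by
    apply Continuous.add
    · exact continuous_const.mul (ck_continuous g)
    · apply continuous_finsetSum
      intro k _
      exact continuous_const.mul (continuous_const.mul (ck_continuous k))
  have hsg : 0 < s ^ g := pow_pos hs0 g
  have hΦj : ∀ j : ℕ, 0 < (-1 : ℝ) ^ j * Φ (j * Real.pi / g) := by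
    intro j
    have h1 : ck g (j * Real.pi / g) = 2 * (-1) ^ j := by
      unfold ck
      rw [if_neg hg, mul_div_cancel₀ _ hg0.ne', Real.cos_nat_mul_pi]
    have h2 : (-1 : ℝ) ^ j * (-1) ^ j = 1 := by
      rw [← mul_pow]; norm_num
    have h3 : (-1 : ℝ) ^ j * Φ (j * Real.pi / g) =
        2 * s ^ g + (-1 : ℝ) ^ j * R (j * Real.pi / g) := by
      simp only [Φ]
      rw [h1]
      linear_combination (2 * s ^ g) * h2
    have h4 : |(-1 : ℝ) ^ j * R (j * Real.pi / g)| ≤ s ^ g := by
      rw [abs_mul, abs_pow, abs_neg, abs_one, one_pow, one_mul]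
      exact hR _
    rw [h3]
    have h5 := (abs_le.1 h4).1
    linarith
  have hex : ∀ j : Fin (2 * g), ∃ t : ℝ, j * Real.pi / g < t ∧ t < (j + 1) * Real.pi / g ∧
      Φ t = 0 := by
    intro j
    have hle : (j : ℝ) * Real.pi / g ≤ (j + 1) * Real.pi / g := by
      have := Real.pi_pos
      gcongr
      linarith
    have h1 := hΦj j
    have h2 := hΦj (j + 1)
    rw [pow_succ] at h2
    push_cast at h2
    rcases neg_one_pow_eq_or ℝ (j : ℕ) with h | h
    · rw [h] at h1 h2
      obtain ⟨t, ht, ht0⟩ := intermediate_value_Ioo' hle hΦc.continuousOn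
        (show (0 : ℝ) ∈ Set.Ioo (Φ ((j + 1) * Real.pi / g)) (Φ (j * Real.pi / g)) from
          ⟨by linarith, by linarith⟩)
      exact ⟨t, ht.1, ht.2, ht0⟩
    · rw [h] at h1 h2
      obtain ⟨t, ht, ht0⟩ := intermediate_value_Ioo hle hΦc.continuousOn
        (show (0 : ℝ) ∈ Set.Ioo (Φ (j * Real.pi / g)) (Φ ((j + 1) * Real.pi / g)) from
          ⟨by linarith, by linarith⟩)
      exact ⟨t, ht.1, ht.2, ht0⟩
  choose t ht1 ht2 ht3 using hex
  have hpi := Real.pi_pos
  have hlt : ∀ j j' : Fin (2 * g), j < j' → t j < t j' := by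
    intro j j' h
    have h1 : ((j : ℕ) : ℝ) + 1 ≤ ((j' : ℕ) : ℝ) := by exact_mod_cast h
    refine (ht2 j).trans (lt_of_le_of_lt ?_ (ht1 j'))
    gcongr
  have ht0 : ∀ j, 0 < t j := fun j => lt_of_le_of_lt (by positivity) (ht1 j)
  have ht2π : ∀ j, t j < 2 * Real.pi := by
    intro j
    refine lt_of_lt_of_le (ht2 j) ?_
    rw [div_le_iff₀ hg0]
    have h1 : ((j : ℕ) : ℝ) + 1 ≤ 2 * g := by exact_mod_cast j.2
    calc ((j : ℝ) + 1) * Real.pi ≤ (2 * g) * Real.pi := by gcongr
      _ = 2 * Real.pi * g := by ring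
  let z : Fin (2 * g) → ℂ := fun j => (s : ℂ) * Complex.exp (t j * Complex.I)
  have hz : Function.Injective z := by
    intro j j' h
    have hsC : (s : ℂ) ≠ 0 := by
      rw [Ne, Complex.ofReal_eq_zero]
      exact hs0.ne'
    have h1 : Complex.exp (t j * Complex.I) = Complex.exp (t j' * Complex.I) :=
      mul_left_cancel₀ hsC h
    obtain ⟨n, hn⟩ := Complex.exp_eq_exp_iff_exists_int.1 h1
    have h2 : t j = t j' + n * (2 * Real.pi) := by
      have h3 : ((t j : ℂ)) * Complex.I = ((t j' + n * (2 * Real.pi) : ℝ) : ℂ) * Complex.I := by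
        rw [hn]
        push_cast
        ring
      exact_mod_cast mul_right_cancel₀ Complex.I_ne_zero h3
    have h4 : n = 0 := by
      have h5 := ht0 j
      have h6 := ht0 j'
      have h7 := ht2π j
      have h8 := ht2π j'
      have h9 : (n : ℝ) < 1 := by
        by_contra hcon
        push Not at hcon
        nlinarith
      have h10 : (-1 : ℝ) < n := by
        by_contra hcon
        push Not at hcon
        nlinarith
      have h11 : n < 1 := by exact_mod_cast h9
      have h12 : -1 < n := by exact_mod_cast h10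
      omega
    rw [h4, Int.cast_zero, zero_mul, add_zero] at h2
    rcases lt_trichotomy j j' with h5 | h5 | h5
    · exact absurd h2 (hlt _ _ h5).ne
    · exact h5
    · exact absurd h2 (hlt _ _ h5).ne'
  set B : ℂ[X] := P.map (Int.castRingHom ℂ) with hB
  have hBmon : B.Monic := (lowPoly_monic b).map _
  have hsub : Finset.univ.image z ⊆ B.roots.toFinset := by
    intro w hw
    obtain ⟨j, -, rfl⟩ := Finset.mem_image.1 hw
    rw [Multiset.mem_toFinset, mem_roots hBmon.ne_zero, IsRoot.def, hB, eval_map]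
    have h1 := heval (t j)
    rw [ht3 j, Complex.ofReal_zero, mul_zero] at h1
    exact h1
  have hcard : B.roots.toFinset.card ≤ (Finset.univ.image z).card := by
    rw [Finset.card_image_of_injective _ hz, Finset.card_univ, Fintype.card_fin]
    refine (Multiset.toFinset_card_le _).trans ((card_roots' B).trans ?_)
    rw [hB, (lowPoly_monic b).natDegree_map, lowPoly_natDegree]
  have heq := Finset.eq_of_subset_of_card_le hsub hcard
  intro w hw
  have hw' : w ∈ Finset.univ.image z := by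
    rw [heq, Multiset.mem_toFinset, mem_roots hBmon.ne_zero, IsRoot.def, hB, eval_map]
    exact hw
  obtain ⟨j, -, rfl⟩ := Finset.mem_image.1 hw'
  have h1 : ‖z j‖ = s := by
    simp only [z]
    rw [norm_mul, Complex.norm_exp_ofReal_mul_I, mul_one, Complex.norm_real, Real.norm_eq_abs,
      abs_of_pos hs0]
  rw [h1, hs, Real.sq_sqrt (Nat.cast_nonneg _)]

theorem isCoprime_iff_of_primePow {q p : ℕ} {a : ℕ} (hp : p.Prime) (hq : p ^ a = q)
    {b : ℤ} (hb : ¬ (p : ℤ) ∣ b) : IsCoprime b (q : ℤ) := by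
  rw [← hq]
  push_cast
  apply IsCoprime.pow_right
  apply IsCoprime.symm
  exact (Nat.prime_iff_prime_int.1 hp).irreducible.coprime_iff_not_dvd.2 hb

theorem card_coprime_ge {q : ℕ} (hq : IsPrimePow q) (M : ℕ) :
    ∃ A : Finset ℤ, (∀ b ∈ A, |b| ≤ M ∧ IsCoprime b (q : ℤ)) ∧ M ≤ A.card := by
  classical
  obtain ⟨p, a, hp, ha, hpa⟩ := (isPrimePow_nat_iff q).1 hq
  have hp2 : (2 : ℤ) ≤ p := by exact_mod_cast hp.two_le
  let f : ℤ → ℤ := fun b => if (p : ℤ) ∣ b then -(b - 1) else b
  refine ⟨(Finset.Icc (1 : ℤ) M).image f, ?_, ?_⟩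
  · intro c hc
    obtain ⟨b, hb, rfl⟩ := Finset.mem_image.1 hc
    rw [Finset.mem_Icc] at hb
    by_cases h : (p : ℤ) ∣ b
    · simp only [f, if_pos h]
      refine ⟨by rw [abs_le]; constructor <;> omega, ?_⟩
      apply isCoprime_iff_of_primePow hp hpa
      intro h1
      have h2 : (p : ℤ) ∣ 1 := by
        have h3 := dvd_add h h1
        have h4 : b + -(b - 1) = 1 := by ring
        rwa [h4] at h3
      have := Int.le_of_dvd one_pos h2
      omega
    · simp only [f, if_neg h]
      exact ⟨by rw [abs_le]; constructor <;> omega, isCoprime_iff_of_primePow hp hpa h⟩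
  · rw [Finset.card_image_of_injOn, Int.card_Icc]
    · omega
    · intro b hb b' hb' h
      rw [Finset.mem_coe, Finset.mem_Icc] at hb hb'
      simp only [f] at h
      by_cases h1 : (p : ℤ) ∣ b <;> by_cases h2 : (p : ℤ) ∣ b'
      · rw [if_pos h1, if_pos h2] at h
        omega
      · rw [if_pos h1, if_neg h2] at h
        omega
      · rw [if_neg h1, if_pos h2] at h
        omega
      · rw [if_neg h1, if_neg h2] at h
        exact h

end Pool.Agent.Lib.MP_021685_agD
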