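import Mathlib
import Pool.Agent.Lib.MP_021685_agD.Sym
import Pool.Agent.Lib.MP_021685_agD.Alg

/-!
# Residue classes forcing a sign change
-/

set_option autoImplicit false

open Polynomial

namespace Pool.Agent.Lib.MP_021685_agD

section squares

variable {l : ℕ} [hl : Fact l.Prime]

/-- `t` with `t ^ 2 - 4 q` a nonzero square. -/
noncomputable def SQ (q l : ℕ) [Fact l.Prime] : Finset (ZMod l) := by
  classical
  exact Finset.univ.filter fun t => IsSquare (t ^ 2 - 4 * (q : ZMod l)) ∧ t ^ 2 - 4 * (q : ZMod l) ≠ 0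

/-- `t` with `t ^ 2 - 4 q` not a square. -/
noncomputable def NS (q l : ℕ) [Fact l.Prime] : Finset (ZMod l) := by
  classical
  exact Finset.univ.filter fun t => ¬ IsSquare (t ^ 2 - 4 * (q : ZMod l))

theorem mem_SQ {q : ℕ} {t : ZMod l} : t ∈ SQ q l ↔
    IsSquare (t ^ 2 - 4 * (q : ZMod l)) ∧ t ^ 2 - 4 * (q : ZMod l) ≠ 0 := by
  classical
  simp [SQ]

theorem mem_NS {q : ℕ} {t : ZMod l} : t ∈ NS q l ↔ ¬ IsSquare (t ^ 2 - 4 * (q : ZMod l)) := by
  classical
  simp [NS]

theorem two_ne_zero_zmod (hl2 : l ≠ 2) : (2 : ZMod l) ≠ 0 := by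
  intro h
  have h3 : ((2 : ℕ) : ZMod l) = 0 := by exact_mod_cast h
  rw [ZMod.natCast_eq_zero_iff] at h3
  exact hl2 ((Nat.prime_dvd_prime_iff_eq hl.out Nat.prime_two).1 h3)

theorem card_sq_le (c : ZMod l) : (Finset.univ.filter fun s : ZMod l => s * s = c).card ≤ 2 := by
  classical
  by_cases h : ∃ r : ZMod l, r * r = c
  · obtain ⟨r, hr⟩ := h
    have h1 : (Finset.univ.filter fun s : ZMod l => s * s = c) ⊆ {r, -r} := by
      intro s hs
      rw [Finset.mem_filter] at hs
      have h2 : s * s = r * r := by rw [hs.2, hr]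
      rcases mul_self_eq_mul_self_iff.1 h2 with h | h
      · exact Finset.mem_insert.2 (Or.inl h)
      · exact Finset.mem_insert.2 (Or.inr (Finset.mem_singleton.2 h))
    exact (Finset.card_le_card h1).trans Finset.card_le_two
  · have h1 : (Finset.univ.filter fun s : ZMod l => s * s = c) = ∅ := by
      apply Finset.filter_eq_empty_iff.2
      intro s _ hs
      exact h ⟨s, hs⟩
    rw [h1]
    simp

theorem card_pairs {q : ℕ} (hl2 : l ≠ 2) (hql : ¬ l ∣ q) :
    (Finset.univ.filter fun p : ZMod l × ZMod l => p.1 ^ 2 - 4 * (q : ZMod l) = p.2 * p.2).card =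
      l - 1 := by
  classical
  have h2 := two_ne_zero_zmod (l := l) hl2
  have hq : (q : ZMod l) ≠ 0 := by rwa [Ne, ZMod.natCast_eq_zero_iff]
  have h4 : (4 : ZMod l) ≠ 0 := by
    have : (4 : ZMod l) = 2 * 2 := by norm_num
    rw [this]
    exact mul_ne_zero h2 h2
  have h5 : (Finset.univ.erase (0 : ZMod l)).card = l - 1 := by
    rw [Finset.card_erase_of_mem (Finset.mem_univ _), Finset.card_univ, ZMod.card]
  rw [← h5]
  refine Finset.card_bij' (fun p _ => p.1 - p.2) (fun u _ => ((u + 4 * q / u) / 2,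
    (4 * q / u - u) / 2)) ?_ ?_ ?_ ?_
  · intro p hp
    rw [Finset.mem_filter] at hp
    rw [Finset.mem_erase]
    refine ⟨fun h => ?_, Finset.mem_univ _⟩
    have h6 : (p.1 - p.2) * (p.1 + p.2) = 4 * q := by linear_combination hp.2
    rw [h, zero_mul] at h6
    exact mul_ne_zero h4 hq h6.symm
  · intro u hu
    rw [Finset.mem_erase] at hu
    rw [Finset.mem_filter]
    refine ⟨Finset.mem_univ _, ?_⟩
    have hu0 := hu.1
    field_simp
    ring
  · intro p hp
    rw [Finset.mem_filter] at hp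
    have h6 : (p.1 - p.2) * (p.1 + p.2) = 4 * q := by linear_combination hp.2
    have h7 : p.1 - p.2 ≠ 0 := by
      intro h
      rw [h, zero_mul] at h6
      exact mul_ne_zero h4 hq h6.symm
    have h8 : 4 * (q : ZMod l) / (p.1 - p.2) = p.1 + p.2 := by
      rw [div_eq_iff h7, ← h6, mul_comm]
    apply Prod.ext
    · simp only [h8]
      field_simp
      ring
    · simp only [h8]
      field_simp
      ring
  · intro u hu
    rw [Finset.mem_erase] at hu
    have hu0 := hu.1
    field_simp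
    ring

theorem card_SQ_NS {q : ℕ} (hl2 : l ≠ 2) (hql : ¬ l ∣ q) :
    l - 5 ≤ 2 * (SQ q l).card ∧ l - 5 ≤ 2 * (NS q l).card := by
  classical
  have h2 := two_ne_zero_zmod (l := l) hl2
  set Z : Finset (ZMod l) := Finset.univ.filter fun t => t ^ 2 - 4 * (q : ZMod l) = 0 with hZ
  set Pr : Finset (ZMod l × ZMod l) :=
    Finset.univ.filter fun p => p.1 ^ 2 - 4 * (q : ZMod l) = p.2 * p.2 with hPr
  have hPrc : Pr.card = l - 1 := card_pairs hl2 hql
  have hZc : Z.card ≤ 2 := by
    have h3 := card_sq_le (l := l) (4 * (q : ZMod l))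
    have h4 : Z = Finset.univ.filter fun s : ZMod l => s * s = 4 * (q : ZMod l) := by
      apply Finset.filter_congr
      intro t _
      rw [sub_eq_zero, pow_two]
    rw [h4]; exact h3
  -- the three sets partition
  have hpart : (SQ q l).card + (NS q l).card + Z.card = l := by
    have h3 : (Finset.univ : Finset (ZMod l)) = (SQ q l ∪ NS q l) ∪ Z := by
      ext t
      simp only [Finset.mem_univ, Finset.mem_union, true_iff, mem_SQ, mem_NS, hZ,
        Finset.mem_filter, true_and]
      tauto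
    have h4 : Disjoint (SQ q l) (NS q l) := by
      rw [Finset.disjoint_left]
      intro t h5 h6
      exact (mem_NS.1 h6) (mem_SQ.1 h5).1
    have h5 : Disjoint (SQ q l ∪ NS q l) Z := by
      rw [Finset.disjoint_left]
      intro t h6 h7
      rw [hZ, Finset.mem_filter] at h7
      rcases Finset.mem_union.1 h6 with h8 | h8
      · exact (mem_SQ.1 h8).2 h7.2
      · apply mem_NS.1 h8
        rw [h7.2]
        exact IsSquare.zero
    have h6 := congrArg Finset.card h3
    rw [Finset.card_univ, ZMod.card, Finset.card_union_of_disjoint h5,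
      Finset.card_union_of_disjoint h4] at h6
    omega
  have hfib : ∀ t : ZMod l, (Pr.filter fun p => p.1 = t).card =
      (Finset.univ.filter fun s : ZMod l => s * s = t ^ 2 - 4 * (q : ZMod l)).card := by
    intro t
    refine Finset.card_bij' (fun p _ => p.2) (fun s _ => (t, s)) ?_ ?_ ?_ ?_
    · intro p hp
      rw [Finset.mem_filter, hPr, Finset.mem_filter] at hp
      rw [Finset.mem_filter]
      refine ⟨Finset.mem_univ _, ?_⟩
      rw [← hp.1.2, hp.2]
    · intro s hs
      rw [Finset.mem_filter] at hs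
      rw [Finset.mem_filter, hPr, Finset.mem_filter]
      exact ⟨⟨Finset.mem_univ _, hs.2.symm⟩, rfl⟩
    · intro p hp
      rw [Finset.mem_filter] at hp
      exact Prod.ext hp.2.symm rfl
    · intro s _
      rfl
  have hsum : Pr.card = ∑ t, (Pr.filter fun p => p.1 = t).card :=
    Finset.card_eq_sum_card_fiberwise (fun p _ => Finset.mem_univ p.1)
  -- upper bound
  have hup : Pr.card ≤ 2 * ((SQ q l).card + Z.card) := by
    rw [hsum]
    have h3 : ∑ t, (Pr.filter fun p => p.1 = t).card =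
        ∑ t ∈ (NS q l)ᶜ, (Pr.filter fun p => p.1 = t).card := by
      symm
      apply Finset.sum_subset (Finset.subset_univ _)
      intro t _ ht
      rw [Finset.mem_compl, not_not, mem_NS] at ht
      rw [hfib, Finset.card_eq_zero, Finset.filter_eq_empty_iff]
      intro s _ hs
      exact ht ⟨s, hs.symm⟩
    rw [h3]
    have h4 : ∑ t ∈ (NS q l)ᶜ, (Pr.filter fun p => p.1 = t).card ≤ ∑ t ∈ (NS q l)ᶜ, 2 := by
      apply Finset.sum_le_sum
      intro t _
      rw [hfib]
      exact card_sq_le _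
    refine h4.trans ?_
    rw [Finset.sum_const, smul_eq_mul, Finset.card_compl, ZMod.card]
    omega
  -- lower bound
  have hlo : 2 * (SQ q l).card ≤ Pr.card := by
    rw [hsum]
    have h4 : ∑ t ∈ SQ q l, 2 ≤ ∑ t ∈ SQ q l, (Pr.filter fun p => p.1 = t).card := by
      apply Finset.sum_le_sum
      intro t ht
      rw [hfib]
      obtain ⟨⟨s, hs⟩, hne⟩ := mem_SQ.1 ht
      have hs0 : s ≠ 0 := by
        rintro rfl
        exact hne (by rw [hs, mul_zero])
      have h5 : ({s, -s} : Finset (ZMod l)) ⊆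
          Finset.univ.filter fun s : ZMod l => s * s = t ^ 2 - 4 * (q : ZMod l) := by
        intro x hx
        rw [Finset.mem_filter]
        refine ⟨Finset.mem_univ _, ?_⟩
        rw [Finset.mem_insert, Finset.mem_singleton] at hx
        rcases hx with rfl | rfl
        · exact hs.symm
        · rw [neg_mul_neg]; exact hs.symm
      have h6 : ({s, -s} : Finset (ZMod l)).card = 2 := by
        apply Finset.card_pair
        intro h
        have h7 : (2 : ZMod l) * s = 0 := by linear_combination h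
        exact (mul_ne_zero h2 hs0) h7
      exact h6.symm.le.trans (Finset.card_le_card h5)
    rw [Finset.sum_const, smul_eq_mul] at h4
    have h5 : ∑ t ∈ SQ q l, (Pr.filter fun p => p.1 = t).card ≤
        ∑ t, (Pr.filter fun p => p.1 = t).card :=
      Finset.sum_le_sum_of_subset (Finset.subset_univ _)
    omega
  have hl1 : 1 < l := hl.out.one_lt
  omega

end squares

section omega

variable {ι : Type} [Fintype ι] [DecidableEq ι] (g : ι → ℕ)

/-- The index set of the coefficients. -/
abbrev Idx {ι : Type} (g : ι → ℕ) : Type := Σ j : ι, Fin (g j)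

/-- The vector of the upper coefficients of a family of polynomials. -/
def upper {R : Type} [CommRing R] {ι : Type} (g : ι → ℕ) (P : ι → R[X]) : Idx g → R :=
  fun jk => (P jk.1).coeff (2 * g jk.1 - 1 - jk.2)

/-- An injective labelling. -/
theorem exists_label {l : ℕ} [hl : Fact l.Prime] (hl2 : l ≠ 2) {q : ℕ} (hql : ¬ l ∣ q)
    (j₀ : Idx g) (m : ℕ) (hm : 2 * (Fintype.card (Idx g) * m) ≤ l - 5) :
    ∃ e : Idx g × Fin m → ZMod l, Function.Injective e ∧ (∀ x, e (j₀, x) ∈ NS q l) ∧
      ∀ j, j ≠ j₀ → ∀ x, e (j, x) ∈ SQ q l := by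
  classical
  obtain ⟨h1, h2⟩ := card_SQ_NS (l := l) hl2 hql
  have hN : 0 < Fintype.card (Idx g) := Fintype.card_pos_iff.2 ⟨j₀⟩
  have hm1 : m ≤ Fintype.card (Idx g) * m := Nat.le_mul_of_pos_left m hN
  have h3 : Fintype.card (Fin m) ≤ Fintype.card (NS q l) := by
    rw [Fintype.card_fin, Fintype.card_coe]
    omega
  have h4 : Fintype.card (Idx g × Fin m) ≤ Fintype.card (SQ q l) := by
    rw [Fintype.card_prod, Fintype.card_fin, Fintype.card_coe]
    omega
  obtain ⟨a⟩ := Function.Embedding.nonempty_of_card_le h3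
  obtain ⟨b⟩ := Function.Embedding.nonempty_of_card_le h4
  have hdis : ∀ x y, ((a x : NS q l) : ZMod l) ≠ ((b y : SQ q l) : ZMod l) := by
    intro x y h
    have h5 := (a x).2
    rw [h] at h5
    exact (mem_NS.1 h5) (mem_SQ.1 (b y).2).1
  refine ⟨fun p => if p.1 = j₀ then (a p.2 : ZMod l) else (b p : ZMod l), ?_, ?_, ?_⟩
  · rintro ⟨j, x⟩ ⟨j', x'⟩ h
    simp only at h
    by_cases hj : j = j₀ <;> by_cases hj' : j' = j₀
    · rw [if_pos hj, if_pos hj'] at h
      have := a.injective (Subtype.ext h)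
      rw [hj, hj', this]
    · rw [if_pos hj, if_neg hj'] at h
      exact absurd h (hdis _ _)
    · rw [if_neg hj, if_pos hj'] at h
      exact absurd h.symm (hdis _ _)
    · rw [if_neg hj, if_neg hj'] at h
      exact b.injective (Subtype.ext h)
  · intro x
    simp only [if_true]
    exact (a x).2
  · intro j hj x
    simp only [if_neg hj]
    exact (b (j, x)).2

/-- The polynomials attached to a choice `f`. -/
noncomputable def chosen {l : ℕ} (q : ℕ) {m : ℕ} (e : Idx g × Fin m → ZMod l)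
    (f : Idx g → Fin m) (j : ι) : (ZMod l)[X] :=
  ∏ k : Fin (g j), quad q (e (⟨j, k⟩, f ⟨j, k⟩))

variable {g}

theorem chosen_monic {l : ℕ} [hl : Fact l.Prime] (q : ℕ) {m : ℕ} (e : Idx g × Fin m → ZMod l)
    (f : Idx g → Fin m) (j : ι) : (chosen g q e f j).Monic :=
  monic_prod_of_monic _ _ fun _ _ => quad_monic _ _

theorem chosen_natDegree {l : ℕ} [hl : Fact l.Prime] (q : ℕ) {m : ℕ}
    (e : Idx g × Fin m → ZMod l) (f : Idx g → Fin m) (j : ι) :
    (chosen g q e f j).natDegree = 2 * g j := by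
  rw [chosen, natDegree_prod_of_monic _ _ fun _ _ => quad_monic _ _]
  simp [quad_natDegree, mul_comm]

theorem chosen_funEq {l : ℕ} [hl : Fact l.Prime] (q : ℕ) {m : ℕ} (e : Idx g × Fin m → ZMod l)
    (f : Idx g → Fin m) (j : ι) : FunEq q ((q : ZMod l) ^ g j) (chosen g q e f j) := by
  have h1 := FunEq.prod Finset.univ (fun _ : Fin (g j) => (q : ZMod l))
    (fun k => quad q (e (⟨j, k⟩, f ⟨j, k⟩))) (fun k _ => funEq_quad q _)
  rw [Finset.prod_const, Finset.card_univ, Fintype.card_fin] at h1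
  exact h1

theorem chosen_eq_prod {l : ℕ} (q : ℕ) {m : ℕ} {e : Idx g × Fin m → ZMod l}
    (he : Function.Injective e) (f : Idx g → Fin m) (j : ι) :
    chosen g q e f j = ∏ t ∈ Finset.univ.image (fun k : Fin (g j) => e (⟨j, k⟩, f ⟨j, k⟩)),
      quad q t := by
  rw [Finset.prod_image]
  · rfl
  · intro k _ k' _ h
    have h1 := congrArg Prod.fst (he h)
    simpa using h1

theorem funEq_map {g q : ℕ} {P : ℤ[X]} (hP : P ∈ weilPolys g q) (l : ℕ) [hl : Fact l.Prime] :
    FunEq q ((q : ZMod l) ^ g) (P.map (Int.castRingHom (ZMod l))) := by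
  have h1 := circle_funEq (weil_subset_circle hP)
  unfold FunEq at h1 ⊢
  have h2 := congrArg (Polynomial.map (Int.castRingHom (ZMod l))) h1
  rw [Polynomial.map_comp, Polynomial.map_mul, Polynomial.map_mul, map_C, map_X, map_C,
    hP.2.2.1] at h2
  have h3 : (P.reverse).map (Int.castRingHom (ZMod l)) =
      (P.map (Int.castRingHom (ZMod l))).reverse := by
    rw [reverse, reverse, reflect_map, hP.1.natDegree_map]
  rw [h3] at h2
  simpa using h2

/-- The residue classes of a good family. -/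
theorem goodAt_of_upper {l : ℕ} [hl : Fact l.Prime] {q : ℕ} (hql : ¬ l ∣ q) {m : ℕ}
    {e : Idx g × Fin m → ZMod l} (he : Function.Injective e) (j₀ : Idx g)
    (he1 : ∀ x, e (j₀, x) ∈ NS q l) (he2 : ∀ j, j ≠ j₀ → ∀ x, e (j, x) ∈ SQ q l)
    (P : ι → ℤ[X]) (hP : ∀ i, P i ∈ weilPolys (g i) q) (f : Idx g → Fin m)
    (h : upper g (fun j => (P j).map (Int.castRingHom (ZMod l))) = upper g (chosen g q e f)) :
    GoodAt q P j₀.1 l := by
  classical
  have hqk : (q : ZMod l) ≠ 0 := by rwa [Ne, ZMod.natCast_eq_zero_iff]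
  have hPe : ∀ j, (P j).map (Int.castRingHom (ZMod l)) = chosen g q e f j := by
    intro j
    refine eq_of_upper (d := 2 * g j) hqk ?_ (chosen_natDegree q e f j) ((hP j).1.map _)
      (chosen_monic q e f j) (funEq_map (hP j) l) (chosen_funEq q e f j) ?_
    · rw [(hP j).1.natDegree_map, (hP j).2.1]
    · intro i hi
      rw [Nat.mul_div_cancel_left _ (by norm_num : 0 < 2)] at hi
      exact congrFun h ⟨j, ⟨i, hi⟩⟩
  refine ⟨fun j => Finset.univ.image (fun k : Fin (g j) => e (⟨j, k⟩, f ⟨j, k⟩)), ?_, ?_, ?_, ?_⟩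
  · intro j
    rw [hPe j, chosen_eq_prod q he f j]
  · intro i j hij
    rw [Finset.disjoint_left]
    intro t hi hj
    obtain ⟨k, -, hk⟩ := Finset.mem_image.1 hi
    obtain ⟨k', -, hk'⟩ := Finset.mem_image.1 hj
    have h1 := he (hk.trans hk'.symm)
    have h2 := congrArg (fun p : Idx g × Fin m => p.1.1) h1
    exact hij h2
  · intro j t ht
    obtain ⟨k, -, rfl⟩ := Finset.mem_image.1 ht
    by_cases hjk : (⟨j, k⟩ : Idx g) = j₀
    · have h1 := he1 (f ⟨j, k⟩)
      rw [← hjk] at h1
      intro h0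
      apply mem_NS.1 h1
      rw [h0]
      exact IsSquare.zero
    · exact (mem_SQ.1 (he2 _ hjk (f ⟨j, k⟩))).2
  · refine ⟨e (j₀, f j₀), ?_, mem_NS.1 (he1 (f j₀)), ?_⟩
    · rw [Finset.mem_image]
      exact ⟨j₀.2, Finset.mem_univ _, rfl⟩
    · intro j t ht htt
      obtain ⟨k, -, rfl⟩ := Finset.mem_image.1 ht
      have hjk : (⟨j, k⟩ : Idx g) ≠ j₀ := by
        intro h'
        apply htt
        rw [h']
      exact (mem_SQ.1 (he2 _ hjk (f ⟨j, k⟩))).1

theorem chosen_injective {l : ℕ} [hl : Fact l.Prime] {q : ℕ} (hql : ¬ l ∣ q) {m : ℕ}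
    {e : Idx g × Fin m → ZMod l} (he : Function.Injective e) :
    Function.Injective fun f : Idx g → Fin m => upper g (chosen g q e f) := by
  classical
  have hqk : (q : ZMod l) ≠ 0 := by rwa [Ne, ZMod.natCast_eq_zero_iff]
  intro f f' h
  simp only at h
  have hPe : ∀ j, chosen g q e f j = chosen g q e f' j := by
    intro j
    refine eq_of_upper (d := 2 * g j) hqk (chosen_natDegree q e f j) (chosen_natDegree q e f' j)
      (chosen_monic q e f j) (chosen_monic q e f' j) (chosen_funEq q e f j)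
      (chosen_funEq q e f' j) ?_
    intro i hi
    rw [Nat.mul_div_cancel_left _ (by norm_num : 0 < 2)] at hi
    exact congrFun h ⟨j, ⟨i, hi⟩⟩
  funext jk
  obtain ⟨j, k⟩ := jk
  -- the factor of `f` divides the product of `f'`
  have h1 : quad q (e (⟨j, k⟩, f ⟨j, k⟩)) ∣ chosen g q e f' j := by
    rw [← hPe j]
    exact Finset.dvd_prod_of_mem (fun k => quad q (e (⟨j, k⟩, f ⟨j, k⟩))) (Finset.mem_univ k)
  by_contra hne
  have h2 : IsCoprime (quad q (e (⟨j, k⟩, f ⟨j, k⟩))) (chosen g q e f' j) := by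
    apply IsCoprime.prod_right
    intro k' _
    apply quad_coprime q hqk
    intro h3
    have h4 := he h3
    have h5 : k = k' := by
      have := congrArg Prod.fst h4
      simpa using this
    subst h5
    exact hne (congrArg Prod.snd h4)
  have h3 := h2.isUnit_of_dvd' dvd_rfl h1
  have h4 := (quad_monic q (e (⟨j, k⟩, f ⟨j, k⟩))).isUnit_iff.1 h3
  have h5 := quad_natDegree q (e (⟨j, k⟩, f ⟨j, k⟩))
  rw [h4, natDegree_one] at h5
  exact absurd h5 (by norm_num)

/-- There are many residue classes forcing a sign change. -/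
theorem exists_omega {l : ℕ} [hl : Fact l.Prime] (hl2 : l ≠ 2) {q : ℕ} (hql : ¬ l ∣ q)
    (j₀ : Idx g) (m : ℕ) (hm : 2 * (Fintype.card (Idx g) * m) ≤ l - 5) :
    ∃ Ω : Finset (Idx g → ZMod l), Ω.card = m ^ Fintype.card (Idx g) ∧
      ∀ P : ι → ℤ[X], (∀ i, P i ∈ weilPolys (g i) q) →
        upper g (fun j => (P j).map (Int.castRingHom (ZMod l))) ∈ Ω → GoodAt q P j₀.1 l := by
  classical
  obtain ⟨e, he, he1, he2⟩ := exists_label g hl2 hql j₀ m hm
  refine ⟨Finset.univ.image fun f : Idx g → Fin m => upper g (chosen g q e f), ?_, ?_⟩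
  · rw [Finset.card_image_of_injective _ (chosen_injective hql he), Finset.card_univ]
    simp
  · intro P hP h
    obtain ⟨f, -, hf⟩ := Finset.mem_image.1 h
    exact goodAt_of_upper hql he j₀ he1 he2 P hP f hf.symm

end omega

end Pool.Agent.Lib.MP_021685_agD
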