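import Mathlib

/-!
# The sieving primes
-/

set_option autoImplicit false

namespace Pool.Agent.Lib.MP_021685_agD

open Filter Real

/-- The primes used for the sieve. -/
def sievePrimes (N₀ n q : ℕ) : Finset ℕ :=
  (Finset.range (n + 1)).filter fun l => l.Prime ∧ N₀ < l ∧ ¬ l ∣ q

theorem mem_sievePrimes {N₀ n q l : ℕ} :
    l ∈ sievePrimes N₀ n q ↔ l ≤ n ∧ l.Prime ∧ N₀ < l ∧ ¬ l ∣ q := by
  rw [sievePrimes, Finset.mem_filter, Finset.mem_range, Nat.lt_succ_iff]

theorem card_sievePrimes (N₀ : ℕ) : ∃ n₀ : ℕ, ∀ n : ℕ, n₀ ≤ n → ∀ q : ℕ, IsPrimePow q →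
    (1 / 4 : ℝ) * n ≤ (sievePrimes N₀ n q).card * Real.log n := by
  classical
  have h1 : ∀ᶠ n : ℕ in atTop, Real.log ((n : ℝ) + 1) ≤ (1 / (5 * (N₀ + 3))) * ((n : ℝ) + 1) := by
    have h2 := Real.isLittleO_log_id_atTop.bound (c := 1 / (5 * ((N₀ : ℝ) + 3))) (by positivity)
    have h3 : Tendsto (fun n : ℕ => (n : ℝ) + 1) atTop atTop :=
      tendsto_atTop_add_const_right _ _ tendsto_natCast_atTop_atTop
    have h4 := h3.eventually h2
    filter_upwards [h4] with n hn
    have h5 : (0 : ℝ) ≤ (n : ℝ) + 1 := by positivity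
    have h6 : 0 ≤ Real.log ((n : ℝ) + 1) := Real.log_nonneg (by linarith [Nat.cast_nonneg (α := ℝ) n])
    simpa [abs_of_nonneg h5, abs_of_nonneg h6] using hn
  obtain ⟨n₀, hn₀⟩ := eventually_atTop.1 h1
  refine ⟨max n₀ 2, fun n hn q hq => ?_⟩
  have hn1 : n₀ ≤ n := le_trans (le_max_left _ _) hn
  have hn2 : 2 ≤ n := le_trans (le_max_right _ _) hn
  have hlog := hn₀ n hn1
  have hn2' : (2 : ℝ) ≤ n := by exact_mod_cast hn2
  have hlogn : 0 < Real.log n := Real.log_pos (by linarith)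
  have hlogn1 : Real.log n ≤ Real.log ((n : ℝ) + 1) := Real.log_le_log (by linarith) (by linarith)
  have hpi := Chebyshev.pi_ge n
  rw [div_le_iff₀ hlogn] at hpi
  have hcard : (Nat.primeCounting n : ℝ) ≤ (sievePrimes N₀ n q).card + (N₀ + 2) := by
    have h2 : (Finset.range (n + 1)).filter Nat.Prime ⊆
        sievePrimes N₀ n q ∪ (Finset.range (N₀ + 1) ∪ {q.minFac}) := by
      intro l hl
      rw [Finset.mem_filter, Finset.mem_range, Nat.lt_succ_iff] at hl
      rw [Finset.mem_union, Finset.mem_union, mem_sievePrimes, Finset.mem_range,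
        Finset.mem_singleton]
      by_cases h3 : N₀ < l
      · by_cases h4 : l ∣ q
        · right; right
          obtain ⟨p, k, hp, hk, hpk⟩ := (isPrimePow_nat_iff q).1 hq
          have h5 : l = p := by
            rw [← hpk] at h4
            exact (Nat.prime_dvd_prime_iff_eq hl.2 hp).1 (hl.2.dvd_of_dvd_pow h4)
          rw [← hpk, hp.pow_minFac hk.ne', h5]
        · left
          exact ⟨hl.1, hl.2, h3, h4⟩
      · right; left
        omega
    have h3 := Finset.card_le_card h2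
    have h4 : ((Finset.range (n + 1)).filter Nat.Prime).card = Nat.primeCounting n := by
      rw [Nat.primeCounting, Nat.primeCounting', Nat.count_eq_card_filter_range]
    rw [h4] at h3
    have h5 := (h3.trans (Finset.card_union_le _ _)).trans
      (Nat.add_le_add_left (Finset.card_union_le _ _) _)
    rw [Finset.card_range, Finset.card_singleton] at h5
    have h6 : (Nat.primeCounting n : ℝ) ≤ ((sievePrimes N₀ n q).card + (N₀ + 1 + 1) : ℕ) := by
      exact_mod_cast h5
    push_cast at h6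
    linarith
  have hlog2 := Real.log_two_gt_d9
  have h7 : (Nat.primeCounting n : ℝ) * Real.log n ≤
      ((sievePrimes N₀ n q).card + (N₀ + 2)) * Real.log n :=
    mul_le_mul_of_nonneg_right hcard hlogn.le
  have hN : (0 : ℝ) ≤ N₀ := Nat.cast_nonneg _
  have h8 : ((N₀ : ℝ) + 3) * Real.log ((n : ℝ) + 1) ≤ (1 / 5) * ((n : ℝ) + 1) := by
    calc ((N₀ : ℝ) + 3) * Real.log ((n : ℝ) + 1)
        ≤ ((N₀ : ℝ) + 3) * ((1 / (5 * (N₀ + 3))) * ((n : ℝ) + 1)) :=
          mul_le_mul_of_nonneg_left hlog (by linarith)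
      _ = (1 / 5) * ((n : ℝ) + 1) := by field_simp
  have h9 : ((N₀ : ℝ) + 2) * Real.log n ≤ ((N₀ : ℝ) + 2) * Real.log ((n : ℝ) + 1) :=
    mul_le_mul_of_nonneg_left hlogn1 (by linarith)
  have h10 : (0.69 : ℝ) * n ≤ n * Real.log 2 := by
    rw [mul_comm (n : ℝ)]
    exact mul_le_mul_of_nonneg_right (by linarith) (by linarith)
  nlinarith

end Pool.Agent.Lib.MP_021685_agD
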