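import Mathlib

/-!
# Turán's sieve in a box
-/

set_option autoImplicit false

namespace Pool.Agent.Lib.MP_021685_agD

/-- The number of integers in `[-M, M]` in a residue class. -/
theorem card_class (M : ℕ) (n : ℕ) (hn : 0 < n) (w : ℤ) :
    ((2 * M + 1 : ℝ) / n - 1 ≤
      ((Finset.Icc (-(M : ℤ)) M).filter fun x => x ≡ w [ZMOD n]).card) ∧
    ((((Finset.Icc (-(M : ℤ)) M).filter fun x => x ≡ w [ZMOD n]).card : ℝ) ≤
      (2 * M + 1 : ℝ) / n + 1) := by
  have h1 : Finset.Icc (-(M : ℤ)) M = Finset.Ioc (-(M : ℤ) - 1) M := by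
    ext x
    simp only [Finset.mem_Icc, Finset.mem_Ioc]
    omega
  have hn' : (0 : ℤ) < n := by exact_mod_cast hn
  have h2 := Int.Ioc_filter_modEq_card (-(M : ℤ) - 1) M hn' w
  rw [← h1] at h2
  set c := ((Finset.Icc (-(M : ℤ)) M).filter fun x => x ≡ w [ZMOD n]).card with hc
  set u : ℚ := ((M : ℤ) - w) / ((n : ℤ) : ℚ) with hu
  set v : ℚ := (((-(M : ℤ) - 1 : ℤ) : ℚ) - w) / ((n : ℤ) : ℚ) with hv
  have hnQ : (0 : ℚ) < ((n : ℤ) : ℚ) := by exact_mod_cast hn
  have huv : u - v = (2 * M + 1) / ((n : ℤ) : ℚ) := by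
    rw [hu, hv, ← sub_div]
    congr 1
    push_cast
    ring
  have hpos : (0 : ℚ) < (2 * M + 1) / ((n : ℤ) : ℚ) := by positivity
  have f1 := Int.floor_le u
  have f2 := Int.lt_floor_add_one u
  have f3 := Int.floor_le v
  have f4 := Int.lt_floor_add_one v
  have h3 : (c : ℤ) = max (⌊u⌋ - ⌊v⌋) 0 := by
    rw [h2]
  have hmono : 0 ≤ ⌊u⌋ - ⌊v⌋ := by
    have : ⌊v⌋ ≤ ⌊u⌋ := Int.floor_le_floor (by linarith)
    omega
  rw [max_eq_left hmono] at h3
  have h4 : (c : ℚ) = ⌊u⌋ - ⌊v⌋ := by exact_mod_cast h3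
  have h5 : (2 * M + 1 : ℚ) / n - 1 ≤ c := by
    rw [h4]
    have e : (2 * M + 1 : ℚ) / n = u - v := by rw [huv, Int.cast_natCast]
    rw [e]
    linarith
  have h6 : (c : ℚ) ≤ (2 * M + 1 : ℚ) / n + 1 := by
    rw [h4]
    have e : (2 * M + 1 : ℚ) / n = u - v := by rw [huv, Int.cast_natCast]
    rw [e]
    linarith
  constructor
  · have := (Rat.cast_le (K := ℝ)).2 h5
    push_cast at this
    exact this
  · have := (Rat.cast_le (K := ℝ)).2 h6
    push_cast at this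
    exact this

variable {J : Type} [Fintype J] [DecidableEq J]

/-- The box. -/
noncomputable def box (M : J → ℕ) : Finset (J → ℤ) :=
  Fintype.piFinset fun j => Finset.Icc (-(M j : ℤ)) (M j)

theorem card_box (M : J → ℕ) : (box M).card = ∏ j, (2 * M j + 1) := by
  rw [box, Fintype.card_piFinset]
  apply Finset.prod_congr rfl
  intro j _
  rw [Int.card_Icc]
  omega

theorem filter_box (M : J → ℕ) (p : J → ℤ → Prop) [∀ j, DecidablePred (p j)] :
    ((box M).filter fun v => ∀ j, p j (v j)) =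
      Fintype.piFinset fun j => (Finset.Icc (-(M j : ℤ)) (M j)).filter (p j) := by
  ext v
  simp only [box, Finset.mem_filter, Fintype.mem_piFinset]
  constructor
  · rintro ⟨h1, h2⟩ j
    exact ⟨h1 j, h2 j⟩
  · intro h
    exact ⟨fun j => (h j).1, fun j => (h j).2⟩

/-- The reduction of a vector. -/
def red (l : ℕ) (v : J → ℤ) : J → ZMod l := fun j => (v j : ZMod l)

theorem card_one (M : J → ℕ) (l : ℕ) (hl : 0 < l) (Ω : Finset (J → ZMod l))
    (hM : ∀ j, (l : ℝ) ≤ 2 * M j + 1) :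
    (Ω.card : ℝ) * ∏ j, ((2 * M j + 1 : ℝ) / l - 1) ≤
      ((box M).filter fun v => red l v ∈ Ω).card := by
  classical
  have : NeZero l := ⟨hl.ne'⟩
  have h1 : ((box M).filter fun v => red l v ∈ Ω).card =
      ∑ ρ ∈ Ω, ((box M).filter fun v => red l v = ρ).card := by
    rw [Finset.card_eq_sum_card_fiberwise (f := red l) (t := Ω)]
    · apply Finset.sum_congr rfl
      intro ρ hρ
      congr 1
      ext v
      simp only [Finset.mem_filter]
      constructor
      · rintro ⟨⟨h1, -⟩, h2⟩; exact ⟨h1, h2⟩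
      · rintro ⟨h1, h2⟩; exact ⟨⟨h1, by rw [h2]; exact hρ⟩, h2⟩
    · intro v hv
      exact (Finset.mem_filter.1 hv).2
  rw [h1, Nat.cast_sum, ← nsmul_eq_mul, ← Finset.sum_const]
  apply Finset.sum_le_sum
  intro ρ _
  have h2 : ((box M).filter fun v => red l v = ρ) =
      ((box M).filter fun v => ∀ j, v j ≡ (ρ j).val [ZMOD l]) := by
    apply Finset.filter_congr
    intro v _
    rw [funext_iff]
    apply forall_congr'
    intro j
    rw [← ZMod.intCast_eq_intCast_iff]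
    simp [red]
  rw [h2, filter_box M (fun j x => x ≡ (ρ j).val [ZMOD l]), Fintype.card_piFinset, Nat.cast_prod]
  apply Finset.prod_le_prod
  · intro j _
    have : (0 : ℝ) < l := by exact_mod_cast hl
    rw [sub_nonneg, one_le_div this]
    exact hM j
  · intro j _
    exact (card_class (M j) l hl _).1

theorem card_two (M : J → ℕ) (l l' : ℕ) (hl : 0 < l) (hl' : 0 < l') (hco : l.Coprime l')
    (Ω : Finset (J → ZMod l)) (Ω' : Finset (J → ZMod l')) :
    (((box M).filter fun v => red l v ∈ Ω ∧ red l' v ∈ Ω').card : ℝ) ≤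
      (Ω.card : ℝ) * Ω'.card * ∏ j, ((2 * M j + 1 : ℝ) / (l * l') + 1) := by
  classical
  have : NeZero l := ⟨hl.ne'⟩
  have : NeZero l' := ⟨hl'.ne'⟩
  have h1 : ((box M).filter fun v => red l v ∈ Ω ∧ red l' v ∈ Ω').card =
      ∑ ρ ∈ Ω ×ˢ Ω', ((box M).filter fun v => red l v = ρ.1 ∧ red l' v = ρ.2).card := by
    rw [Finset.card_eq_sum_card_fiberwise (f := fun v => (red l v, red l' v)) (t := Ω ×ˢ Ω')]
    · apply Finset.sum_congr rfl
      intro ρ hρ
      rw [Finset.mem_product] at hρ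
      congr 1
      ext v
      simp only [Finset.mem_filter, Prod.ext_iff]
      constructor
      · rintro ⟨⟨h1, -⟩, h2⟩; exact ⟨h1, h2⟩
      · rintro ⟨h1, h2, h3⟩; exact ⟨⟨h1, by rw [h2]; exact hρ.1, by rw [h3]; exact hρ.2⟩, h2, h3⟩
    · intro v hv
      have := (Finset.mem_filter.1 hv).2
      exact Finset.mem_coe.2 (Finset.mem_product.2 this)
  rw [h1, Nat.cast_sum]
  have h3 : ∀ ρ ∈ Ω ×ˢ Ω', (((box M).filter fun v => red l v = ρ.1 ∧ red l' v = ρ.2).card : ℝ) ≤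
      ∏ j, ((2 * M j + 1 : ℝ) / (l * l') + 1) := by
    intro ρ _
    -- common lifts
    let w : J → ℤ := fun j => ((Nat.chineseRemainder hco (ρ.1 j).val (ρ.2 j).val : ℕ) : ℤ)
    have hw1 : ∀ j, (w j : ZMod l) = ρ.1 j := by
      intro j
      have h4 := (Nat.chineseRemainder hco (ρ.1 j).val (ρ.2 j).val).2.1
      have h5 := (ZMod.natCast_eq_natCast_iff _ _ _).2 h4
      simp only [w, Int.cast_natCast]
      rw [h5]
      simp
    have hw2 : ∀ j, (w j : ZMod l') = ρ.2 j := by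
      intro j
      have h4 := (Nat.chineseRemainder hco (ρ.1 j).val (ρ.2 j).val).2.2
      have h5 := (ZMod.natCast_eq_natCast_iff _ _ _).2 h4
      simp only [w, Int.cast_natCast]
      rw [h5]
      simp
    have hsub : ((box M).filter fun v => red l v = ρ.1 ∧ red l' v = ρ.2) ⊆
        ((box M).filter fun v => ∀ j, v j ≡ w j [ZMOD ((l * l' : ℕ) : ℤ)]) := by
      intro v hv
      rw [Finset.mem_filter] at hv ⊢
      refine ⟨hv.1, fun j => ?_⟩
      have e1 : v j ≡ w j [ZMOD l] := by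
        rw [← ZMod.intCast_eq_intCast_iff, hw1]
        exact congrFun hv.2.1 j
      have e2 : v j ≡ w j [ZMOD l'] := by
        rw [← ZMod.intCast_eq_intCast_iff, hw2]
        exact congrFun hv.2.2 j
      have e3 : (l : ℤ).natAbs.Coprime (l' : ℤ).natAbs := by simpa using hco
      have := (Int.modEq_and_modEq_iff_modEq_mul e3).1 ⟨e1, e2⟩
      simpa using this
    have h6 : (((box M).filter fun v => red l v = ρ.1 ∧ red l' v = ρ.2).card : ℝ) ≤
        ((box M).filter fun v => ∀ j, v j ≡ w j [ZMOD ((l * l' : ℕ) : ℤ)]).card := by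
      exact_mod_cast Finset.card_le_card hsub
    refine h6.trans ?_
    rw [filter_box M (fun j x => x ≡ w j [ZMOD ((l * l' : ℕ) : ℤ)]), Fintype.card_piFinset,
      Nat.cast_prod]
    apply Finset.prod_le_prod (fun _ _ => Nat.cast_nonneg _)
    intro j _
    have := (card_class (M j) (l * l') (Nat.mul_pos hl hl') (w j)).2
    have e : (2 * M j + 1 : ℝ) / (l * l') + 1 = (2 * M j + 1 : ℝ) / ((l * l' : ℕ) : ℝ) + 1 := by
      rw [Nat.cast_mul]
    rw [e]
    exact this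
  refine (Finset.sum_le_sum h3).trans ?_
  rw [Finset.sum_const, Finset.card_product, nsmul_eq_mul, Nat.cast_mul]

theorem pow_le_of_le_one {x : ℝ} (h0 : 0 ≤ x) (h1 : x ≤ 1) (N : ℕ) :
    (1 + x) ^ N ≤ 1 + (2 ^ N - 1) * x := by
  induction N with
  | zero => simp
  | succ N ih =>
    have h2 : (1 : ℝ) ≤ 2 ^ N := one_le_pow₀ (by norm_num)
    calc (1 + x) ^ (N + 1) = (1 + x) ^ N * (1 + x) := pow_succ _ _
      _ ≤ (1 + (2 ^ N - 1) * x) * (1 + x) := mul_le_mul_of_nonneg_right ih (by linarith)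
      _ ≤ 1 + (2 ^ (N + 1) - 1) * x := by
        rw [pow_succ]
        nlinarith [mul_nonneg (mul_nonneg (sub_nonneg.2 h2) h0) (sub_nonneg.2 h1)]

open Classical in
/-- Turán's sieve. -/
theorem turan (M : J → ℕ) (𝓛 : Finset ℕ) (h𝓛 : ∀ l ∈ 𝓛, l.Prime)
    (Ω : ∀ l : ℕ, Finset (J → ZMod l)) (y L c₀ : ℝ) (hc₀ : 0 < c₀) (hy : 1 ≤ y) (hL : y ^ 2 ≤ L)
    (hly : ∀ l ∈ 𝓛, (l : ℝ) ≤ y) (hM : ∀ j, L ≤ 2 * M j + 1)
    (hΩ : ∀ l ∈ 𝓛, c₀ * (l : ℝ) ^ Fintype.card J ≤ (Ω l).card) (hk : 𝓛.Nonempty) :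
    (((box M).filter fun v => ∀ l ∈ 𝓛, red l v ∉ Ω l).card : ℝ) ≤
      (box M).card * (1 / (c₀ ^ 2 * 𝓛.card) +
        (2 ^ Fintype.card J + 2 * Fintype.card J) * (y ^ 2 / L)) := by
  set N := Fintype.card J with hN
  set B := box M with hB
  set k : ℝ := (𝓛.card : ℝ) with hkdef
  have hkpos : 0 < k := by
    rw [hkdef]; exact_mod_cast Finset.card_pos.2 hk
  have hL0 : 0 < L := lt_of_lt_of_le (by positivity) hL
  have hBcard : (B.card : ℝ) = ∏ j, (2 * M j + 1 : ℝ) := by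
    rw [hB, card_box, Nat.cast_prod]
    push_cast
    rfl
  have hMpos : ∀ j, (0 : ℝ) < 2 * M j + 1 := fun j => lt_of_lt_of_le hL0 (hM j)
  have hy2 : y ≤ y ^ 2 := by nlinarith
  set x₂ : ℝ := y ^ 2 / L with hx₂
  set x₁ : ℝ := y / L with hx₁
  have hx₂0 : 0 ≤ x₂ := by positivity
  have hx₂1 : x₂ ≤ 1 := (div_le_one hL0).2 hL
  have hx₁0 : 0 ≤ x₁ := by positivity
  have hx₁₂ : x₁ ≤ x₂ := div_le_div_of_nonneg_right hy2 hL0.le
  have hx₁1 : x₁ ≤ 1 := hx₁₂.trans hx₂1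
  let ω : ℕ → ℝ := fun l => (Ω l).card / (l : ℝ) ^ N
  have hlpos : ∀ l ∈ 𝓛, (0 : ℝ) < l := fun l hl => by exact_mod_cast (h𝓛 l hl).pos
  have hω0 : ∀ l, 0 ≤ ω l := fun l => by positivity
  have hωc : ∀ l ∈ 𝓛, c₀ ≤ ω l := by
    intro l hl
    rw [le_div_iff₀ (pow_pos (hlpos l hl) N)]
    exact hΩ l hl
  set W : ℝ := ∑ l ∈ 𝓛, ω l with hW
  have hWk : c₀ * k ≤ W := by
    rw [hW, hkdef, mul_comm, ← nsmul_eq_mul, ← Finset.sum_const]
    exact Finset.sum_le_sum hωc
  have hWpos : 0 < W := lt_of_lt_of_le (mul_pos hc₀ hkpos) hWk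
  let f : ℕ → (J → ℤ) → ℝ := fun l v => if red l v ∈ Ω l then 1 else 0
  -- first moments
  have hS1 : ∀ l ∈ 𝓛, ω l * B.card * (1 - N * x₁) ≤ ∑ v ∈ B, f l v := by
    intro l hl
    have hl0 := hlpos l hl
    have h1 : ∑ v ∈ B, f l v = ((box M).filter fun v => red l v ∈ Ω l).card := by
      simp only [f]
      rw [Finset.sum_boole]
    rw [h1]
    have hlM : ∀ j, (l : ℝ) ≤ 2 * M j + 1 := fun j =>
      (hly l hl).trans (hy2.trans (hL.trans (hM j)))
    refine le_trans ?_ (card_one M l (h𝓛 l hl).pos (Ω l) hlM)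
    have h2 : ∏ j : J, ((2 * M j + 1 : ℝ) / l - 1) =
        (∏ j : J, (2 * M j + 1 : ℝ)) / (l : ℝ) ^ N * ∏ j : J, (1 - l / (2 * M j + 1 : ℝ)) := by
      have h3 : ((l : ℝ) ^ N) = ∏ _j : J, (l : ℝ) := by
        rw [Finset.prod_const, Finset.card_univ]
      rw [h3, ← Finset.prod_div_distrib, ← Finset.prod_mul_distrib]
      apply Finset.prod_congr rfl
      intro j _
      have := hMpos j
      field_simp
    rw [h2, ← hBcard]
    have h4 : (1 - N * x₁) ≤ ∏ j : J, (1 - l / (2 * M j + 1 : ℝ)) := by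
      have h5 : (1 - x₁) ^ N ≤ ∏ j : J, (1 - l / (2 * M j + 1 : ℝ)) := by
        have h6 : (1 - x₁) ^ N = ∏ _j : J, (1 - x₁) := by
          rw [Finset.prod_const, Finset.card_univ]
        rw [h6]
        apply Finset.prod_le_prod
        · intro j _; linarith
        · intro j _
          have : (l : ℝ) / (2 * M j + 1 : ℝ) ≤ y / L :=
            div_le_div₀ (by linarith) (hly l hl) hL0 (hM j)
          linarith
      have h7 := one_add_mul_le_pow (a := -x₁) (by linarith) N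
      have h8 : (1 + -x₁) ^ N = (1 - x₁) ^ N := by ring
      rw [h8] at h7
      linarith
    calc ω l * B.card * (1 - N * x₁) ≤ ω l * B.card * ∏ j : J, (1 - l / (2 * M j + 1 : ℝ)) :=
          mul_le_mul_of_nonneg_left h4 (mul_nonneg (hω0 l) (Nat.cast_nonneg _))
      _ = _ := by simp only [ω]; ring
  -- second moments
  have hS2 : ∀ l ∈ 𝓛, ∀ l' ∈ 𝓛, ∑ v ∈ B, f l v * f l' v ≤
      (if l = l' then (B.card : ℝ) else 0) + ω l * ω l' * B.card * (1 + 2 ^ N * x₂) := by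
    intro l hl l' hl'
    have hnn : 0 ≤ ω l * ω l' * B.card * (1 + 2 ^ N * x₂) := by
      have := hω0 l
      have := hω0 l'
      positivity
    have h1 : ∑ v ∈ B, f l v * f l' v =
        ((box M).filter fun v => red l v ∈ Ω l ∧ red l' v ∈ Ω l').card := by
      have h2 : ∀ v, f l v * f l' v = if (red l v ∈ Ω l ∧ red l' v ∈ Ω l') then 1 else 0 := by
        intro v
        simp only [f]
        by_cases h3 : red l v ∈ Ω l <;> by_cases h4 : red l' v ∈ Ω l' <;> simp [h3, h4]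
      simp only [h2]
      rw [Finset.sum_boole]
    rw [h1]
    by_cases hll : l = l'
    · rw [if_pos hll]
      have h3 : (((box M).filter fun v => red l v ∈ Ω l ∧ red l' v ∈ Ω l').card : ℝ) ≤ B.card := by
        exact_mod_cast Finset.card_filter_le _ _
      linarith
    · rw [if_neg hll, zero_add]
      have hl0 := hlpos l hl
      have hl0' := hlpos l' hl'
      have hco : l.Coprime l' := (Nat.coprime_primes (h𝓛 l hl) (h𝓛 l' hl')).2 hll
      refine (card_two M l l' (h𝓛 l hl).pos (h𝓛 l' hl').pos hco (Ω l) (Ω l')).trans ?_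
      have h2 : ∏ j : J, ((2 * M j + 1 : ℝ) / (l * l') + 1) =
          (∏ j : J, (2 * M j + 1 : ℝ)) / ((l : ℝ) ^ N * (l' : ℝ) ^ N) *
            ∏ j : J, (1 + l * l' / (2 * M j + 1 : ℝ)) := by
        have h3 : ((l : ℝ) ^ N * (l' : ℝ) ^ N) = ∏ _j : J, (l : ℝ) * l' := by
          rw [Finset.prod_const, Finset.card_univ, ← mul_pow]
        rw [h3, ← Finset.prod_div_distrib, ← Finset.prod_mul_distrib]
        apply Finset.prod_congr rfl
        intro j _
        have := hMpos j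
        field_simp
      rw [h2, ← hBcard]
      have h4 : ∏ j : J, (1 + l * l' / (2 * M j + 1 : ℝ)) ≤ 1 + 2 ^ N * x₂ := by
        have h5 : ∏ j : J, (1 + l * l' / (2 * M j + 1 : ℝ)) ≤ (1 + x₂) ^ N := by
          have h6 : (1 + x₂) ^ N = ∏ _j : J, (1 + x₂) := by
            rw [Finset.prod_const, Finset.card_univ]
          rw [h6]
          apply Finset.prod_le_prod
          · intro j _
            have := hMpos j
            positivity
          · intro j _
            have h7 : (l * l' : ℝ) ≤ y ^ 2 := by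
              rw [pow_two]
              exact mul_le_mul (hly l hl) (hly l' hl') hl0'.le (by linarith)
            have : (l * l' : ℝ) / (2 * M j + 1 : ℝ) ≤ y ^ 2 / L :=
              div_le_div₀ (by positivity) h7 hL0 (hM j)
            linarith
        have h8 := pow_le_of_le_one hx₂0 hx₂1 N
        nlinarith
      calc ((Ω l).card : ℝ) * (Ω l').card * (B.card / ((l : ℝ) ^ N * (l' : ℝ) ^ N) *
            ∏ j : J, (1 + l * l' / (2 * M j + 1 : ℝ)))
          = ω l * ω l' * B.card * ∏ j : J, (1 + l * l' / (2 * M j + 1 : ℝ)) := by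
            simp only [ω]
            field_simp
        _ ≤ ω l * ω l' * B.card * (1 + 2 ^ N * x₂) := by
            apply mul_le_mul_of_nonneg_left h4
            exact mul_nonneg (mul_nonneg (hω0 l) (hω0 l')) (Nat.cast_nonneg _)
  -- the variance
  have hvar : ∑ v ∈ B, (∑ l ∈ 𝓛, f l v - W) ^ 2 ≤
      B.card * (k + W ^ 2 * (2 ^ N * x₂ + 2 * N * x₁)) := by
    have h1 : ∑ v ∈ B, (∑ l ∈ 𝓛, f l v - W) ^ 2 =
        ∑ l ∈ 𝓛, ∑ l' ∈ 𝓛, ∑ v ∈ B, f l v * f l' v - 2 * W * ∑ l ∈ 𝓛, ∑ v ∈ B, f l v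
          + W ^ 2 * B.card := by
      have h2 : ∀ v, (∑ l ∈ 𝓛, f l v - W) ^ 2 =
          ∑ l ∈ 𝓛, ∑ l' ∈ 𝓛, f l v * f l' v - 2 * W * ∑ l ∈ 𝓛, f l v + W ^ 2 := by
        intro v
        rw [← Finset.sum_mul_sum]
        ring
      simp only [h2]
      rw [Finset.sum_add_distrib, Finset.sum_sub_distrib, Finset.sum_const, nsmul_eq_mul,
        ← Finset.mul_sum, Finset.sum_comm]
      have h3 : ∑ l ∈ 𝓛, ∑ v ∈ B, ∑ l' ∈ 𝓛, f l v * f l' v =
          ∑ l ∈ 𝓛, ∑ l' ∈ 𝓛, ∑ v ∈ B, f l v * f l' v :=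
        Finset.sum_congr rfl fun l _ => Finset.sum_comm
      rw [h3, Finset.sum_comm (s := B) (t := 𝓛)]
      ring
    rw [h1]
    have h4 : ∑ l ∈ 𝓛, ∑ l' ∈ 𝓛, ∑ v ∈ B, f l v * f l' v ≤
        k * B.card + W ^ 2 * B.card * (1 + 2 ^ N * x₂) := by
      calc ∑ l ∈ 𝓛, ∑ l' ∈ 𝓛, ∑ v ∈ B, f l v * f l' v
          ≤ ∑ l ∈ 𝓛, ∑ l' ∈ 𝓛, ((if l = l' then (B.card : ℝ) else 0) +
              ω l * ω l' * B.card * (1 + 2 ^ N * x₂)) :=
            Finset.sum_le_sum fun l hl => Finset.sum_le_sum fun l' hl' => hS2 l hl l' hl'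
        _ = k * B.card + W ^ 2 * B.card * (1 + 2 ^ N * x₂) := by
            simp only [Finset.sum_add_distrib]
            congr 1
            · have : ∀ l ∈ 𝓛, ∑ l' ∈ 𝓛, (if l = l' then (B.card : ℝ) else 0) = B.card := by
                intro l hl
                rw [Finset.sum_ite_eq, if_pos hl]
              rw [Finset.sum_congr rfl this, Finset.sum_const, nsmul_eq_mul]
            · have : W ^ 2 = ∑ l ∈ 𝓛, ∑ l' ∈ 𝓛, ω l * ω l' := by
                rw [pow_two, hW, Finset.sum_mul_sum]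
              rw [this]
              simp only [Finset.sum_mul]
    have h5 : W * B.card * (1 - N * x₁) ≤ ∑ l ∈ 𝓛, ∑ v ∈ B, f l v := by
      have h6 : W * B.card * (1 - N * x₁) = ∑ l ∈ 𝓛, ω l * B.card * (1 - N * x₁) := by
        rw [hW]
        simp only [Finset.sum_mul]
      rw [h6]
      exact Finset.sum_le_sum hS1
    have h7 : 2 * W * (W * B.card * (1 - N * x₁)) ≤ 2 * W * ∑ l ∈ 𝓛, ∑ v ∈ B, f l v :=
      mul_le_mul_of_nonneg_left h5 (mul_pos two_pos hWpos).le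
    have h8 : k * B.card + W ^ 2 * B.card * (1 + 2 ^ N * x₂) -
        2 * W * (W * B.card * (1 - N * x₁)) + W ^ 2 * B.card =
        B.card * (k + W ^ 2 * (2 ^ N * x₂ + 2 * N * x₁)) := by ring
    rw [← h8]
    exact add_le_add (sub_le_sub h4 h7) le_rfl
  -- the bad set
  set Bad := (box M).filter fun v => ∀ l ∈ 𝓛, red l v ∉ Ω l with hBad
  have hbad : (Bad.card : ℝ) * W ^ 2 ≤ ∑ v ∈ B, (∑ l ∈ 𝓛, f l v - W) ^ 2 := by
    have h1 : ∑ v ∈ Bad, (∑ l ∈ 𝓛, f l v - W) ^ 2 = (Bad.card : ℝ) * W ^ 2 := by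
      rw [← nsmul_eq_mul, ← Finset.sum_const]
      apply Finset.sum_congr rfl
      intro v hv
      rw [hBad, Finset.mem_filter] at hv
      have h2 : ∑ l ∈ 𝓛, f l v = 0 := by
        apply Finset.sum_eq_zero
        intro l hl
        simp only [f, if_neg (hv.2 l hl)]
      rw [h2, zero_sub, neg_sq]
    rw [← h1]
    exact Finset.sum_le_sum_of_subset_of_nonneg (Finset.filter_subset _ _)
      fun _ _ _ => sq_nonneg _
  have hfinal : (Bad.card : ℝ) * W ^ 2 ≤ B.card * (k + W ^ 2 * (2 ^ N * x₂ + 2 * N * x₁)) :=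
    hbad.trans hvar
  have hW2 : 0 < W ^ 2 := pow_pos hWpos 2
  have h1 : (Bad.card : ℝ) ≤ B.card * (k / W ^ 2 + (2 ^ N * x₂ + 2 * N * x₁)) := by
    rw [← mul_le_mul_iff_of_pos_right hW2]
    refine hfinal.trans (le_of_eq ?_)
    field_simp
  refine h1.trans ?_
  apply mul_le_mul_of_nonneg_left _ (Nat.cast_nonneg _)
  have h2 : k / W ^ 2 ≤ 1 / (c₀ ^ 2 * k) := by
    rw [div_le_div_iff₀ hW2 (by positivity), one_mul]
    calc k * (c₀ ^ 2 * k) = (c₀ * k) ^ 2 := by ring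
      _ ≤ W ^ 2 := pow_le_pow_left₀ (by positivity) hWk 2
  have h3 : (2 : ℝ) ^ N * x₂ + 2 * N * x₁ ≤ (2 ^ N + 2 * N) * x₂ := by
    have : (0 : ℝ) ≤ 2 * N := by positivity
    nlinarith [mul_le_mul_of_nonneg_left hx₁₂ this]
  linarith

end Pool.Agent.Lib.MP_021685_agD
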