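import Mathlib
import Pool.Agent.Lib.MP_021685_agD.Turan
import Pool.Agent.Lib.MP_021685_agD.Primes

/-!
# The sieve for integer vectors with prescribed divisibility
-/

set_option autoImplicit false

namespace Pool.Agent.Lib.MP_021685_agD

open Filter Real

theorem sieve_params' (N₀ : ℕ) {δ : ℝ} (hδ : 0 < δ) (hδ1 : δ ≤ 1) :
    ∃ q₀ : ℕ, ∀ q : ℕ, q₀ ≤ q → IsPrimePow q →
    ∃ n : ℕ, 1 ≤ n ∧ (n : ℝ) ^ 2 ≤ (q : ℝ) ^ δ ∧
      (n : ℝ) ^ 2 / (q : ℝ) ^ δ ≤ (q : ℝ) ^ (-(δ / 3)) ∧ (sievePrimes N₀ n q).Nonempty ∧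
      1 / ((sievePrimes N₀ n q).card : ℝ) ≤ 3 * Real.log q * (q : ℝ) ^ (-(δ / 3)) := by
  obtain ⟨n₀, hn₀⟩ := card_sievePrimes N₀
  obtain ⟨q₁, hq₁⟩ : ∃ q₁ : ℕ, ((max n₀ 2 : ℕ) : ℝ) ^ (3 / δ) ≤ q₁ := exists_nat_ge _
  refine ⟨q₁, fun q hq hqp => ?_⟩
  have hq1 : (1 : ℝ) < q := by exact_mod_cast hqp.one_lt
  have hq0 : (0 : ℝ) < q := by linarith
  set x : ℝ := (q : ℝ) ^ (δ / 3) with hx
  have hx1 : 1 ≤ x := Real.one_le_rpow hq1.le (by positivity)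
  have hx0 : 0 < x := by linarith
  have hx3 : (q : ℝ) ^ δ = x ^ 3 := by
    rw [hx, ← Real.rpow_natCast, ← Real.rpow_mul hq0.le]
    congr 1
    push_cast
    ring
  have hxinv : (q : ℝ) ^ (-(δ / 3)) = x⁻¹ := by rw [Real.rpow_neg hq0.le]
  have hlogx : Real.log x = (δ / 3) * Real.log q := by
    rw [hx, Real.log_rpow hq0]
  have hmax : ((max n₀ 2 : ℕ) : ℝ) ≤ x := by
    have h1 : ((max n₀ 2 : ℕ) : ℝ) ^ (3 / δ) ≤ (q : ℝ) := hq₁.trans (by exact_mod_cast hq)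
    have h2 : (((max n₀ 2 : ℕ) : ℝ) ^ (3 / δ)) ^ (δ / 3) ≤ x :=
      Real.rpow_le_rpow (by positivity) h1 (by positivity)
    rw [← Real.rpow_mul (Nat.cast_nonneg _)] at h2
    have h3 : 3 / δ * (δ / 3) = 1 := by field_simp
    rw [h3, Real.rpow_one] at h2
    exact h2
  set n : ℕ := ⌊x⌋₊ with hn
  have hnmax : max n₀ 2 ≤ n := Nat.le_floor hmax
  have hnn₀ : n₀ ≤ n := le_trans (le_max_left _ _) hnmax
  have hn2 : 2 ≤ n := le_trans (le_max_right _ _) hnmax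
  have hn2' : (2 : ℝ) ≤ n := by exact_mod_cast hn2
  have hnx : (n : ℝ) ≤ x := Nat.floor_le hx0.le
  have hxn : x < n + 1 := Nat.lt_floor_add_one x
  have hn22 : (n : ℝ) ^ 2 ≤ x ^ 2 := pow_le_pow_left₀ (by linarith) hnx 2
  have hlogn : 0 < Real.log n := Real.log_pos (by linarith)
  have hcard := hn₀ n hnn₀ q hqp
  have hcpos : 0 < ((sievePrimes N₀ n q).card : ℝ) := by
    by_contra hcon
    have h1 : ((sievePrimes N₀ n q).card : ℝ) = 0 :=
      le_antisymm (not_lt.1 hcon) (Nat.cast_nonneg _)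
    rw [h1, zero_mul] at hcard
    linarith
  refine ⟨n, by omega, ?_, ?_, ?_, ?_⟩
  · rw [hx3]
    exact hn22.trans (pow_le_pow_right₀ hx1 (by norm_num))
  · rw [hx3, hxinv, div_le_iff₀ (by positivity)]
    calc (n : ℝ) ^ 2 ≤ x ^ 2 := hn22
      _ = x⁻¹ * x ^ 3 := by field_simp
  · rw [← Finset.card_pos]
    exact_mod_cast hcpos
  · rw [hxinv, div_le_iff₀ hcpos]
    have h1 : Real.log n ≤ Real.log x := Real.log_le_log (by linarith) hnx
    have hlogq : 0 < Real.log q := Real.log_pos hq1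
    have h0 : Real.log x ≤ (1 / 3) * Real.log q := by
      rw [hlogx]
      apply mul_le_mul_of_nonneg_right _ hlogq.le
      linarith
    have h2 : (1 / 4 : ℝ) * n ≤ (sievePrimes N₀ n q).card * ((1 / 3) * Real.log q) :=
      hcard.trans (mul_le_mul_of_nonneg_left (h1.trans h0) hcpos.le)
    have h3 : x / 2 ≤ n := by linarith
    have h4 : 1 ≤ 3 * (((sievePrimes N₀ n q).card : ℝ) * Real.log q) * x⁻¹ := by
      rw [← div_eq_mul_inv, le_div_iff₀ hx0]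
      linarith
    linarith

/-- The sieve: few integer vectors in a box, with prescribed divisors of the coordinates, avoid
large sets of residues modulo all primes. -/
theorem sieve_box (J : Type) [Fintype J] [DecidableEq J] (N₀ : ℕ) {c₀ : ℝ} (hc₀ : 0 < c₀)
    {δ : ℝ} (hδ : 0 < δ) (hδ1 : δ ≤ 1) :
    ∃ C : ℝ, 0 ≤ C ∧ ∃ q₀ : ℕ, ∀ q : ℕ, q₀ ≤ q → IsPrimePow q →
      ∀ (M D : J → ℕ), (∀ j, D j ≠ 0) → (∀ j, ∀ l : ℕ, l.Prime → l ∣ D j → l ∣ q) →
      (∀ j, (D j : ℝ) * (q : ℝ) ^ δ ≤ M j) →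
      ∀ Ω : ∀ l : ℕ, Finset (J → ZMod l),
        (∀ l : ℕ, l.Prime → N₀ < l → ¬ l ∣ q → c₀ * (l : ℝ) ^ Fintype.card J ≤ (Ω l).card) →
      ({v : J → ℤ | v ∈ box M ∧ (∀ j, (D j : ℤ) ∣ v j) ∧
        ∀ l : ℕ, l.Prime → N₀ < l → ¬ l ∣ q → red l v ∉ Ω l}.ncard : ℝ) ≤
        C * (Real.log q * (q : ℝ) ^ (-(δ / 3))) * ∏ j, ((M j : ℝ) / D j) := by
  classical
  set N : ℕ := Fintype.card J with hN
  obtain ⟨q₀, hq₀⟩ := sieve_params' N₀ hδ hδ1
  refine ⟨3 ^ N * (3 / c₀ ^ 2 + (2 ^ N + 2 * N)), by positivity, max q₀ 3,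
    fun q hq hqp M D hD0 hDl hDM Ω hΩ => ?_⟩
  have hqq₀ : q₀ ≤ q := le_trans (le_max_left _ _) hq
  have hq3 : 3 ≤ q := le_trans (le_max_right _ _) hq
  obtain ⟨n, hn1, hn2, hn3, hn4, hn5⟩ := hq₀ q hqq₀ hqp
  set 𝓛 := sievePrimes N₀ n q with h𝓛
  have hq1 : (1 : ℝ) < q := by exact_mod_cast hqp.one_lt
  have hq0 : (0 : ℝ) < q := by linarith
  have hL1 : 1 ≤ (q : ℝ) ^ δ := Real.one_le_rpow hq1.le hδ.le
  have hlog : 1 ≤ Real.log q := by
    rw [Real.le_log_iff_exp_le hq0]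
    have h1 := Real.exp_one_lt_d9
    have h2 : (3 : ℝ) ≤ q := by exact_mod_cast hq3
    linarith
  have hDpos : ∀ j, (0 : ℝ) < D j := fun j => by exact_mod_cast Nat.pos_of_ne_zero (hD0 j)
  let M' : J → ℕ := fun j => M j / D j
  have hM' : ∀ j, (q : ℝ) ^ δ ≤ 2 * M' j + 1 := by
    intro j
    have h1 : (q : ℝ) ^ δ ≤ (M j : ℝ) / D j := by
      rw [le_div_iff₀ (hDpos j), mul_comm]
      exact hDM j
    have h2 : (M j : ℝ) / D j < (M' j : ℝ) + 1 := by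
      rw [div_lt_iff₀ (hDpos j)]
      have h3 : M j < M j / D j * D j + D j := Nat.lt_div_mul_add (Nat.pos_of_ne_zero (hD0 j))
      have h4 : M j < (M j / D j + 1) * D j := by
        rw [add_mul, one_mul]; exact h3
      exact_mod_cast h4
    have h3 : (0 : ℝ) ≤ M' j := Nat.cast_nonneg _
    linarith
  let Ω' : ∀ l : ℕ, Finset (J → ZMod l) := fun l =>
    if h : l.Prime then
      haveI : Fact l.Prime := ⟨h⟩
      (Ω l).image fun ρ j => (D j : ZMod l)⁻¹ * ρ j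
    else ∅
  have hΩ'mem : ∀ l ∈ 𝓛, ∀ ρ : J → ZMod l, ρ ∈ Ω' l → (fun j => (D j : ZMod l) * ρ j) ∈ Ω l := by
    intro l hl ρ hρ
    obtain ⟨-, hlp, hlN, hlq⟩ := mem_sievePrimes.1 hl
    have : Fact l.Prime := ⟨hlp⟩
    simp only [Ω', dif_pos hlp] at hρ
    obtain ⟨ρ', hρ', rfl⟩ := Finset.mem_image.1 hρ
    have h1 : (fun j => (D j : ZMod l) * ((D j : ZMod l)⁻¹ * ρ' j)) = ρ' := by
      funext j
      rw [← mul_assoc, mul_inv_cancel₀, one_mul]
      rw [Ne, ZMod.natCast_eq_zero_iff]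
      exact fun h => hlq (hDl j l hlp h)
    rw [h1]
    exact hρ'
  have hΩ'card : ∀ l ∈ 𝓛, c₀ * (l : ℝ) ^ N ≤ (Ω' l).card := by
    intro l hl
    obtain ⟨-, hlp, hlN, hlq⟩ := mem_sievePrimes.1 hl
    have : Fact l.Prime := ⟨hlp⟩
    simp only [Ω', dif_pos hlp]
    rw [Finset.card_image_of_injective]
    · exact hΩ l hlp hlN hlq
    · intro ρ ρ' h
      funext j
      have h1 := congrFun h j
      simp only at h1
      apply mul_left_cancel₀ _ h1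
      apply inv_ne_zero
      rw [Ne, ZMod.natCast_eq_zero_iff]
      exact fun h => hlq (hDl j l hlp h)
  have hsieve := turan M' 𝓛 (fun l hl => (mem_sievePrimes.1 hl).2.1) Ω' n ((q : ℝ) ^ δ) c₀ hc₀
    (by exact_mod_cast hn1) hn2 (fun l hl => by exact_mod_cast (mem_sievePrimes.1 hl).1)
    hM' hΩ'card hn4
  -- the box
  have hbox : ((box M').card : ℝ) ≤ 3 ^ N * ∏ j, ((M j : ℝ) / D j) := by
    rw [card_box, Nat.cast_prod]
    have h3 : (3 : ℝ) ^ N = ∏ _j : J, (3 : ℝ) := by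
      rw [Finset.prod_const, Finset.card_univ]
    rw [h3, ← Finset.prod_mul_distrib]
    apply Finset.prod_le_prod (fun j _ => Nat.cast_nonneg _)
    intro j _
    have h1 : (q : ℝ) ^ δ ≤ (M j : ℝ) / D j := by
      rw [le_div_iff₀ (hDpos j), mul_comm]
      exact hDM j
    have h2 : ((M' j : ℕ) : ℝ) ≤ (M j : ℝ) / D j := Nat.cast_div_le
    push_cast
    linarith
  -- the injection
  set Bad : Set (J → ℤ) := {v : J → ℤ | v ∈ box M ∧ (∀ j, (D j : ℤ) ∣ v j) ∧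
        ∀ l : ℕ, l.Prime → N₀ < l → ¬ l ∣ q → red l v ∉ Ω l} with hBad
  let f : (J → ℤ) → (J → ℤ) := fun v j => v j / D j
  have hDZ : ∀ j, (D j : ℤ) ≠ 0 := fun j => by exact_mod_cast hD0 j
  have hmaps : Set.MapsTo f Bad
      (((box M').filter fun v => ∀ l ∈ 𝓛, red l v ∉ Ω' l : Finset (J → ℤ)) : Set (J → ℤ)) := by
    rintro v ⟨hv1, hv2, hv3⟩
    rw [Finset.mem_coe, Finset.mem_filter]
    constructor
    · rw [box, Fintype.mem_piFinset] at hv1 ⊢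
      intro j
      have h1 := Finset.mem_Icc.1 (hv1 j)
      obtain ⟨w, hw⟩ := hv2 j
      have h2 : f v j = w := by
        simp only [f]
        rw [hw, Int.mul_ediv_cancel_left _ (hDZ j)]
      rw [h2, Finset.mem_Icc]
      have hDp : (0 : ℤ) < D j := by
        have := hDZ j
        omega
      have h3 : w.natAbs ≤ M j / D j := by
        rw [Nat.le_div_iff_mul_le (Nat.pos_of_ne_zero (hD0 j))]
        have h4 : (v j).natAbs ≤ M j := by omega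
        rw [hw, Int.natAbs_mul, Int.natAbs_natCast, mul_comm] at h4
        exact h4
      simp only [M']
      omega
    · intro l hl hmem
      obtain ⟨-, hlp, hlN, hlq⟩ := mem_sievePrimes.1 hl
      apply hv3 l hlp hlN hlq
      have h1 := hΩ'mem l hl _ hmem
      have h2 : (fun j => (D j : ZMod l) * red l (f v) j) = red l v := by
        funext j
        obtain ⟨w, hw⟩ := hv2 j
        simp only [red, f]
        rw [hw, Int.mul_ediv_cancel_left _ (hDZ j)]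
        push_cast
        rfl
      rw [← h2]
      exact h1
  have hinj : Set.InjOn f Bad := by
    rintro v ⟨-, hv2, -⟩ w ⟨-, hw2, -⟩ h
    funext j
    have h1 := congrFun h j
    simp only [f] at h1
    obtain ⟨a, ha⟩ := hv2 j
    obtain ⟨b, hb⟩ := hw2 j
    rw [ha, hb, Int.mul_ediv_cancel_left _ (hDZ j), Int.mul_ediv_cancel_left _ (hDZ j)] at h1
    rw [ha, hb, h1]
  have hcard := Set.ncard_le_ncard_of_injOn _ hmaps hinj (Finset.finite_toSet _)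
  rw [Set.ncard_coe_finset] at hcard
  have hcard' : (Bad.ncard : ℝ) ≤
      ((box M').filter fun v => ∀ l ∈ 𝓛, red l v ∉ Ω' l).card := by exact_mod_cast hcard
  refine hcard'.trans (hsieve.trans ?_)
  set t : ℝ := (q : ℝ) ^ (-(δ / 3)) with ht
  have ht0 : 0 ≤ t := Real.rpow_nonneg (Nat.cast_nonneg _) _
  have hlt : t ≤ Real.log q * t := by nlinarith
  have h1 : 1 / (c₀ ^ 2 * (𝓛.card : ℝ)) ≤ 3 / c₀ ^ 2 * (Real.log q * t) := by
    have h2 : 1 / (c₀ ^ 2 * (𝓛.card : ℝ)) = 1 / c₀ ^ 2 * (1 / (𝓛.card : ℝ)) := by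
      rw [one_div_mul_one_div]
    rw [h2]
    calc 1 / c₀ ^ 2 * (1 / (𝓛.card : ℝ)) ≤ 1 / c₀ ^ 2 * (3 * Real.log q * t) :=
          mul_le_mul_of_nonneg_left hn5 (by positivity)
      _ = 3 / c₀ ^ 2 * (Real.log q * t) := by ring
  have h2 : ((2 : ℝ) ^ N + 2 * N) * ((n : ℝ) ^ 2 / (q : ℝ) ^ δ) ≤
      ((2 : ℝ) ^ N + 2 * N) * (Real.log q * t) :=
    mul_le_mul_of_nonneg_left (hn3.trans hlt) (by positivity)
  have hprod0 : 0 ≤ ∏ j, ((M j : ℝ) / D j) :=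
    Finset.prod_nonneg fun j _ => div_nonneg (Nat.cast_nonneg _) (Nat.cast_nonneg _)
  calc ((box M').card : ℝ) * (1 / (c₀ ^ 2 * (𝓛.card : ℝ)) +
        (2 ^ Fintype.card J + 2 * Fintype.card J) * ((n : ℝ) ^ 2 / (q : ℝ) ^ δ))
      ≤ (3 ^ N * ∏ j, ((M j : ℝ) / D j)) *
          (3 / c₀ ^ 2 * (Real.log q * t) + ((2 : ℝ) ^ N + 2 * N) * (Real.log q * t)) := by
        rw [← hN]
        apply mul_le_mul hbox (add_le_add h1 h2)
        · positivity
        · positivity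
    _ = 3 ^ N * (3 / c₀ ^ 2 + (2 ^ N + 2 * N)) * (Real.log q * t) *
          ∏ j, ((M j : ℝ) / D j) := by ring

end Pool.Agent.Lib.MP_021685_agD
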