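import Mathlib
import Pool.Agent.Lib.MP_021685_agD.Omega
import Pool.Agent.Lib.MP_021685_agD.CycleCount
import Pool.Agent.Lib.MP_021685_agD.Sieve
import Pool.Agent.Lib.MP_021685_agD.Lower

/-!
# Counting in Newton strata
-/

set_option autoImplicit false

open Polynomial

namespace Pool.Agent.Lib.MP_021685_agD

/-- The vector of the upper coefficients. -/
def up (g : ℕ) (P : ℤ[X]) : Fin g → ℤ := fun k => P.coeff (2 * g - 1 - k)

/-- The volume of a stratum. -/
noncomputable def vol (p g q : ℕ) (E : Fin g → ℕ) : ℝ :=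
  ∏ k : Fin g, (Real.sqrt q ^ ((k : ℕ) + 1) / (p : ℝ) ^ E k)

/-- The condition on the exponents: `p ^ E k ≤ q ^ ((k + 1) / 2 - δ)`. -/
def Small (p g q : ℕ) (δ : ℝ) (E : Fin g → ℕ) : Prop :=
  ∀ k : Fin g, (p : ℝ) ^ E k * (q : ℝ) ^ δ ≤ Real.sqrt q ^ ((k : ℕ) + 1)

theorem up_injOn (g : ℕ) {q : ℕ} (hq : q ≠ 0) : Set.InjOn (up g) (weilPolys g q) := by
  intro P hP Q hQ h
  have hq' : ((q : ℕ) : ℤ) ≠ 0 := by exact_mod_cast hq
  have h1 := circle_funEq (weil_subset_circle hP)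
  have h2 := circle_funEq (weil_subset_circle hQ)
  rw [hP.2.2.1] at h1
  rw [hQ.2.2.1] at h2
  refine eq_of_upper hq' hP.2.1 hQ.2.1 hP.1 hQ.1 h1 h2 ?_
  intro i hi
  rw [Nat.mul_div_cancel_left _ (by norm_num : 0 < 2)] at hi
  exact congrFun h ⟨i, hi⟩

theorem up_mem_box {g q : ℕ} {P : ℤ[X]} (hP : P ∈ weilPolys g q) :
    up g P ∈ box (fun k : Fin g => side (2 * g) q k) := by
  rw [box, Fintype.mem_piFinset]
  intro k
  exact upper_mem (weil_subset_circle hP) (by have := k.2; omega)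

theorem closed_dvd {p g q : ℕ} {E : Fin g → ℕ} {P : ℤ[X]} (hP : P ∈ closedStratum p g q E)
    (k : Fin g) : ((p ^ E k : ℕ) : ℤ) ∣ up g P k := by
  have h1 := hP.2 k
  have h2 : 2 * g - ((k : ℕ) + 1) = 2 * g - 1 - k := by omega
  rw [h2] at h1
  push_cast
  exact h1

theorem sqrt_pow_le_side {d q i : ℕ} (hd : d ≠ 0) (hq : q ≠ 0) :
    Real.sqrt q ^ (i + 1) ≤ side d q i := by
  have hs1 := one_le_sqrt hq
  have h0 : (1 : ℝ) ≤ Real.sqrt q ^ (i + 1) := one_le_pow₀ hs1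
  have h3 : (2 : ℝ) ≤ 2 ^ d := by
    calc (2 : ℝ) = 2 ^ 1 := (pow_one 2).symm
      _ ≤ 2 ^ d := pow_le_pow_right₀ (by norm_num) (Nat.one_le_iff_ne_zero.2 hd)
  have h2 : (2 : ℝ) ^ d * Real.sqrt q ^ (i + 1) < side d q i + 1 := Nat.lt_floor_add_one _
  nlinarith

section

variable {p g q : ℕ} {δ : ℝ} {E : Fin g → ℕ}

theorem vol_pos (hp : p.Prime) (hq : q ≠ 0) : 0 < vol p g q E := by
  have hs1 := one_le_sqrt hq
  have hp0 : (0 : ℝ) < p := by exact_mod_cast hp.pos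
  apply Finset.prod_pos
  intro k _
  positivity

theorem side_div_le (hp : p.Prime) :
    ∏ k : Fin g, ((side (2 * g) q k : ℝ) / ((p ^ E k : ℕ) : ℝ)) ≤
      (2 : ℝ) ^ (2 * g * g) * vol p g q E := by
  have hp0 : (0 : ℝ) < p := by exact_mod_cast hp.pos
  have h1 : (2 : ℝ) ^ (2 * g * g) = ∏ _k : Fin g, (2 : ℝ) ^ (2 * g) := by
    rw [Finset.prod_const, Finset.card_univ, Fintype.card_fin, ← pow_mul]
  rw [h1, vol, ← Finset.prod_mul_distrib]
  apply Finset.prod_le_prod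
  · intro k _
    positivity
  · intro k _
    push_cast
    rw [← mul_div_assoc]
    exact div_le_div_of_nonneg_right side_le (by positivity)

theorem small_side (hg : g ≠ 0) (hq : q ≠ 0) (hE : Small p g q δ E) (k : Fin g) :
    ((p ^ E k : ℕ) : ℝ) * (q : ℝ) ^ δ ≤ side (2 * g) q k := by
  push_cast
  exact (hE k).trans (sqrt_pow_le_side (by omega) hq)

theorem closed_finite (hq : q ≠ 0) : (closedStratum p g q E).Finite :=
  (weil_finite g hq).subset fun _ h => h.1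

/-- The size of a closed stratum. -/
theorem closed_card_le (hp : p.Prime) (hg : g ≠ 0) (hq : q ≠ 0) (hδ : 0 < δ)
    (hE : Small p g q δ E) : ((closedStratum p g q E).ncard : ℝ) ≤
      (3 ^ g * 2 ^ (2 * g * g)) * vol p g q E := by
  classical
  have hp0 : (0 : ℝ) < p := by exact_mod_cast hp.pos
  have hq1 : (1 : ℝ) ≤ q := by exact_mod_cast Nat.one_le_iff_ne_zero.2 hq
  let M' : Fin g → ℕ := fun k => side (2 * g) q k / p ^ E k
  let f : ℤ[X] → (Fin g → ℤ) := fun P k => up g P k / ((p ^ E k : ℕ) : ℤ)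
  have hDZ : ∀ k, ((p ^ E k : ℕ) : ℤ) ≠ 0 := fun k => by
    exact_mod_cast (pow_pos hp.pos (E k)).ne'
  have hmaps : Set.MapsTo f (closedStratum p g q E) ((box M' : Finset _) : Set (Fin g → ℤ)) := by
    intro P hP
    rw [Finset.mem_coe, box, Fintype.mem_piFinset]
    intro k
    have h0 := up_mem_box hP.1
    rw [box, Fintype.mem_piFinset] at h0
    have h1 := Finset.mem_Icc.1 (h0 k)
    obtain ⟨w, hw⟩ := closed_dvd hP k
    have h2 : f P k = w := by
      simp only [f]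
      rw [hw, Int.mul_ediv_cancel_left _ (hDZ k)]
    rw [h2, Finset.mem_Icc]
    have h3 : w.natAbs ≤ side (2 * g) q k / p ^ E k := by
      rw [Nat.le_div_iff_mul_le (pow_pos hp.pos (E k))]
      have h4 : (up g P k).natAbs ≤ side (2 * g) q k := by omega
      rw [hw, Int.natAbs_mul, Int.natAbs_natCast, mul_comm] at h4
      exact h4
    simp only [M']
    omega
  have hinj : Set.InjOn f (closedStratum p g q E) := by
    intro P hP Q hQ h
    apply up_injOn g hq hP.1 hQ.1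
    funext k
    have h1 := congrFun h k
    simp only [f] at h1
    obtain ⟨a, ha⟩ := closed_dvd hP k
    obtain ⟨b, hb⟩ := closed_dvd hQ k
    rw [ha, hb, Int.mul_ediv_cancel_left _ (hDZ k), Int.mul_ediv_cancel_left _ (hDZ k)] at h1
    rw [ha, hb, h1]
  have hcard := Set.ncard_le_ncard_of_injOn _ hmaps hinj (Finset.finite_toSet _)
  rw [Set.ncard_coe_finset, card_box] at hcard
  have hcard' : ((closedStratum p g q E).ncard : ℝ) ≤
      ((∏ k : Fin g, (2 * M' k + 1) : ℕ) : ℝ) := by exact_mod_cast hcard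
  refine hcard'.trans ?_
  rw [mul_assoc]
  refine le_trans ?_ (mul_le_mul_of_nonneg_left (side_div_le (g := g) (q := q) (E := E) hp)
    (by positivity : (0 : ℝ) ≤ 3 ^ g))
  rw [Nat.cast_prod]
  have h3 : (3 : ℝ) ^ g = ∏ _k : Fin g, (3 : ℝ) := by
    rw [Finset.prod_const, Finset.card_univ, Fintype.card_fin]
  rw [h3, ← Finset.prod_mul_distrib]
  apply Finset.prod_le_prod (fun _ _ => Nat.cast_nonneg _)
  intro k _
  have hD0 : (0 : ℝ) < ((p ^ E k : ℕ) : ℝ) := by exact_mod_cast pow_pos hp.pos (E k)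
  have h1 : 1 ≤ (side (2 * g) q k : ℝ) / ((p ^ E k : ℕ) : ℝ) := by
    rw [le_div_iff₀ hD0, one_mul]
    refine le_trans ?_ (small_side hg hq hE k)
    have h4 : (1 : ℝ) ≤ (q : ℝ) ^ δ := Real.one_le_rpow hq1 hδ.le
    nlinarith
  have h2 : ((M' k : ℕ) : ℝ) ≤ (side (2 * g) q k : ℝ) / ((p ^ E k : ℕ) : ℝ) := Nat.cast_div_le
  push_cast at h1 h2 ⊢
  linarith

end

/-- The size of an open stratum. -/
theorem open_card_ge (g : ℕ) (hg : g ≠ 0) {δ : ℝ} (hδ : 0 < δ) :
    ∃ c : ℝ, 0 < c ∧ ∃ q₀ : ℕ, ∀ p q : ℕ, p.Prime → p ∣ q → q₀ ≤ q → IsPrimePow q →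
      ∀ E : Fin g → ℕ, Small p g q δ E →
      c * vol p g q E ≤ ((openStratum p g q E).ncard : ℝ) := by
  classical
  have hg0 : (0 : ℝ) < g := by exact_mod_cast Nat.pos_of_ne_zero hg
  obtain ⟨q₁, hq₁⟩ : ∃ q₁ : ℕ, ((2 * g : ℕ) : ℝ) ^ (1 / δ) ≤ q₁ := exists_nat_ge _
  refine ⟨(1 / (4 * g)) ^ g, by positivity, q₁, fun p q hp hpq hq hqp E hE => ?_⟩
  have hq0 : q ≠ 0 := hqp.ne_zero
  have hp0 : (0 : ℝ) < p := by exact_mod_cast hp.pos
  set s : ℝ := Real.sqrt q with hs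
  have hs1 : 1 ≤ s := one_le_sqrt hq0
  have hs0 : 0 < s := by linarith
  have hgδ : (2 * g : ℝ) ≤ (q : ℝ) ^ δ := by
    have h1 : ((2 * g : ℕ) : ℝ) ^ (1 / δ) ≤ (q : ℝ) := hq₁.trans (by exact_mod_cast hq)
    have h2 : (((2 * g : ℕ) : ℝ) ^ (1 / δ)) ^ δ ≤ (q : ℝ) ^ δ :=
      Real.rpow_le_rpow (by positivity) h1 hδ.le
    rw [← Real.rpow_mul (Nat.cast_nonneg _)] at h2
    have h3 : 1 / δ * δ = 1 := by field_simp
    rw [h3, Real.rpow_one] at h2
    push_cast at h2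
    exact h2
  -- exponents in the order of `lowPoly`
  let E' : Fin g → ℕ := fun k => E k.rev
  let x : Fin g → ℝ := fun k => s ^ (g - (k : ℕ)) / (2 * g * (p : ℝ) ^ E' k)
  have hrev : ∀ k : Fin g, ((k.rev : Fin g) : ℕ) + 1 = g - k := by
    intro k
    rw [Fin.val_rev]
    have := k.2
    omega
  have hx1 : ∀ k, 1 ≤ x k := by
    intro k
    simp only [x]
    rw [le_div_iff₀ (by positivity), one_mul]
    have h1 := hE k.rev
    rw [hrev k] at h1
    refine le_trans ?_ h1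
    rw [mul_comm]
    exact mul_le_mul_of_nonneg_left hgδ (by positivity)
  have hM := fun k : Fin g => card_coprime_ge hqp ⌊x k⌋₊
  choose A hA1 hA2 using hM
  have hfin : (openStratum p g q E).Finite := (weil_finite g hq0).subset fun _ h => h.1
  let F : (Fin g → ℤ) → ℤ[X] := fun u => lowPoly g q fun k => (p : ℤ) ^ E' k * u k
  have hcoef : ∀ (u : Fin g → ℤ) (k : Fin g),
      (F u).coeff (2 * g - ((k : ℕ) + 1)) = (p : ℤ) ^ E k * u k.rev := by
    intro u k
    have h1 := lowPoly_coeff (q := q) (fun k => (p : ℤ) ^ E' k * u k) k.rev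
    have h2 : g + ((k.rev : Fin g) : ℕ) = 2 * g - ((k : ℕ) + 1) := by
      rw [Fin.val_rev]
      have := k.2
      omega
    rw [h2] at h1
    simp only [F]
    rw [h1]
    simp only [E', Fin.rev_rev]
  have hmem : ∀ u ∈ Fintype.piFinset A, F u ∈ openStratum p g q E := by
    intro u hu
    rw [Fintype.mem_piFinset] at hu
    refine ⟨lowPoly_mem hg hq0 _ fun k => ?_, fun k => ?_⟩
    · have h1 := (hA1 k _ (hu k)).1
      have h2 : (|(u k : ℝ)|) ≤ (⌊x k⌋₊ : ℝ) := by exact_mod_cast h1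
      have h3 : (⌊x k⌋₊ : ℝ) ≤ x k := Nat.floor_le (by linarith [hx1 k])
      have h4 := h2.trans h3
      simp only [x] at h4
      rw [le_div_iff₀ (by positivity)] at h4
      push_cast
      rw [abs_mul, abs_of_pos (by positivity : (0 : ℝ) < (p : ℝ) ^ E' k)]
      linarith
    · rw [hcoef]
      refine ⟨Dvd.intro _ rfl, ?_⟩
      intro h1
      rw [pow_succ] at h1
      have hpZ : (p : ℤ) ^ E k ≠ 0 := pow_ne_zero _ (by exact_mod_cast hp.ne_zero)
      have h2 := (mul_dvd_mul_iff_left hpZ).1 h1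
      have h3 := (hA1 _ _ (hu k.rev)).2
      have h4 : (p : ℤ) ∣ (q : ℤ) := by exact_mod_cast hpq
      have h5 := h3.isUnit_of_dvd' h2 h4
      exact (Nat.prime_iff_prime_int.1 hp).not_isUnit h5
  have hinj : Function.Injective F := by
    intro u u' h
    funext k
    have h1 := hcoef u k.rev
    rw [h, hcoef u' k.rev, Fin.rev_rev] at h1
    have hpZ : (p : ℤ) ^ E k.rev ≠ 0 := pow_ne_zero _ (by exact_mod_cast hp.ne_zero)
    exact (mul_left_cancel₀ hpZ h1).symm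
  have h1 : (Fintype.piFinset A).card ≤ (openStratum p g q E).ncard := by
    rw [← Finset.card_image_of_injective _ hinj, ← Set.ncard_coe_finset]
    apply Set.ncard_le_ncard _ hfin
    intro P hP
    rw [Finset.mem_coe, Finset.mem_image] at hP
    obtain ⟨u, hu, rfl⟩ := hP
    exact hmem u hu
  have h2 : ∏ k, (x k / 2) ≤ ((Fintype.piFinset A).card : ℝ) := by
    rw [Fintype.card_piFinset, Nat.cast_prod]
    apply Finset.prod_le_prod
    · intro k _
      linarith [hx1 k]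
    · intro k _
      have h3 : x k < ⌊x k⌋₊ + 1 := Nat.lt_floor_add_one _
      have h4 : (1 : ℝ) ≤ ⌊x k⌋₊ := by
        exact_mod_cast Nat.le_floor (by simpa using hx1 k)
      have h5 : ((⌊x k⌋₊ : ℕ) : ℝ) ≤ (A k).card := by exact_mod_cast hA2 k
      linarith
  have h3 : ∏ k, (x k / 2) = (1 / (4 * g)) ^ g * vol p g q E := by
    have h4 : ((1 : ℝ) / (4 * g)) ^ g = ∏ _k : Fin g, (1 / (4 * g) : ℝ) := by
      rw [Finset.prod_const, Finset.card_univ, Fintype.card_fin]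
    have h5 : vol p g q E = ∏ k : Fin g, (s ^ (g - (k : ℕ)) / (p : ℝ) ^ E' k) := by
      rw [vol, ← Equiv.prod_comp Fin.revPerm]
      apply Finset.prod_congr rfl
      intro k _
      simp only [Fin.revPerm_apply, E']
      rw [hrev k]
    rw [h4, h5, ← Finset.prod_mul_distrib]
    apply Finset.prod_congr rfl
    intro k _
    simp only [x]
    field_simp
    ring
  rw [← h3]
  exact h2.trans (by exact_mod_cast h1)

/-- Few polynomials in a stratum have no prime giving a cycle on the pairs. -/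
theorem noCycle_card (g : ℕ) (hg : g ≠ 0) {δ : ℝ} (hδ : 0 < δ) (hδ1 : δ ≤ 1) :
    ∃ C : ℝ, 0 ≤ C ∧ ∃ q₀ : ℕ, ∀ p q : ℕ, p.Prime → q₀ ≤ q → p ∣ q → IsPrimePow q →
      ∀ E : Fin g → ℕ, Small p g q δ E →
      ({P | P ∈ closedStratum p g q E ∧ ∀ l : ℕ, l.Prime → ¬ l ∣ q → ¬ CycleAt q g P l}.ncard : ℝ) ≤
      C * (Real.log q * (q : ℝ) ^ (-(δ / 3))) * vol p g q E := by
  classical
  have hg0 : (0 : ℝ) < g := by exact_mod_cast Nat.pos_of_ne_zero hg
  obtain ⟨C, hC0, q₀, hq₀⟩ := sieve_box (Fin g) 4 (c₀ := 1 / (2 * g)) (by positivity) hδ hδ1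
  refine ⟨C * 2 ^ (2 * g * g), by positivity, max q₀ 3, fun p q hp hq hpq hqp E hE => ?_⟩
  have hq0 : q ≠ 0 := hqp.ne_zero
  have hqq₀ : q₀ ≤ q := le_trans (le_max_left _ _) hq
  have hq3 : 3 ≤ q := le_trans (le_max_right _ _) hq
  have hex : ∀ l : ℕ, l.Prime → 4 < l → ¬ l ∣ q → ∃ Ω : Finset (Fin g → ZMod l),
      1 / (2 * g) * (l : ℝ) ^ Fintype.card (Fin g) ≤ Ω.card ∧
      ∀ P ∈ weilPolys g q, red l (up g P) ∈ Ω → CycleAt q g P l := by
    intro l hl hl4 hlq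
    have : Fact l.Prime := ⟨hl⟩
    obtain ⟨Ω, hΩ1, hΩ2⟩ := exists_omega_cycle (l := l) (by omega) hlq hg
    refine ⟨Ω, ?_, ?_⟩
    · rw [Fintype.card_fin, one_div, inv_mul_le_iff₀ (by positivity)]
      exact_mod_cast hΩ1
    · intro P hP h
      apply hΩ2 P hP
      have h1 : (fun k : Fin g => (P.map (Int.castRingHom (ZMod l))).coeff (2 * g - 1 - k)) =
          red l (up g P) := by
        funext k
        simp [red, up, coeff_map]
      rw [h1]
      exact h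
  choose! Ω hΩ1 hΩ2 using hex
  have hbad := hq₀ q hqq₀ hqp (fun k : Fin g => side (2 * g) q k) (fun k => p ^ E k)
    (fun k => (pow_pos hp.pos _).ne')
    (fun k l hl hlD => by
      have h1 := hl.dvd_of_dvd_pow hlD
      exact h1.trans hpq)
    (fun k => small_side hg hq0 hE k) Ω hΩ1
  have hmaps : Set.MapsTo (up g)
      {P | P ∈ closedStratum p g q E ∧ ∀ l : ℕ, l.Prime → ¬ l ∣ q → ¬ CycleAt q g P l}
      {v : Fin g → ℤ | v ∈ box (fun k : Fin g => side (2 * g) q k) ∧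
        (∀ k, ((p ^ E k : ℕ) : ℤ) ∣ v k) ∧
        ∀ l : ℕ, l.Prime → 4 < l → ¬ l ∣ q → red l v ∉ Ω l} := by
    rintro P ⟨hP, hbadP⟩
    refine ⟨up_mem_box hP.1, closed_dvd hP, fun l hl hl4 hlq hmem => ?_⟩
    exact hbadP l hl hlq (hΩ2 l hl hl4 hlq P hP.1 hmem)
  have hinj : Set.InjOn (up g)
      {P | P ∈ closedStratum p g q E ∧ ∀ l : ℕ, l.Prime → ¬ l ∣ q → ¬ CycleAt q g P l} :=
    (up_injOn g hq0).mono fun _ h => h.1.1
  have hfin : {v : Fin g → ℤ | v ∈ box (fun k : Fin g => side (2 * g) q k) ∧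
        (∀ k, ((p ^ E k : ℕ) : ℤ) ∣ v k) ∧
        ∀ l : ℕ, l.Prime → 4 < l → ¬ l ∣ q → red l v ∉ Ω l}.Finite :=
    (Finset.finite_toSet (box (fun k : Fin g => side (2 * g) q k))).subset fun _ h => h.1
  have hcard := Set.ncard_le_ncard_of_injOn _ hmaps hinj hfin
  have hcard' := (Nat.cast_le (α := ℝ)).2 hcard
  refine hcard'.trans (hbad.trans ?_)
  have hlog : 0 ≤ Real.log q := Real.log_natCast_nonneg q
  have ht0 : 0 ≤ (q : ℝ) ^ (-(δ / 3)) := Real.rpow_nonneg (Nat.cast_nonneg _) _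
  calc C * (Real.log q * (q : ℝ) ^ (-(δ / 3))) *
        ∏ k : Fin g, ((side (2 * g) q k : ℝ) / ((p ^ E k : ℕ) : ℝ))
      ≤ C * (Real.log q * (q : ℝ) ^ (-(δ / 3))) * ((2 : ℝ) ^ (2 * g * g) * vol p g q E) :=
        mul_le_mul_of_nonneg_left (side_div_le hp) (by positivity)
    _ = _ := by ring

end Pool.Agent.Lib.MP_021685_agD
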