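import Mathlib
import Pool.Agent.Lib.MP_021685_agD.Strata
import Pool.Agent.Lib.MP_021685_agD.Alg

/-!
# Almost all families of Weil polynomials in Newton strata
-/

set_option autoImplicit false

open Polynomial

namespace Pool.Agent.Lib.MP_021685_agD

theorem ncard_pi_set {ι : Type} [Fintype ι] [DecidableEq ι] {α : Type} (S : ι → Set α)
    (hS : ∀ i, (S i).Finite) :
    {P : ι → α | ∀ i, P i ∈ S i}.ncard = ∏ i, (S i).ncard := by
  classical
  have h : {P : ι → α | ∀ i, P i ∈ S i} =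
      ((Fintype.piFinset fun i => (hS i).toFinset : Finset (ι → α)) : Set (ι → α)) := by
    ext P
    simp
  rw [h, Set.ncard_coe_finset, Fintype.card_piFinset]
  apply Finset.prod_congr rfl
  intro i _
  rw [Set.ncard_eq_toFinset_card _ (hS i)]

/-- The constant in the upper bound. -/
noncomputable def wK (g : ℕ) : ℝ := 3 ^ g * 2 ^ (2 * g * g)

theorem one_le_wK (g : ℕ) : 1 ≤ wK g := by
  unfold wK
  exact one_le_mul_of_one_le_of_one_le (one_le_pow₀ (by norm_num)) (one_le_pow₀ (by norm_num))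

section

variable {ι : Type} [Fintype ι] [DecidableEq ι]

theorem slice_card (g : ι → ℕ) (hg : ∀ i, g i ≠ 0) {p q : ℕ} (hp : p.Prime) (hq : q ≠ 0)
    {δ : ℝ} (hδ : 0 < δ) (E : ∀ i, Fin (g i) → ℕ) (hE : ∀ i, Small p (g i) q δ (E i))
    (i₀ : ι) {C : ℝ} (hC : 0 ≤ C) (S : Set ℤ[X]) (hS : S ⊆ closedStratum p (g i₀) q (E i₀))
    (hSc : (S.ncard : ℝ) ≤ C * vol p (g i₀) q (E i₀)) :
    ({P : ι → ℤ[X] | (∀ i, P i ∈ closedStratum p (g i) q (E i)) ∧ P i₀ ∈ S}.ncard : ℝ) ≤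
      C * (∏ i, wK (g i)) * ∏ i, vol p (g i) q (E i) := by
  classical
  have hset : {P : ι → ℤ[X] | (∀ i, P i ∈ closedStratum p (g i) q (E i)) ∧ P i₀ ∈ S} =
      {P : ι → ℤ[X] | ∀ i, P i ∈ (if i = i₀ then S else closedStratum p (g i) q (E i))} := by
    ext P
    simp only [Set.mem_ofPred_eq]
    constructor
    · rintro ⟨h1, h2⟩ i
      by_cases hi : i = i₀
      · rw [if_pos hi, hi]; exact h2
      · rw [if_neg hi]; exact h1 i
    · intro h
      have h2 : P i₀ ∈ S := by simpa using h i₀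
      refine ⟨fun i => ?_, h2⟩
      by_cases hi : i = i₀
      · rw [hi]; exact hS h2
      · have := h i
        rwa [if_neg hi] at this
  have hvol : ∀ i, 0 < vol p (g i) q (E i) := fun i => vol_pos hp hq
  rw [hset, ncard_pi_set]
  · rw [Nat.cast_prod]
    have hb : ∀ i, ((if i = i₀ then S else closedStratum p (g i) q (E i) : Set ℤ[X]).ncard : ℝ) ≤
        (if i = i₀ then C else 1) * (wK (g i) * vol p (g i) q (E i)) := by
      intro i
      by_cases hi : i = i₀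
      · rw [if_pos hi, if_pos hi, hi]
        refine hSc.trans ?_
        have h1 : 0 ≤ C * vol p (g i₀) q (E i₀) := mul_nonneg hC (hvol i₀).le
        nlinarith [one_le_wK (g i₀)]
      · rw [if_neg hi, if_neg hi, one_mul]
        exact closed_card_le hp (hg i) hq hδ (hE i)
    refine (Finset.prod_le_prod (fun i _ => Nat.cast_nonneg _) fun i _ => hb i).trans ?_
    rw [Finset.prod_mul_distrib, Finset.prod_mul_distrib, Finset.prod_ite_eq',
      if_pos (Finset.mem_univ _)]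
    apply le_of_eq
    ring
  · intro i
    by_cases hi : i = i₀
    · rw [if_pos hi]
      exact (closed_finite hq).subset hS
    · rw [if_neg hi]
      exact closed_finite hq

/-- Few families in a stratum are good at no prime. -/
theorem noGood_card (g : ι → ℕ) (hg : ∀ i, g i ≠ 0) (i₀ : ι) {δ : ℝ} (hδ : 0 < δ)
    (hδ1 : δ ≤ 1) :
    ∃ C : ℝ, 0 ≤ C ∧ ∃ q₀ : ℕ, ∀ p q : ℕ, p.Prime → q₀ ≤ q → p ∣ q → IsPrimePow q →
      ∀ E : ∀ i, Fin (g i) → ℕ, (∀ i, Small p (g i) q δ (E i)) →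
      ({P : ι → ℤ[X] | (∀ i, P i ∈ closedStratum p (g i) q (E i)) ∧
        ∀ l : ℕ, l.Prime → l ≠ 2 → ¬ l ∣ q → ¬ GoodAt q P i₀ l}.ncard : ℝ) ≤
      C * (Real.log q * (q : ℝ) ^ (-(δ / 3))) * ∏ i, vol p (g i) q (E i) := by
  classical
  set N : ℕ := Fintype.card (Idx g) with hN
  have hNpos : 0 < N := Fintype.card_pos_iff.2 ⟨⟨i₀, ⟨0, Nat.pos_of_ne_zero (hg i₀)⟩⟩⟩
  have hN0 : (0 : ℝ) < N := by exact_mod_cast hNpos
  set c₀ : ℝ := (1 / (4 * N)) ^ N with hc₀
  have hc₀pos : 0 < c₀ := by positivity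
  obtain ⟨C, hC0, q₀, hq₀⟩ := sieve_box (Idx g) (4 * N + 10) hc₀pos hδ hδ1
  refine ⟨C * ∏ i, (2 : ℝ) ^ (2 * g i * g i), by positivity, max q₀ 3,
    fun p q hp hq hpq hqp E hE => ?_⟩
  have hq0 : q ≠ 0 := hqp.ne_zero
  have hqq₀ : q₀ ≤ q := le_trans (le_max_left _ _) hq
  -- the residue classes
  have hex : ∀ l : ℕ, l.Prime → 4 * N + 10 < l → ¬ l ∣ q → ∃ Ω : Finset (Idx g → ZMod l),
      c₀ * (l : ℝ) ^ Fintype.card (Idx g) ≤ Ω.card ∧
      ∀ P : ι → ℤ[X], (∀ i, P i ∈ weilPolys (g i) q) →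
        upper g (fun j => (P j).map (Int.castRingHom (ZMod l))) ∈ Ω → GoodAt q P i₀ l := by
    intro l hlp hlN hlq
    have : Fact l.Prime := ⟨hlp⟩
    have hm : 2 * (Fintype.card (Idx g) * ((l - 5) / (2 * N))) ≤ l - 5 := by
      rw [← hN, ← mul_assoc, mul_comm]
      exact Nat.div_mul_le_self _ _
    obtain ⟨Ω, hΩ1, hΩ2⟩ := exists_omega (l := l) (by omega) hlq
      (⟨i₀, ⟨0, Nat.pos_of_ne_zero (hg i₀)⟩⟩ : Idx g) ((l - 5) / (2 * N)) hm
    refine ⟨Ω, ?_, hΩ2⟩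
    rw [hΩ1, ← hN, hc₀, ← mul_pow]
    push_cast
    apply pow_le_pow_left₀ (by positivity)
    have h1 : (l - 5) < (l - 5) / (2 * N) * (2 * N) + 2 * N := Nat.lt_div_mul_add (by omega)
    have h2 : l - 5 + 5 = l := by omega
    have h3 : (l : ℝ) ≤ 4 * N * (((l - 5) / (2 * N) : ℕ) : ℝ) := by
      have h4 : l ≤ 4 * N * ((l - 5) / (2 * N)) := by
        have h5 : 4 * N * ((l - 5) / (2 * N)) = 2 * ((l - 5) / (2 * N) * (2 * N)) := by ring
        rw [h5]
        omega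
      exact_mod_cast h4
    rw [one_div, inv_mul_le_iff₀ (by positivity)]
    exact h3
  choose! Ω hΩ1 hΩ2 using hex
  let M : Idx g → ℕ := fun jk => side (2 * g jk.1) q jk.2
  let D : Idx g → ℕ := fun jk => p ^ E jk.1 jk.2
  have hbad := hq₀ q hqq₀ hqp M D (fun k => (pow_pos hp.pos _).ne')
    (fun k l hl hlD => by
      have h1 := hl.dvd_of_dvd_pow hlD
      exact h1.trans hpq)
    (fun jk => small_side (hg jk.1) hq0 (hE jk.1) jk.2) Ω hΩ1
  -- the injection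
  have hupper : ∀ P : ι → ℤ[X], ∀ jk : Idx g, upper g P jk = up (g jk.1) (P jk.1) jk.2 :=
    fun P jk => rfl
  have hmaps : Set.MapsTo (upper g)
      {P : ι → ℤ[X] | (∀ i, P i ∈ closedStratum p (g i) q (E i)) ∧
        ∀ l : ℕ, l.Prime → l ≠ 2 → ¬ l ∣ q → ¬ GoodAt q P i₀ l}
      {v : Idx g → ℤ | v ∈ box M ∧ (∀ k, (D k : ℤ) ∣ v k) ∧
        ∀ l : ℕ, l.Prime → 4 * N + 10 < l → ¬ l ∣ q → red l v ∉ Ω l} := by
    rintro P ⟨hP, hbadP⟩
    refine ⟨?_, fun jk => closed_dvd (hP jk.1) jk.2, fun l hlp hlN hlq hmem => ?_⟩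
    · rw [box, Fintype.mem_piFinset]
      intro jk
      exact upper_mem (weil_subset_circle (hP jk.1).1) (by have := jk.2.2; omega)
    · refine hbadP l hlp (by omega) hlq (hΩ2 l hlp hlN hlq P (fun i => (hP i).1) ?_)
      have h1 : upper g (fun j => (P j).map (Int.castRingHom (ZMod l))) = red l (upper g P) := by
        funext jk
        simp [upper, red, coeff_map]
      rw [h1]
      exact hmem
  have hinj : Set.InjOn (upper g) {P : ι → ℤ[X] | (∀ i, P i ∈ closedStratum p (g i) q (E i)) ∧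
        ∀ l : ℕ, l.Prime → l ≠ 2 → ¬ l ∣ q → ¬ GoodAt q P i₀ l} := by
    rintro P ⟨hP, -⟩ Q ⟨hQ, -⟩ h
    funext j
    apply up_injOn (g j) hq0 (hP j).1 (hQ j).1
    funext k
    exact congrFun h ⟨j, k⟩
  have hfin : {v : Idx g → ℤ | v ∈ box M ∧ (∀ k, (D k : ℤ) ∣ v k) ∧
        ∀ l : ℕ, l.Prime → 4 * N + 10 < l → ¬ l ∣ q → red l v ∉ Ω l}.Finite :=
    (Finset.finite_toSet (box M)).subset fun _ h => h.1
  have hcard := Set.ncard_le_ncard_of_injOn _ hmaps hinj hfin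
  have hcard' := (Nat.cast_le (α := ℝ)).2 hcard
  refine hcard'.trans (hbad.trans ?_)
  have hlog : 0 ≤ Real.log q := Real.log_natCast_nonneg q
  have ht0 : 0 ≤ (q : ℝ) ^ (-(δ / 3)) := Real.rpow_nonneg (Nat.cast_nonneg _) _
  have hprod : ∏ jk : Idx g, ((M jk : ℝ) / (D jk : ℝ)) ≤
      (∏ i, (2 : ℝ) ^ (2 * g i * g i)) * ∏ i, vol p (g i) q (E i) := by
    rw [Fintype.prod_sigma, ← Finset.prod_mul_distrib]
    apply Finset.prod_le_prod
    · intro i _
      exact Finset.prod_nonneg fun k _ => div_nonneg (Nat.cast_nonneg _) (Nat.cast_nonneg _)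
    · intro i _
      exact side_div_le hp
  calc C * (Real.log q * (q : ℝ) ^ (-(δ / 3))) * ∏ jk : Idx g, ((M jk : ℝ) / (D jk : ℝ))
      ≤ C * (Real.log q * (q : ℝ) ^ (-(δ / 3))) *
          ((∏ i, (2 : ℝ) ^ (2 * g i * g i)) * ∏ i, vol p (g i) q (E i)) :=
        mul_le_mul_of_nonneg_left hprod (by positivity)
    _ = _ := by ring

theorem density_strata (g : ι → ℕ) (hg : ∀ i, g i ≠ 0) {δ : ℝ} (hδ : 0 < δ) (hδ1 : δ ≤ 1) :
    ∃ C : ℝ, ∃ q₀ : ℕ, ∀ p q : ℕ, p.Prime → q₀ ≤ q → p ∣ q → IsPrimePow q →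
      ∀ E : ∀ i, Fin (g i) → ℕ, (∀ i, Small p (g i) q δ (E i)) →
      {P : ι → ℤ[X] | ∀ i, P i ∈ closedStratum p (g i) q (E i)}.Finite ∧
      ({P : ι → ℤ[X] | (∀ i, P i ∈ closedStratum p (g i) q (E i)) ∧
        ¬ TateGenerated q (∏ i, P i)}.ncard : ℝ) ≤
      C * (Real.log q * (q : ℝ) ^ (-(δ / 3))) *
        ({P : ι → ℤ[X] | ∀ i, P i ∈ openStratum p (g i) q (E i)}.ncard : ℝ) := by
  classical
  have hcy := fun i => noCycle_card (g i) (hg i) hδ hδ1
  choose C₁ hC₁0 q₁ hC₁ using hcy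
  have hav := fun i => noGood_card g hg i hδ hδ1
  choose C₂ hC₂0 q₂ hC₂ using hav
  have hlow := fun i => open_card_ge (g i) (hg i) hδ
  choose c hc0 q₃ hc using hlow
  set K : ℝ := ∏ i, wK (g i) with hK
  have hKpos : 0 < K := Finset.prod_pos fun i _ => lt_of_lt_of_le one_pos (one_le_wK (g i))
  have hcpos : 0 < ∏ i, c i := Finset.prod_pos fun i _ => hc0 i
  refine ⟨(∑ i, (C₁ i * K + 10 * K + C₂ i)) / ∏ i, c i,
    3 + ∑ i, (q₁ i + q₂ i + q₃ i), fun p q hp hq hpq hqp E hE => ?_⟩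
  have hq3 : 3 ≤ q := by omega
  have hq0 : q ≠ 0 := by omega
  have hqi : ∀ i, q₁ i + q₂ i + q₃ i ≤ q := by
    intro i
    have h1 : q₁ i + q₂ i + q₃ i ≤ ∑ i, (q₁ i + q₂ i + q₃ i) :=
      Finset.single_le_sum (f := fun i => q₁ i + q₂ i + q₃ i) (fun _ _ => Nat.zero_le _)
        (Finset.mem_univ i)
    omega
  have hWfin : {P : ι → ℤ[X] | ∀ i, P i ∈ closedStratum p (g i) q (E i)}.Finite :=
    Set.Finite.pi' fun i => closed_finite hq0
  refine ⟨hWfin, ?_⟩
  have hq1 : (1 : ℝ) ≤ q := by exact_mod_cast (by omega : 1 ≤ q)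
  set t : ℝ := (q : ℝ) ^ (-(δ / 3)) with ht
  have ht0 : 0 ≤ t := Real.rpow_nonneg (Nat.cast_nonneg _) _
  have hlog : 1 ≤ Real.log q := by
    rw [Real.le_log_iff_exp_le (by positivity)]
    have h1 := Real.exp_one_lt_d9
    have h2 : (3 : ℝ) ≤ q := by exact_mod_cast hq3
    linarith
  set η : ℝ := Real.log q * t with hη
  have hη0 : 0 ≤ η := by positivity
  have hqδ : (q : ℝ) ^ (-δ) ≤ η := by
    have h2 : (q : ℝ) ^ (-δ) ≤ t := by
      rw [ht]
      exact Real.rpow_le_rpow_of_exponent_le hq1 (by linarith)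
    nlinarith
  set V : ℝ := ∏ i, vol p (g i) q (E i) with hV
  have hVpos : 0 < V := Finset.prod_pos fun i _ => vol_pos hp hq0
  -- the families in the open strata
  have hord : (∏ i, c i) * V ≤
      ({P : ι → ℤ[X] | ∀ i, P i ∈ openStratum p (g i) q (E i)}.ncard : ℝ) := by
    rw [ncard_pi_set _ fun i => (weil_finite (g i) hq0).subset fun _ h => h.1, Nat.cast_prod,
      hV, ← Finset.prod_mul_distrib]
    apply Finset.prod_le_prod
    · intro i _
      exact mul_nonneg (hc0 i).le (vol_pos hp hq0).le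
    · intro i _
      exact hc i p q hp hpq (by have := hqi i; omega) hqp (E i) (hE i)
  -- the three exceptional sets
  let E₁ : ι → Set (ι → ℤ[X]) := fun i =>
    {P | (∀ i, P i ∈ closedStratum p (g i) q (E i)) ∧ P i ∈ {P | P ∈ closedStratum p (g i) q (E i) ∧
      ∀ l : ℕ, l.Prime → ¬ l ∣ q → ¬ CycleAt q (g i) P l}}
  let E₂ : ι → Set (ι → ℤ[X]) := fun i =>
    {P | (∀ i, P i ∈ closedStratum p (g i) q (E i)) ∧ P i ∈ {P | P ∈ closedStratum p (g i) q (E i) ∧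
      g i = 1 ∧ ∃ k : ℕ, k ≤ 4 ∧ P.coeff 1 ^ 2 = (k : ℤ) * q}}
  let E₃ : ι → Set (ι → ℤ[X]) := fun i =>
    {P | (∀ i, P i ∈ closedStratum p (g i) q (E i)) ∧
        ∀ l : ℕ, l.Prime → l ≠ 2 → ¬ l ∣ q → ¬ GoodAt q P i l}
  have hE₁ : ∀ i, ((E₁ i).ncard : ℝ) ≤ C₁ i * K * η * V := by
    intro i
    refine (slice_card g hg hp hq0 hδ E hE i (mul_nonneg (hC₁0 i) hη0) _ (fun _ h => h.1)
      (hC₁ i p q hp (by have := hqi i; omega) hpq hqp (E i) (hE i))).trans (le_of_eq ?_)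
    rw [← hK, ← hV]
    ring
  have hE₂ : ∀ i, ((E₂ i).ncard : ℝ) ≤ 10 * K * η * V := by
    intro i
    have h0 : ({P | P ∈ closedStratum p (g i) q (E i) ∧ g i = 1 ∧
      ∃ k : ℕ, k ≤ 4 ∧ P.coeff 1 ^ 2 = (k : ℤ) * q}.ncard : ℝ) ≤
        (10 * η) * vol p (g i) q (E i) := by
      by_cases hgi : g i = 1
      · have hvol : (q : ℝ) ^ δ ≤ vol p (g i) q (E i) := by
          have hk : ∀ k : Fin (g i), (q : ℝ) ^ δ ≤
              Real.sqrt q ^ ((k : ℕ) + 1) / (p : ℝ) ^ E i k := by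
            intro k
            have hp0 : (0 : ℝ) < p := by exact_mod_cast hp.pos
            rw [le_div_iff₀ (by positivity), mul_comm]
            exact hE i k
          have h1 : ∏ _k : Fin (g i), (q : ℝ) ^ δ ≤ vol p (g i) q (E i) := by
            rw [vol]
            exact Finset.prod_le_prod (fun _ _ => by positivity) fun k _ => hk k
          rw [Finset.prod_const, Finset.card_univ, Fintype.card_fin] at h1
          have h7 : ((q : ℝ) ^ δ) ^ g i = (q : ℝ) ^ δ := by rw [hgi, pow_one]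
          rw [h7] at h1
          exact h1
        have h2 : ({P | P ∈ closedStratum p (g i) q (E i) ∧ g i = 1 ∧
            ∃ k : ℕ, k ≤ 4 ∧ P.coeff 1 ^ 2 = (k : ℤ) * q}.ncard : ℝ) ≤ 10 := by
          have h3 : {P | P ∈ closedStratum p (g i) q (E i) ∧ g i = 1 ∧
              ∃ k : ℕ, k ≤ 4 ∧ P.coeff 1 ^ 2 = (k : ℤ) * q}.ncard ≤
              {P | P ∈ weilPolys 1 q ∧ ∃ k : ℕ, k ≤ 4 ∧ P.coeff 1 ^ 2 = (k : ℤ) * q}.ncard := by
            apply Set.ncard_le_ncard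
            · rintro P ⟨h4, -, h5⟩
              refine ⟨?_, h5⟩
              have h6 := h4.1
              rwa [hgi] at h6
            · exact (weil_finite 1 hq0).subset fun _ h => h.1
          exact_mod_cast h3.trans (special_card_le (q := q))
        refine h2.trans ?_
        have h3 : 1 ≤ η * vol p (g i) q (E i) := by
          have h4 : (q : ℝ) ^ (-δ) * (q : ℝ) ^ δ = 1 := by
            rw [← Real.rpow_add (by positivity), neg_add_cancel, Real.rpow_zero]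
          rw [← h4]
          exact mul_le_mul hqδ hvol (by positivity) hη0
        linarith
      · have h1 : {P | P ∈ closedStratum p (g i) q (E i) ∧ g i = 1 ∧
            ∃ k : ℕ, k ≤ 4 ∧ P.coeff 1 ^ 2 = (k : ℤ) * q} = ∅ := by
          ext P
          simp [hgi]
        rw [h1, Set.ncard_empty, Nat.cast_zero]
        have := vol_pos (p := p) (g := g i) (q := q) (E := E i) hp hq0
        positivity
    refine (slice_card g hg hp hq0 hδ E hE i (by positivity : 0 ≤ 10 * η) _ (fun _ h => h.1)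
      h0).trans (le_of_eq ?_)
    rw [← hK, ← hV]
    ring
  have hE₃ : ∀ i, ((E₃ i).ncard : ℝ) ≤ C₂ i * η * V := by
    intro i
    exact hC₂ i p q hp (by have := hqi i; omega) hpq hqp E hE
  -- the union
  have hsub : {P : ι → ℤ[X] | (∀ i, P i ∈ closedStratum p (g i) q (E i)) ∧
      ¬ TateGenerated q (∏ i, P i)} ⊆
      ⋃ i ∈ (Finset.univ : Finset ι), (E₁ i ∪ E₂ i ∪ E₃ i) := by
    rintro P ⟨hP, hT⟩
    by_contra hcon
    simp only [Finset.mem_univ, Set.iUnion_true, Set.mem_iUnion, not_exists, Set.mem_union,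
      not_or] at hcon
    apply hT
    apply tateGenerated_of_cycle hq0 g hg P (fun i => (hP i).1)
    · intro i
      by_contra hi
      push Not at hi
      exact (hcon i).1.1 ⟨hP, hP i, hi⟩
    · intro i hgi k hk heq
      exact (hcon i).1.2 ⟨hP, hP i, hgi, k, hk, heq⟩
    · intro i
      by_contra hi
      push Not at hi
      exact (hcon i).2 ⟨hP, hi⟩
  have hfinE : ∀ i, (E₁ i ∪ E₂ i ∪ E₃ i).Finite := by
    intro i
    refine hWfin.subset ?_
    rintro P ((h | h) | h)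
    · exact h.1
    · exact h.1
    · exact h.1
  have hcard : ({P : ι → ℤ[X] | (∀ i, P i ∈ closedStratum p (g i) q (E i)) ∧
      ¬ TateGenerated q (∏ i, P i)}.ncard : ℝ) ≤
      ∑ i, (C₁ i * K + 10 * K + C₂ i) * η * V := by
    have h1 : {P : ι → ℤ[X] | (∀ i, P i ∈ closedStratum p (g i) q (E i)) ∧
        ¬ TateGenerated q (∏ i, P i)}.ncard ≤ ∑ i, (E₁ i ∪ E₂ i ∪ E₃ i).ncard := by
      refine (Set.ncard_le_ncard hsub ?_).trans (Finset.set_ncard_biUnion_le _ _)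
      exact Set.Finite.biUnion (Finset.finite_toSet _) fun i _ => hfinE i
    have h2 : ({P : ι → ℤ[X] | (∀ i, P i ∈ closedStratum p (g i) q (E i)) ∧
        ¬ TateGenerated q (∏ i, P i)}.ncard : ℝ) ≤ ∑ i, ((E₁ i ∪ E₂ i ∪ E₃ i).ncard : ℝ) := by
      exact_mod_cast h1
    refine h2.trans (Finset.sum_le_sum fun i _ => ?_)
    have h3 : ((E₁ i ∪ E₂ i ∪ E₃ i).ncard : ℝ) ≤
        (E₁ i).ncard + (E₂ i).ncard + (E₃ i).ncard := by
      exact_mod_cast (Set.ncard_union_le _ _).trans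
        (Nat.add_le_add_right (Set.ncard_union_le _ _) _)
    have h4 := hE₁ i
    have h5 := hE₂ i
    have h6 := hE₃ i
    calc ((E₁ i ∪ E₂ i ∪ E₃ i).ncard : ℝ) ≤ (E₁ i).ncard + (E₂ i).ncard + (E₃ i).ncard := h3
      _ ≤ C₁ i * K * η * V + 10 * K * η * V + C₂ i * η * V := add_le_add (add_le_add h4 h5) h6
      _ = (C₁ i * K + 10 * K + C₂ i) * η * V := by ring
  refine hcard.trans ?_
  rw [← Finset.sum_mul, ← Finset.sum_mul]
  have hsum : 0 ≤ ∑ i, (C₁ i * K + 10 * K + C₂ i) :=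
    Finset.sum_nonneg fun i _ => by
      have := hC₁0 i
      have := hC₂0 i
      positivity
  calc (∑ i, (C₁ i * K + 10 * K + C₂ i)) * η * V
      = (∑ i, (C₁ i * K + 10 * K + C₂ i)) / (∏ i, c i) * η * ((∏ i, c i) * V) := by
        field_simp
    _ ≤ _ := mul_le_mul_of_nonneg_left hord (mul_nonneg (div_nonneg hsum hcpos.le) hη0)

end

end Pool.Agent.Lib.MP_021685_agD
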